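import Mathlib

set_option autoImplicit false

open NumberField Module

namespace Pool.Agent.Lib.MP_695920_nt.Qt

/-- the curve `y ^ 2 = x ^ 3 + k` -/
def Ek {F : Type} [Field F] (k : F) : WeierstrassCurve.Affine F := ⟨0, 0, 0, 0, k⟩

variable {F : Type} [Field F]

lemma Ek_equation_iff (k x y : F) : (Ek k).Equation x y ↔ y ^ 2 = x ^ 3 + k := by
  rw [WeierstrassCurve.Affine.equation_iff]
  simp [Ek]

lemma Ek_nonsingular [CharZero F] {k : F} (hk : k ≠ 0) {x y : F} (h : y ^ 2 = x ^ 3 + k) :
    (Ek k).Nonsingular x y := by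
  rw [WeierstrassCurve.Affine.nonsingular_iff]
  refine ⟨(Ek_equation_iff k x y).mpr h, ?_⟩
  simp only [Ek]
  by_contra hcon
  push Not at hcon
  obtain ⟨h1, h2⟩ := hcon
  have hy : y = 0 := by
    have : (2 : F) * y = 0 := by linear_combination h2
    simpa using this
  have hx : x = 0 := by
    have : (3 : F) * x ^ 2 = 0 := by linear_combination -h1
    simpa using this
  apply hk
  rw [hy, hx] at h
  linear_combination -h

/-- the point `(x, y)` of the curve -/
def pt [CharZero F] {k : F} (hk : k ≠ 0) {x y : F} (h : y ^ 2 = x ^ 3 + k) : (Ek k).Point :=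
  .some x y (Ek_nonsingular hk h)

/-- the height relative to a cube root `κ` of `k` in an extension `M`, divided by the degree -/
noncomputable def ht {M : Type} [Field M] [NumberField M] [Algebra F M] {k : F} (κ : M)
    (P : (Ek k).Point) : ℝ :=
  Height.logHeight ![algebraMap F M (P.xRep 0), κ * algebraMap F M (P.xRep 1)] / finrank ℚ M

/-- the cubes in the group of units of a field -/
def Cub (K : Type) [Field K] : Subgroup Kˣ := (powMonoidHom 3 : Kˣ →* Kˣ).range

/-- units of `K` whose valuation is a multiple of `3` at all primes not containing `a` -/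
noncomputable def Sel (K : Type) [Field K] [NumberField K] (a : 𝓞 K) : Subgroup Kˣ where
  carrier := {z | ∀ v : IsDedekindDomain.HeightOneSpectrum (𝓞 K), a ∉ v.asIdeal →
    (3 : ℤ) ∣ Multiplicative.toAdd (v.valuationOfNeZero z)}
  one_mem' := by intro v _; simp
  mul_mem' := by
    intro x y hx hy v hv
    rw [map_mul, toAdd_mul]
    exact dvd_add (hx v hv) (hy v hv)
  inv_mem' := by
    intro x hx v hv
    rw [map_inv, toAdd_inv]
    exact (hx v hv).neg_right

end Pool.Agent.Lib.MP_695920_nt.Qt
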