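import Mathlib
import Pool.Agent.Lib.MP_695920_nt.Core
import Pool.Agent.Lib.MP_695920_nt.Qt.Defs

/-! MP_695920_nt, pair (4,3), task T16 (helper39): from an ideal whose cube is principal to an
integral point. -/

set_option autoImplicit false

open NumberField Module IsDedekindDomain
open scoped nonZeroDivisors Pointwise

namespace Pool.Agent.Lib.MP_695920_nt.Qt

section quad

variable {F K : Type} [Field F] [NumberField F] [Field K] [NumberField K] [Algebra F K]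

omit [NumberField F] [NumberField K] in
lemma t16_smul_coe (σ : Gal(K/F)) (x : 𝓞 K) : ((σ • x : 𝓞 K) : K) = σ (x : K) := rfl

omit [NumberField F] [NumberField K] in
lemma t16_smul_alg (σ : Gal(K/F)) (x : 𝓞 F) :
    σ • (algebraMap (𝓞 F) (𝓞 K) x) = algebraMap (𝓞 F) (𝓞 K) x := by
  apply FaithfulSMul.algebraMap_injective (𝓞 K) K
  show σ ((algebraMap (𝓞 F) (𝓞 K) x : 𝓞 K) : K) = _
  have h1 : ((algebraMap (𝓞 F) (𝓞 K) x : 𝓞 K) : K) = algebraMap F K (x : F) := rfl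
  rw [h1, AlgEquiv.commutes]
  rfl

omit [NumberField F] [NumberField K] in
lemma t16_smul_span (σ : Gal(K/F)) (x : 𝓞 K) :
    σ • (Ideal.span {x}) = Ideal.span {σ • x} := by
  show Ideal.map (MulSemiringAction.toRingHom Gal(K/F) (𝓞 K) σ) (Ideal.span {x}) = _
  rw [Ideal.map_span, Set.image_singleton]
  rfl

/-- the conjugation -/
lemma t16_conj (hfin : finrank F K = 2) : ∃ σ : Gal(K/F), σ ≠ 1 ∧ ∀ τ : Gal(K/F), τ = 1 ∨ τ = σ := by
  have hquad : Algebra.IsQuadraticExtension F K := ⟨hfin⟩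
  have hgal : IsGalois F K := inferInstance
  have hcard : Nat.card Gal(K/F) = 2 := by
    rw [IsGalois.card_aut_eq_finrank, hfin]
  have hnt : ∃ σ : Gal(K/F), σ ≠ 1 := by
    by_contra hcon
    push Not at hcon
    have : Nat.card Gal(K/F) ≤ 1 := by
      have hs : Subsingleton Gal(K/F) := ⟨fun a b => (hcon a).trans (hcon b).symm⟩
      exact Finite.card_le_one_iff_subsingleton.mpr hs
    omega
  obtain ⟨σ, hσ⟩ := hnt
  refine ⟨σ, hσ, ?_⟩
  intro τ
  classical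
  by_contra hcon
  push Not at hcon
  have h3 : ({1, σ, τ} : Finset Gal(K/F)).card = 3 :=
    Finset.card_eq_three.mpr ⟨1, σ, τ, hσ.symm, hcon.1.symm, hcon.2.symm, rfl⟩
  have h4 := Finset.card_le_univ ({1, σ, τ} : Finset Gal(K/F))
  rw [← Nat.card_eq_fintype_card, hcard, h3] at h4
  omega

omit [NumberField F] [NumberField K] in
lemma t16_sq {σ : Gal(K/F)} (hσ : σ ≠ 1)
    (hall : ∀ τ : Gal(K/F), τ = 1 ∨ τ = σ) : σ * σ = 1 := by
  rcases hall (σ * σ) with h | h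
  · exact h
  · exfalso
    apply hσ
    exact mul_left_cancel (h.trans (mul_one σ).symm)

lemma t16_prod {σ : Gal(K/F)} (hσ : σ ≠ 1)
    (hall : ∀ τ : Gal(K/F), τ = 1 ∨ τ = σ) {M : Type*} [CommMonoid M] (f : Gal(K/F) → M) :
    ∏ τ, f τ = f 1 * f σ := by
  classical
  have huniv : (Finset.univ : Finset Gal(K/F)) = {1, σ} := by
    ext τ
    simp only [Finset.mem_univ, Finset.mem_insert, Finset.mem_singleton, true_iff]
    exact hall τ
  rw [huniv, Finset.prod_pair hσ.symm]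

/-- fixed integers come from the base -/
lemma t16_fixed (hfin : finrank F K = 2) {σ : Gal(K/F)}
    (hall : ∀ τ : Gal(K/F), τ = 1 ∨ τ = σ) {x : 𝓞 K} (hx : σ • x = x) :
    ∃ y : 𝓞 F, algebraMap (𝓞 F) (𝓞 K) y = x := by
  have hquad : Algebra.IsQuadraticExtension F K := ⟨hfin⟩
  have hgal : IsGalois F K := inferInstance
  have h1 : (x : K) ∈ (⊥ : IntermediateField F K) := by
    rw [IsGalois.mem_bot_iff_fixed]
    intro τ
    rcases hall τ with rfl | rfl
    · rfl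
    · exact congrArg (fun z : 𝓞 K => (z : K)) hx
  obtain ⟨z, hz⟩ := IntermediateField.mem_bot.mp h1
  have hz' : IsIntegral ℤ z := by
    have h2 : IsIntegral ℤ (algebraMap F K z) := by
      rw [hz]
      exact x.isIntegral_coe
    exact (isIntegral_algebraMap_iff (algebraMap F K).injective).mp h2
  refine ⟨⟨z, hz'⟩, ?_⟩
  apply FaithfulSMul.algebraMap_injective (𝓞 K) K
  exact hz

omit [NumberField F] [NumberField K] in
lemma t16_alg_inj : Function.Injective (algebraMap (𝓞 F) (𝓞 K)) :=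
  FaithfulSMul.algebraMap_injective (𝓞 F) (𝓞 K)

/-- the norm of an integer -/
lemma t16_norm (hfin : finrank F K = 2) {σ : Gal(K/F)} (hσ : σ ≠ 1)
    (hall : ∀ τ : Gal(K/F), τ = 1 ∨ τ = σ) (x : 𝓞 K) :
    algebraMap (𝓞 F) (𝓞 K) (Algebra.intNorm (𝓞 F) (𝓞 K) x) = x * σ • x := by
  have hquad : Algebra.IsQuadraticExtension F K := ⟨hfin⟩
  have hgal : IsGalois F K := inferInstance
  apply FaithfulSMul.algebraMap_injective (𝓞 K) K
  rw [← IsScalarTower.algebraMap_apply, IsScalarTower.algebraMap_apply (𝓞 F) F K,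
    Algebra.algebraMap_intNorm (A := 𝓞 F) (K := F) (L := K) (B := 𝓞 K),
    Algebra.norm_eq_prod_automorphisms, t16_prod hσ hall, map_mul]
  rfl

lemma t16_ideal_pow_inj {A : Type*} [CommRing A] [IsDedekindDomain A] {I J : Ideal A} {n : ℕ}
    (hn : n ≠ 0) (h : I ^ n = J ^ n) : I = J := by
  apply dvd_antisymm
  · exact (UniqueFactorizationMonoid.pow_dvd_pow_iff_dvd hn).mp (dvd_of_eq h)
  · exact (UniqueFactorizationMonoid.pow_dvd_pow_iff_dvd hn).mp (dvd_of_eq h.symm)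

omit [NumberField F] in
lemma t16_absNorm_smul (σ : Gal(K/F)) (I : Ideal (𝓞 K)) :
    Ideal.absNorm (σ • I) = Ideal.absNorm I := by
  rw [← Ideal.absNorm_relNorm (R := ℤ) (I := σ • I), Ideal.relNorm_smul (R := ℤ) σ I,
    Ideal.absNorm_relNorm]

/-- the norm of an ideal -/
lemma t16_relNorm (hfin : finrank F K = 2) {σ : Gal(K/F)} (hσ : σ ≠ 1)
    (hall : ∀ τ : Gal(K/F), τ = 1 ∨ τ = σ) (I : Ideal (𝓞 K)) :
    (Ideal.relNorm (𝓞 F) I).map (algebraMap (𝓞 F) (𝓞 K)) = I * σ • I := by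
  have hquad : Algebra.IsQuadraticExtension F K := ⟨hfin⟩
  have hgal : IsGalois F K := inferInstance
  by_cases hI : I = ⊥
  · subst hI
    rw [Ideal.relNorm_bot, Ideal.map_bot, Ideal.bot_mul]
  have hle : (Ideal.relNorm (𝓞 F) I).map (algebraMap (𝓞 F) (𝓞 K)) ≤ I * σ • I := by
    rw [Ideal.map_relNorm, Ideal.span_le]
    rintro _ ⟨x, hx, rfl⟩
    rw [Function.comp_apply, t16_norm hfin hσ hall]
    exact Ideal.mul_mem_mul hx (Ideal.smul_mem_pointwise_smul σ x I hx)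
  have hfin' : finrank (𝓞 F) (𝓞 K) = 2 := by
    rw [← hfin]
    exact (IsFractionRing.finrank_eq (𝓞 F) F (𝓞 K) K).symm
  have hn1 : Ideal.absNorm ((Ideal.relNorm (𝓞 F) I).map (algebraMap (𝓞 F) (𝓞 K))) =
      Ideal.absNorm I ^ 2 := by
    rw [Ideal.absNorm_algebraMap, Ideal.absNorm_relNorm, hfin']
  have hn2 : Ideal.absNorm (I * σ • I) = Ideal.absNorm I ^ 2 := by
    rw [map_mul, t16_absNorm_smul, sq]
  obtain ⟨C, hC⟩ := Ideal.dvd_iff_le.mpr hle
  have hN0 : Ideal.absNorm I ^ 2 ≠ 0 := pow_ne_zero _ (absNorm_pos_of_ne_bot hI).ne'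
  have h2 : Ideal.absNorm C = 1 := by
    have h3 := congrArg Ideal.absNorm hC
    rw [map_mul, hn1, hn2] at h3
    exact (Nat.eq_of_mul_eq_mul_left (Nat.pos_of_ne_zero hN0) (by rw [mul_one]; exact h3)).symm
  rw [Ideal.absNorm_eq_one_iff] at h2
  rw [hC, h2, Ideal.mul_top]

end quad

/-! ### places -/

lemma t16_card (F : Type) [Field F] [NumberField F] [IsCyclotomicExtension {3} ℚ F] :
    Fintype.card (InfinitePlace F) = 1 ∧ ∀ v : InfinitePlace F, v.IsComplex := by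
  have h1 : InfinitePlace.nrRealPlaces F = 0 :=
    IsCyclotomicExtension.Rat.nrRealPlaces_eq_zero (n := 3) F (by decide)
  have h2 : InfinitePlace.nrComplexPlaces F = 1 := by
    rw [IsCyclotomicExtension.Rat.nrComplexPlaces_eq_totient_div_two (n := 3)]
    rfl
  refine ⟨by rw [InfinitePlace.card_eq_nrRealPlaces_add_nrComplexPlaces, h1, h2], ?_⟩
  classical
  intro v
  by_contra hv
  rw [InfinitePlace.not_isComplex_iff_isReal] at hv
  have h3 : 0 < InfinitePlace.nrRealPlaces F := Fintype.card_pos_iff.mpr ⟨⟨v, hv⟩⟩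
  omega

lemma t16_place {F : Type} [Field F] [NumberField F] [IsCyclotomicExtension {3} ℚ F]
    (v w : InfinitePlace F) : v = w := by
  exact Fintype.card_le_one_iff.mp (t16_card F).1.le v w

lemma t16_place_norm {F : Type} [Field F] [NumberField F] [IsCyclotomicExtension {3} ℚ F]
    (v : InfinitePlace F) (x : 𝓞 F) : v (x : F) ^ 2 = (Ideal.absNorm (Ideal.span {x}) : ℝ) := by
  rw [← prod_infinitePlace_eq x]
  have huniv : (Finset.univ : Finset (InfinitePlace F)) = {v} := by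
    ext w
    simp [t16_place w v]
  rw [huniv, Finset.prod_singleton, InfinitePlace.mult, if_neg]
  exact InfinitePlace.not_isReal_iff_isComplex.mpr ((t16_card F).2 v)

lemma t16_place_unit {F : Type} [Field F] [NumberField F] [IsCyclotomicExtension {3} ℚ F]
    (v : InfinitePlace F) (u : (𝓞 F)ˣ) : v ((u : 𝓞 F) : F) = 1 := by
  have h1 := t16_place_norm v (u : 𝓞 F)
  rw [Ideal.span_singleton_eq_top.mpr u.isUnit, Ideal.absNorm_top] at h1
  have h2 : 0 ≤ v ((u : 𝓞 F) : F) := apply_nonneg _ _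
  push_cast at h1
  nlinarith

/-- an element whose quotients have integral trace and norm -/
lemma t16_dvd_sq {K : Type} [Field K] [NumberField K] {p q g a b : 𝓞 K} (hg : g ≠ 0)
    (hpq : p * q = g * b) (hsum : p ^ 2 + q ^ 2 = g * a) : g ∣ p ^ 2 := by
  have hgK : (g : K) ≠ 0 := RingOfIntegers.coe_ne_zero_iff.mpr hg
  set t : K := (p : K) ^ 2 / g with ht
  have e1 : (p : K) * q = g * b := by exact_mod_cast congrArg (fun z : 𝓞 K => (z : K)) hpq
  have e2 : (p : K) ^ 2 + (q : K) ^ 2 = g * a := by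
    exact_mod_cast congrArg (fun z : 𝓞 K => (z : K)) hsum
  have h1 : t ^ 2 - (a : K) * t + (b : K) ^ 2 = 0 := by
    have h2 : (g : K) ^ 2 * (t ^ 2 - (a : K) * t + (b : K) ^ 2) = 0 := by
      rw [ht]
      field_simp
      have e3 : ((g : K) * b) ^ 2 = ((p : K) * q) ^ 2 := by rw [e1]
      linear_combination (p : K) ^ 2 * e2 + e3
    exact (mul_eq_zero.mp h2).resolve_left (pow_ne_zero 2 hgK)
  have h3 : IsIntegral (𝓞 K) t := by
    refine ⟨Polynomial.X ^ 2 - Polynomial.C a * Polynomial.X + Polynomial.C (b ^ 2), ?_, ?_⟩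
    · have h4 : (Polynomial.X ^ 2 - Polynomial.C a * Polynomial.X + Polynomial.C (b ^ 2) :
          Polynomial (𝓞 K)) = Polynomial.X ^ 2 +
          (-(Polynomial.C a * Polynomial.X) + Polynomial.C (b ^ 2)) := by ring
      rw [h4]
      apply Polynomial.monic_X_pow_add
      have h5 : (-(Polynomial.C a * Polynomial.X) + Polynomial.C (b ^ 2) :
          Polynomial (𝓞 K)) = Polynomial.C (-a) * Polynomial.X + Polynomial.C (b ^ 2) := by
        rw [map_neg]
        ring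
      rw [h5]
      exact lt_of_le_of_lt Polynomial.degree_linear_le (by norm_num)
    · simp only [Polynomial.eval₂_add, Polynomial.eval₂_sub, Polynomial.eval₂_mul,
        Polynomial.eval₂_pow, Polynomial.eval₂_X, Polynomial.eval₂_C, map_pow]
      exact h1
  obtain ⟨y, hy⟩ := IsIntegrallyClosed.isIntegral_iff.mp h3
  refine ⟨y, ?_⟩
  apply FaithfulSMul.algebraMap_injective (𝓞 K) K
  rw [map_mul, hy, ht, map_pow]
  field_simp

/-- powers of the sum of two ideals -/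
lemma t16_sup_pow {A : Type*} [CommRing A] [IsDedekindDomain A] {I J : Ideal A} (hI : I ≠ ⊥)
    (n : ℕ) : I ^ n ⊔ J ^ n = (I ⊔ J) ^ n := by
  have hR : I ⊔ J ≠ ⊥ := fun h => hI (eq_bot_iff.mpr (h ▸ le_sup_left))
  obtain ⟨I', hI'⟩ := Ideal.dvd_iff_le.mpr (le_sup_left : I ≤ I ⊔ J)
  obtain ⟨J', hJ'⟩ := Ideal.dvd_iff_le.mpr (le_sup_right : J ≤ I ⊔ J)
  obtain ⟨R, hRdef⟩ : ∃ R, R = I ⊔ J := ⟨_, rfl⟩
  rw [← hRdef] at hI' hJ' hR ⊢
  have h1 : I' ⊔ J' = ⊤ := by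
    have h2 : R * (I' ⊔ J') = R * ⊤ := by
      rw [Ideal.mul_sup, ← hI', ← hJ', Ideal.mul_top, hRdef]
    exact mul_left_cancel₀ hR h2
  have h3 : I' ^ n ⊔ J' ^ n = ⊤ := by
    rw [← Ideal.isCoprime_iff_sup_eq] at h1 ⊢
    exact h1.pow
  conv_lhs => rw [hI', hJ', mul_pow, mul_pow]
  rw [← Ideal.mul_sup, h3, Ideal.mul_top]

section Quad

variable {F K : Type} [Field F] [NumberField F] [IsCyclotomicExtension {3} ℚ F] [Field K]
  [NumberField K] [Algebra F K]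

/-! T16 -/
/-- from an ideal whose cube is principal to an integral point -/
theorem class_point (hfin : finrank F K = 2) (α : 𝓞 F) (β : 𝓞 K) (hα : Squarefree α)
    (hβ : β ^ 2 = algebraMap (𝓞 F) (𝓞 K) α) (hβF : (β : K) ∉ Set.range (algebraMap F K))
    (v : InfinitePlace F) (I : Ideal (𝓞 K)) (ξ : 𝓞 K) (hξ : ξ ≠ 0) (hI : I ^ 3 = Ideal.span {ξ})
    (B : ℝ) (hB : ∀ w : InfinitePlace K, w (ξ : K) ≤ B) :
    ∃ (Z X Y : 𝓞 F) (u : (𝓞 F)ˣ), Y ^ 2 = X ^ 3 + 16 * (u : 𝓞 F) ^ 2 * α * Z ^ 2 ∧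
      algebraMap (𝓞 F) (𝓞 K) Y + 4 * algebraMap (𝓞 F) (𝓞 K) (u * Z) * β =
        8 * algebraMap (𝓞 F) (𝓞 K) u * ξ ∧
      v (X : F) ^ 3 ≤ 64 * B ^ 2 ∧ v (Z : F) ^ 2 * v (α : F) ≤ 4 * B ^ 2 ∧
      v (X : F) ^ 2 = 16 * Ideal.absNorm I ∧
      (Z = 0 → I.IsPrincipal) ∧
      ∃ R J : Ideal (𝓞 K), I = R * J ∧ (∃ a b : 𝓞 K, a ≠ 0 ∧ b ≠ 0 ∧
          Ideal.span {a} * J ^ 4 = Ideal.span {b} * I ^ 4) ∧
        ∀ g : 𝓞 F, g ∣ X ^ 3 → g ∣ 16 * (u : 𝓞 F) ^ 2 * α * Z ^ 2 →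
          v (g : F) ^ 2 ≤ 64 ^ 2 * (Ideal.absNorm R : ℝ) ^ 3 := by
  have hpid : IsPrincipalIdealRing (𝓞 F) := IsCyclotomicExtension.Rat.three_pid F
  obtain ⟨σ, hσ, hall⟩ := t16_conj hfin
  have hσσ := t16_sq hσ hall
  have hss : ∀ x : 𝓞 K, σ • (σ • x) = x := fun x => by rw [smul_smul, hσσ, one_smul]
  have hssI : ∀ x : Ideal (𝓞 K), σ • (σ • x) = x := fun x => by rw [smul_smul, hσσ, one_smul]
  set ι := algebraMap (𝓞 F) (𝓞 K) with hι
  have hinj : Function.Injective ι := t16_alg_inj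
  -- the conjugate of `β`
  have hβ0 : β ≠ 0 := by
    rintro rfl
    exact hβF ⟨0, by simp⟩
  have hσβ : σ • β = -β := by
    have h1 : (σ • β) ^ 2 = β ^ 2 := by
      rw [← smul_pow', hβ, t16_smul_alg]
    have h2 : (σ • β - β) * (σ • β + β) = 0 := by linear_combination h1
    rcases mul_eq_zero.mp h2 with h3 | h3
    · exfalso
      obtain ⟨y, hy⟩ := t16_fixed hfin hall (sub_eq_zero.mp h3)
      apply hβF
      exact ⟨(y : F), congrArg (fun z : 𝓞 K => (z : K)) hy⟩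
    · exact eq_neg_of_add_eq_zero_left h3
  -- trace
  obtain ⟨Y₀, hY₀⟩ := t16_fixed hfin hall (x := ξ + σ • ξ) (by rw [smul_add, hss, add_comm])
  -- norm
  obtain ⟨n₀, hn₀⟩ : ∃ n₀ : 𝓞 F, n₀ = Algebra.intNorm (𝓞 F) (𝓞 K) ξ := ⟨_, rfl⟩
  have hn₀' : ι n₀ = ξ * σ • ξ := by
    rw [hn₀]
    exact t16_norm hfin hσ hall ξ
  -- the difference
  have hZ : ∃ Z : 𝓞 F, ξ - σ • ξ = ι Z * β := by
    obtain ⟨t, ht⟩ := t16_fixed hfin hall (x := (ξ - σ • ξ) * β) (by
      rw [smul_mul', smul_sub, hss, hσβ]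
      ring)
    obtain ⟨s, hs⟩ := t16_fixed hfin hall (x := (ξ - σ • ξ) ^ 2) (by
      rw [smul_pow', smul_sub, hss]
      ring)
    have h1 : t ^ 2 = s * α := by
      apply hinj
      rw [map_pow, map_mul, hι, ht, hs, mul_pow, hβ]
    have h2 : α ∣ t := (hα.dvd_pow_iff_dvd (n := 2) (by norm_num)).mp ⟨s, by rw [h1, mul_comm]⟩
    obtain ⟨Z, hZ⟩ := h2
    refine ⟨Z, ?_⟩
    apply mul_right_cancel₀ hβ0
    rw [← ht, hZ, map_mul, ← hβ]
    ring
  obtain ⟨Z, hZ⟩ := hZ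
  -- the norm of the ideal
  obtain ⟨x, hx⟩ := (IsPrincipalIdealRing.principal (Ideal.relNorm (𝓞 F) I)).principal
  have hx' : Ideal.relNorm (𝓞 F) I = Ideal.span {x} := hx
  have hxI : Ideal.span {ι x} = I * σ • I := by
    rw [← t16_relNorm hfin hσ hall, hx', Ideal.map_span, Set.image_singleton]
  have hI0 : I ≠ ⊥ := by
    rintro rfl
    rw [← Ideal.zero_eq_bot, zero_pow (by norm_num), Ideal.zero_eq_bot] at hI
    exact hξ (Ideal.span_singleton_eq_bot.mp hI.symm)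
  have hu : ∃ u : (𝓞 F)ˣ, x ^ 3 * u = n₀ := by
    have h1 : Ideal.span {x ^ 3} = Ideal.span {n₀} := by
      rw [← Ideal.span_singleton_pow, ← hx', ← map_pow, hI, Ideal.relNorm_singleton, hn₀]
    exact Ideal.span_singleton_eq_span_singleton.mp h1
  obtain ⟨u, hu⟩ := hu
  -- the places
  obtain ⟨w⟩ : Nonempty (InfinitePlace K) := inferInstance
  have hwv : ∀ z : 𝓞 F, w ((ι z : 𝓞 K) : K) = v (z : F) := by
    intro z
    have h1 : w.comap (algebraMap F K) = v := t16_place _ _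
    rw [← h1]
    rfl
  have hwσ : w ((σ • ξ : 𝓞 K) : K) ≤ B := hB (w.comap (σ : K →+* K))
  have hwξ := hB w
  have hw0 : ∀ z : K, 0 ≤ w z := fun z => apply_nonneg _ _
  have hB0 : 0 ≤ B := (hw0 _).trans hwξ
  have hv0 : ∀ z : F, 0 ≤ v z := fun z => apply_nonneg _ _
  have hvu : v ((u : 𝓞 F) : F) = 1 := t16_place_unit v u
  have hv2 : v (2 : F) = 2 := by
    rw [← InfinitePlace.norm_embedding_eq, map_ofNat]
    norm_num
  have hw2 : w (2 : K) = 2 := by
    rw [← InfinitePlace.norm_embedding_eq, map_ofNat]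
    norm_num
  -- products of conjugates
  have hwn : v (x : F) ^ 3 = w (ξ : K) * w ((σ • ξ : 𝓞 K) : K) := by
    have h1 : v ((x ^ 3 * u : 𝓞 F) : F) = v (n₀ : F) := by rw [hu]
    rw [← hwv n₀, hn₀'] at h1
    have h2 : ((x ^ 3 * u : 𝓞 F) : F) = (x : F) ^ 3 * ((u : 𝓞 F) : F) := rfl
    have h3 : ((ξ * σ • ξ : 𝓞 K) : K) = (ξ : K) * ((σ • ξ : 𝓞 K) : K) := rfl
    rw [h2, h3, map_mul, map_mul, map_pow, hvu, mul_one] at h1
    exact h1
  have hvx3 : v (x : F) ^ 3 ≤ B ^ 2 := by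
    rw [hwn, sq]
    exact mul_le_mul hwξ hwσ (hw0 _) hB0
  -- the identities
  have hsum : ξ + σ • ξ = ι Y₀ := hY₀.symm
  have hx0 : x ≠ 0 := by
    rintro rfl
    rw [map_zero, Ideal.span_singleton_eq_bot.mpr rfl] at hxI
    rcases mul_eq_zero.mp hxI.symm with h | h
    · exact hI0 h
    · apply hI0
      rw [← hssI I, h]
      exact smul_zero σ
  have hξσ : ξ * σ • ξ = ι (x ^ 3 * u) := by rw [hu, hn₀']
  have hYZ : Y₀ ^ 2 = 4 * (x ^ 3 * u) + α * Z ^ 2 := by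
    apply hinj
    rw [map_add, map_mul, map_mul, map_mul, map_pow, map_pow, map_pow, map_ofNat]
    have h1 : (ξ - σ • ξ) ^ 2 = (ι Z * β) ^ 2 := by rw [hZ]
    have h2 : ξ * σ • ξ = ι x ^ 3 * ι u := by rw [hξσ, map_mul, map_pow]
    linear_combination (-(ι Y₀ + (ξ + σ • ξ))) * hsum + 4 * h2 + h1 + (ι Z) ^ 2 * hβ
  -- the ideal `R`
  obtain ⟨R, hR⟩ : ∃ R : Ideal (𝓞 K), R = I ⊔ σ • I := ⟨_, rfl⟩
  have hIR : I ≤ R := hR ▸ le_sup_left
  obtain ⟨J, hJ⟩ := Ideal.dvd_iff_le.mpr hIR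
  have hR0 : R ≠ ⊥ := fun h => hI0 (eq_bot_iff.mpr (h ▸ hIR))
  have hσR : σ • R = R := by
    rw [hR]
    have h1 : σ • (I ⊔ σ • I) = σ • I ⊔ σ • (σ • I) := by
      exact Ideal.map_sup (MulSemiringAction.toRingHom Gal(K/F) (𝓞 K) σ) I (σ • I)
    rw [h1, hssI, sup_comm]
  obtain ⟨ρ, hρ⟩ := (IsPrincipalIdealRing.principal (Ideal.relNorm (𝓞 F) R)).principal
  have hρ' : Ideal.relNorm (𝓞 F) R = Ideal.span {ρ} := hρ
  have hR2 : R ^ 2 = Ideal.span {ι ρ} := by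
    have h1 := t16_relNorm hfin hσ hall R
    rw [hρ', Ideal.map_span, Set.image_singleton, hσR] at h1
    rw [sq, ← h1]
  have hρ0 : ι ρ ≠ 0 := by
    intro h
    rw [h, Ideal.span_singleton_eq_bot.mpr rfl] at hR2
    exact hR0 (pow_eq_zero_iff (by norm_num) |>.mp hR2)
  have h4F : ((4 : 𝓞 F) : F) = 2 * 2 := by
    rw [RingOfIntegers.coe_eq_algebraMap, map_ofNat]
    norm_num
  refine ⟨Z, 4 * u * x, 4 * u * Y₀, u, ?_, ?_, ?_, ?_, ?_, ?_, R, J, hJ, ?_, ?_⟩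
  · linear_combination 16 * (u : 𝓞 F) ^ 2 * hYZ
  · rw [map_mul, map_mul, map_mul, map_ofNat]
    rw [← hsum]
    linear_combination (4 * ι u) * (-hZ)
  · have h1 : ((4 * u * x : 𝓞 F) : F) = 2 * 2 * ((u : 𝓞 F) : F) * (x : F) := by
      rw [← h4F]
      rfl
    rw [h1, map_mul, map_mul, map_mul, hv2, hvu]
    nlinarith
  · have h1 : v (Z : F) ^ 2 * v (α : F) = w ((ξ - σ • ξ : 𝓞 K) : K) ^ 2 := by
      rw [hZ, ← hwv Z, ← hwv α, ← hβ]
      have h2 : ((ι Z * β : 𝓞 K) : K) = ((ι Z : 𝓞 K) : K) * (β : K) := rfl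
      have h3 : ((β ^ 2 : 𝓞 K) : K) = (β : K) ^ 2 := rfl
      rw [h2, h3, map_mul, map_pow]
      ring
    rw [h1]
    have h2 : w ((ξ - σ • ξ : 𝓞 K) : K) ≤ 2 * B := by
      have h3 : ((ξ - σ • ξ : 𝓞 K) : K) = (ξ : K) - ((σ • ξ : 𝓞 K) : K) := rfl
      rw [h3]
      have h4 : w ((ξ : K) - ((σ • ξ : 𝓞 K) : K)) ≤ w ((ξ : K) - 0) + w (0 - ((σ • ξ : 𝓞 K) : K)) :=
        w.1.sub_le (ξ : K) 0 ((σ • ξ : 𝓞 K) : K)
      have h5 : w (-((σ • ξ : 𝓞 K) : K)) = w ((σ • ξ : 𝓞 K) : K) := w.1.map_neg _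
      rw [sub_zero, zero_sub, h5] at h4
      linarith
    calc w ((ξ - σ • ξ : 𝓞 K) : K) ^ 2 ≤ (2 * B) ^ 2 := pow_le_pow_left₀ (hw0 _) h2 2
      _ = 4 * B ^ 2 := by ring
  · have h1 : ((4 * u * x : 𝓞 F) : F) = 2 * 2 * ((u : 𝓞 F) : F) * (x : F) := by
      rw [← h4F]
      rfl
    rw [h1, map_mul, map_mul, map_mul, hv2, hvu]
    have h2 := t16_place_norm v x
    rw [← hx', Ideal.absNorm_relNorm] at h2
    rw [← h2]
    ring
  · intro hZ0
    rw [hZ0, map_zero, zero_mul] at hZ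
    have h1 : σ • ξ = ξ := (sub_eq_zero.mp hZ).symm
    have h2 : σ • I = I := by
      have h3 : (σ • I) ^ 3 = I ^ 3 := by
        rw [← smul_pow', hI]
        rw [t16_smul_span, h1]
      exact t16_ideal_pow_inj (by norm_num) h3
    rw [h2, ← sq] at hxI
    have h3 : Ideal.span {ι x} * I = Ideal.span {ξ} := by
      rw [hxI, ← hI]
      ring
    have h4 : ι x ∣ ξ := by
      rw [← Ideal.span_singleton_le_span_singleton, ← h3]
      exact Ideal.mul_le_left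
    obtain ⟨c, hc⟩ := h4
    refine ⟨c, ?_⟩
    have hιx : Ideal.span {ι x} ≠ ⊥ := by
      rw [Ne, Ideal.span_singleton_eq_bot]
      intro h5
      exact hx0 (hinj (by rw [h5, map_zero]))
    rw [hc, ← Ideal.span_singleton_mul_span_singleton] at h3
    exact mul_left_cancel₀ hιx h3
  · refine ⟨(ι ρ) ^ 2, 1, pow_ne_zero 2 hρ0, one_ne_zero, ?_⟩
    rw [← Ideal.span_singleton_pow, ← hR2, Ideal.span_singleton_one, Ideal.top_mul]
    conv_rhs => rw [hJ]
    ring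
  · intro g hg1 hg2
    obtain ⟨c, hc⟩ := hg1
    obtain ⟨e, he⟩ := hg2
    have hg0 : g ≠ 0 := by
      rintro rfl
      rw [zero_mul] at hc
      have h1 : (4 * u * x : 𝓞 F) = 0 := by
        exact (pow_eq_zero_iff (by norm_num)).mp hc
      rcases mul_eq_zero.mp h1 with h2 | h2
      · rcases mul_eq_zero.mp h2 with h3 | h3
        · norm_num at h3
        · exact u.ne_zero h3
      · exact hx0 h2
    -- the quotients
    obtain ⟨ui, hui⟩ : ∃ ui : 𝓞 F, (u : 𝓞 F) * ui = 1 := ⟨((u⁻¹ : (𝓞 F)ˣ) : 𝓞 F), by simp⟩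
    have hpq : (8 * ξ) * (8 * σ • ξ) = ι g * ι (ui ^ 2 * c) := by
      have h1 : (64 : 𝓞 F) * (x ^ 3 * u) = g * (ui ^ 2 * c) := by
        have h2 : (64 : 𝓞 F) * x ^ 3 * (u : 𝓞 F) ^ 3 = g * c := by
          rw [← hc]
          ring
        have h3 : (u : 𝓞 F) ^ 2 * ui ^ 2 = 1 := by
          rw [← mul_pow, hui, one_pow]
        linear_combination ui ^ 2 * h2 - (64 * x ^ 3 * u) * h3
      rw [← map_mul, ← h1, map_mul, ← hξσ, map_ofNat]
      ring
    have hss2 : (8 * ξ) ^ 2 + (8 * σ • ξ) ^ 2 = ι g * ι (4 * ui ^ 2 * e + 2 * (ui ^ 2 * c)) := by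
      have h1 : (64 : 𝓞 F) * (α * Z ^ 2) = g * (4 * ui ^ 2 * e) := by
        have h3 : (u : 𝓞 F) ^ 2 * ui ^ 2 = 1 := by
          rw [← mul_pow, hui, one_pow]
        linear_combination 4 * ui ^ 2 * he - (64 * α * Z ^ 2) * h3
      have h2 : (8 * ξ - 8 * σ • ξ) ^ 2 = ι g * ι (4 * ui ^ 2 * e) := by
        rw [← map_mul, ← h1, map_mul, map_mul, map_pow, map_ofNat]
        have h4 : (ξ - σ • ξ) ^ 2 = (ι Z * β) ^ 2 := by rw [hZ]
        rw [hι, ← hβ]
        linear_combination 64 * h4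
      rw [map_add, mul_add, ← h2, map_mul, map_ofNat]
      linear_combination 2 * hpq
    have hιg : ι g ≠ 0 := fun h => hg0 (hinj (by rw [h, map_zero]))
    have hd1 : ι g ∣ (8 * ξ) ^ 2 := t16_dvd_sq hιg hpq hss2
    have hd2 : ι g ∣ (8 * σ • ξ) ^ 2 := by
      apply t16_dvd_sq hιg (q := 8 * ξ) (b := ι (ui ^ 2 * c))
        (a := ι (4 * ui ^ 2 * e + 2 * (ui ^ 2 * c)))
      · rw [← hpq]
        ring
      · rw [← hss2]
        ring
    -- ideals
    have hspan : Ideal.span {ι g} ∣ Ideal.span {(64 : 𝓞 K)} * R ^ 6 := by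
      rw [hR, ← t16_sup_pow hI0, Ideal.mul_sup, Ideal.dvd_iff_le, sup_le_iff]
      have h64 : Ideal.span {(64 : 𝓞 K)} = Ideal.span {(8 : 𝓞 K)} ^ 2 := by
        rw [Ideal.span_singleton_pow]
        norm_num
      constructor
      · have h1 : Ideal.span {(64 : 𝓞 K)} * I ^ 6 = Ideal.span {(8 * ξ) ^ 2} := by
          rw [← Ideal.span_singleton_pow, ← Ideal.span_singleton_mul_span_singleton, mul_pow,
            ← hI, h64, ← pow_mul]
        rw [h1]
        exact Ideal.span_singleton_le_span_singleton.mpr hd1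
      · have h1 : Ideal.span {(64 : 𝓞 K)} * (σ • I) ^ 6 = Ideal.span {(8 * σ • ξ) ^ 2} := by
          have h4 : (σ • I) ^ 3 = Ideal.span {σ • ξ} := by
            rw [← smul_pow', hI, t16_smul_span]
          rw [← Ideal.span_singleton_pow, ← Ideal.span_singleton_mul_span_singleton, mul_pow,
            ← h4, h64, ← pow_mul]
        rw [h1]
        exact Ideal.span_singleton_le_span_singleton.mpr hd2
    -- norms
    have hnK : (Ideal.absNorm (Ideal.span {ι g}) : ℝ) = v (g : F) ^ 4 := by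
      have hfin' : finrank (𝓞 F) (𝓞 K) = 2 := by
        rw [← hfin]
        exact (IsFractionRing.finrank_eq (𝓞 F) F (𝓞 K) K).symm
      have h1 : Ideal.span {ι g} = (Ideal.span {g}).map ι := by
        rw [Ideal.map_span, Set.image_singleton]
      rw [h1, hι, Ideal.absNorm_algebraMap, hfin']
      push_cast
      rw [← t16_place_norm v g]
      ring
    have hn64 : Ideal.absNorm (Ideal.span {(64 : 𝓞 K)}) = 64 ^ 4 := by
      have h1 : finrank ℚ K = 4 := by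
        have h2 : finrank ℚ F = 2 := by
          rw [IsCyclotomicExtension.finrank (n := 3) F
            (Polynomial.cyclotomic.irreducible_rat (by norm_num))]
          rfl
        rw [← finrank_mul_finrank ℚ F K, hfin, h2]
      rw [Ideal.absNorm_span_singleton]
      have h3 : (64 : 𝓞 K) = algebraMap ℤ (𝓞 K) 64 := by simp
      rw [h3, Algebra.norm_algebraMap, RingOfIntegers.rank, h1]
      norm_num
    have hle := Nat.le_of_dvd (by
      rw [map_mul, map_pow, hn64]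
      have := absNorm_pos_of_ne_bot hR0
      positivity) (map_dvd Ideal.absNorm hspan)
    rw [map_mul, map_pow, hn64] at hle
    have hleR : v (g : F) ^ 4 ≤ (64 : ℝ) ^ 4 * (Ideal.absNorm R : ℝ) ^ 6 := by
      rw [← hnK]
      exact_mod_cast hle
    have h1 : (v (g : F) ^ 2) ^ 2 ≤ ((64 : ℝ) ^ 2 * (Ideal.absNorm R : ℝ) ^ 3) ^ 2 := by
      calc (v (g : F) ^ 2) ^ 2 = v (g : F) ^ 4 := by ring
        _ ≤ _ := hleR
        _ = _ := by ring
    exact (pow_le_pow_iff_left₀ (by positivity) (by positivity) (by norm_num)).mp h1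

end Quad

end Pool.Agent.Lib.MP_695920_nt.Qt
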