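import Mathlib
import Pool.Agent.Lib.MP_695920_nt.Qt.Defs

set_option autoImplicit false

open NumberField Module


namespace Pool.Agent.Lib.MP_695920_nt.Qt

section grp

variable {F : Type} [Field F] [CharZero F] [DecidableEq F] {k : F}

lemma t9_negY (x y : F) : (Ek k).negY x y = -y := by
  show -y - 0 * x - 0 = -y
  ring

lemma t9_neg (hk : k ≠ 0) {x y : F} (h : y ^ 2 = x ^ 3 + k) :
    -(pt hk h) = pt hk (x := x) (y := -y) (by rw [neg_sq]; exact h) := by
  unfold pt
  rw [WeierstrassCurve.Affine.Point.neg_some]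
  simp only [t9_negY]

lemma t9_pt_congr (hk : k ≠ 0) {x y x' y' : F} (h : y ^ 2 = x ^ 3 + k) (hx : x = x')
    (hy : y = y') : pt hk h = pt hk (x := x') (y := y') (by rw [← hx, ← hy]; exact h) := by
  subst hx hy; rfl

lemma t9_cases (hk : k ≠ 0) (P : (Ek k).Point) : P = 0 ∨ ∃ (x y : F) (h : y ^ 2 = x ^ 3 + k),
    P = pt hk h := by
  rcases P with _ | ⟨x, y, h⟩
  · left; rfl
  · right
    exact ⟨x, y, (Ek_equation_iff k x y).mp h.1, rfl⟩

lemma t9_pt_ne (hk : k ≠ 0) {x y : F} (h : y ^ 2 = x ^ 3 + k) : pt hk h ≠ 0 :=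
  WeierstrassCurve.Affine.Point.some_ne_zero _

lemma t9_pt_inj (hk : k ≠ 0) {x y x' y' : F} {h : y ^ 2 = x ^ 3 + k} {h' : y' ^ 2 = x' ^ 3 + k}
    (e : pt hk h = pt hk h') : x = x' ∧ y = y' := by
  unfold pt at e
  simpa using e

/-- sum of opposite points -/
lemma t9_add_opp (hk : k ≠ 0) {x y x' y' : F} (h : y ^ 2 = x ^ 3 + k)
    (h' : y' ^ 2 = x' ^ 3 + k) (hx : x = x') (hy : y = -y') : pt hk h + pt hk h' = 0 := by
  unfold pt
  exact WeierstrassCurve.Affine.Point.add_of_Y_eq hx (by rw [t9_negY]; exact hy)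

/-- sum of two points through which the line of slope `l` passes -/
lemma t9_add (hk : k ≠ 0) {x y x' y' : F} (h : y ^ 2 = x ^ 3 + k)
    (h' : y' ^ 2 = x' ^ 3 + k) (hne : ¬ (x = x' ∧ y = -y')) {l : F}
    (hl : l * (x - x') = y - y') (hl' : x = x' → l * (2 * y) = 3 * x ^ 2) :
    ∃ h3 : (-(l * ((l ^ 2 - x - x') - x) + y)) ^ 2 = (l ^ 2 - x - x') ^ 3 + k,
      pt hk h + pt hk h' = pt hk h3 := by
  have hsl : (Ek k).slope x x' y y' = l := by
    by_cases hx : x = x'
    · have hyne : y ≠ -y' := fun e => hne ⟨hx, e⟩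
      have hyy : y = y' := by
        have : (y - y') * (y + y') = 0 := by
          have : y ^ 2 = y' ^ 2 := by rw [h, h', hx]
          linear_combination this
        rcases mul_eq_zero.mp this with e | e
        · exact sub_eq_zero.mp e
        · exact absurd (eq_neg_of_add_eq_zero_left e) hyne
      have hy0 : (2 : F) * y ≠ 0 := by
        intro e
        have : y = 0 := by simpa using e
        apply hyne
        rw [← hyy, this, neg_zero]
      rw [WeierstrassCurve.Affine.slope_of_Y_ne hx (by rw [t9_negY]; exact hyne), t9_negY]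
      simp only [Ek]
      have e2 : y - -y = 2 * y := by ring
      rw [e2, div_eq_iff hy0, hl' hx]
      ring
    · rw [WeierstrassCurve.Affine.slope_of_X_ne hx, div_eq_iff (sub_ne_zero.mpr hx), hl]
  have hxy : ¬ (x = x' ∧ y = (Ek k).negY x' y') := by rw [t9_negY]; exact hne
  have hX : (Ek k).addX x x' l = l ^ 2 - x - x' := by
    simp [WeierstrassCurve.Affine.addX, Ek]
  have hY : (Ek k).addY x x' y l = -(l * ((l ^ 2 - x - x') - x) + y) := by
    rw [WeierstrassCurve.Affine.addY, t9_negY, WeierstrassCurve.Affine.negAddY, hX]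
  have key := WeierstrassCurve.Affine.Point.add_some hxy (h₁ := Ek_nonsingular hk h)
    (h₂ := Ek_nonsingular hk h')
  have hns := WeierstrassCurve.Affine.nonsingular_add (Ek_nonsingular hk h)
    (Ek_nonsingular hk h') hxy
  have heq := (Ek_equation_iff k _ _).mp hns.1
  rw [hsl, hX, hY] at heq
  refine ⟨heq, ?_⟩
  unfold pt
  rw [key]
  simp only [hsl, hX, hY]

/-- the general case distinction for a sum of two affine points -/
lemma t9_add_cases {x y x' y' : F} (h : y ^ 2 = x ^ 3 + k)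
    (h' : y' ^ 2 = x' ^ 3 + k) (hne : ¬ (x = x' ∧ y = -y')) :
    ∃ l : F, l * (x - x') = y - y' ∧ (x = x' → l * (2 * y) = 3 * x ^ 2) ∧
      (x * x' + x * (l ^ 2 - x - x') + x' * (l ^ 2 - x - x') = -2 * l * (y - l * x)) ∧
      (x * x' * (l ^ 2 - x - x') = (y - l * x) ^ 2 - k) := by
  by_cases hx : x = x'
  · have hyne : y ≠ -y' := fun e => hne ⟨hx, e⟩
    have hyy : y = y' := by
      have : (y - y') * (y + y') = 0 := by
        have : y ^ 2 = y' ^ 2 := by rw [h, h', hx]
        linear_combination this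
      rcases mul_eq_zero.mp this with e | e
      · exact sub_eq_zero.mp e
      · exact absurd (eq_neg_of_add_eq_zero_left e) hyne
    have hy0 : (2 : F) * y ≠ 0 := by
      intro e
      have : y = 0 := by simpa using e
      apply hyne
      rw [← hyy, this, neg_zero]
    have hl : 3 * x ^ 2 / (2 * y) * (2 * y) = 3 * x ^ 2 := div_mul_cancel₀ _ hy0
    refine ⟨3 * x ^ 2 / (2 * y), by rw [hx, hyy]; ring, fun _ => hl, ?_, ?_⟩
    · generalize 3 * x ^ 2 / (2 * y) = l at *
      subst hx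
      linear_combination hl
    · generalize 3 * x ^ 2 / (2 * y) = l at *
      subst hx
      linear_combination x * hl - h
  · have hx' : x - x' ≠ 0 := sub_ne_zero.mpr hx
    have hl : (y - y') / (x - x') * (x - x') = y - y' := div_mul_cancel₀ _ hx'
    refine ⟨(y - y') / (x - x'), hl, fun e => absurd e hx, ?_, ?_⟩
    · generalize (y - y') / (x - x') = l at *
      apply mul_left_cancel₀ hx'
      have e1 : y' = y - l * (x - x') := by linear_combination hl
      rw [e1] at h'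
      linear_combination h - h'
    · generalize (y - y') / (x - x') = l at *
      apply mul_left_cancel₀ hx'
      have e1 : y' = y - l * (x - x') := by linear_combination hl
      rw [e1] at h'
      linear_combination (-x) * h' + x' * h

/-- multiplication of the first coordinate by a cube root of unity -/
noncomputable def t9_rhoF (hk : k ≠ 0) (c : F) (hc : c ^ 3 = 1) :
    (Ek k).Point → (Ek k).Point
  | .zero => .zero
  | .some x y h => pt hk (x := c * x) (y := y) (by
      rw [mul_pow, hc, one_mul]; exact (Ek_equation_iff k x y).mp h.1)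

lemma t9_rhoF_zero (hk : k ≠ 0) (c : F) (hc : c ^ 3 = 1) : t9_rhoF hk c hc 0 = 0 := rfl

lemma t9_rhoF_pt (hk : k ≠ 0) (c : F) (hc : c ^ 3 = 1) {x y : F} (h : y ^ 2 = x ^ 3 + k) :
    t9_rhoF hk c hc (pt hk h) = pt hk (x := c * x) (y := y)
      (by rw [mul_pow, hc, one_mul]; exact h) := rfl

lemma t9_rhoF_add (hk : k ≠ 0) (c : F) (hc : c ^ 3 = 1) (P Q : (Ek k).Point) :
    t9_rhoF hk c hc (P + Q) = t9_rhoF hk c hc P + t9_rhoF hk c hc Q := by
  have hc0 : c ≠ 0 := by
    rintro rfl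
    norm_num at hc
  rcases t9_cases hk P with rfl | ⟨x, y, h, rfl⟩
  · rw [t9_rhoF_zero, zero_add, zero_add]
  rcases t9_cases hk Q with rfl | ⟨x', y', h', rfl⟩
  · rw [t9_rhoF_zero, add_zero, add_zero]
  by_cases hne : x = x' ∧ y = -y'
  · rw [t9_add_opp hk h h' hne.1 hne.2, t9_rhoF_zero, t9_rhoF_pt, t9_rhoF_pt,
      t9_add_opp hk _ _ (by rw [hne.1]) hne.2]
  · obtain ⟨l, hl, hl', -, -⟩ := t9_add_cases h h' hne
    obtain ⟨h3, e3⟩ := t9_add hk h h' hne hl hl'
    have hne' : ¬ (c * x = c * x' ∧ y = -y') := by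
      rintro ⟨e1, e2⟩
      exact hne ⟨mul_left_cancel₀ hc0 e1, e2⟩
    have hcx : ∀ {a b : F}, b ^ 2 = a ^ 3 + k → b ^ 2 = (c * a) ^ 3 + k := by
      intro a b hab
      rw [mul_pow, hc, one_mul]; exact hab
    obtain ⟨h4, e4⟩ := t9_add hk (hcx h) (hcx h') hne' (l := c ^ 2 * l)
      (by linear_combination l * (x - x') * hc + hl)
      (by
        intro e
        have := hl' (mul_left_cancel₀ hc0 e)
        linear_combination c ^ 2 * this)
    rw [e3, t9_rhoF_pt, t9_rhoF_pt, t9_rhoF_pt, e4]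
    refine t9_pt_congr hk _ ?_ ?_
    · linear_combination (-c * l ^ 2) * hc
    · linear_combination (l * ((l ^ 2 - x - x') - x) + c ^ 3 * l ^ 3 ) * hc

/-- the automorphism `(x, y) ↦ (ω x, y)` -/
noncomputable def t9_rho (hk : k ≠ 0) (c : F) (hc : c ^ 3 = 1) : (Ek k).Point →+ (Ek k).Point :=
  AddMonoidHom.mk' (t9_rhoF hk c hc) (t9_rhoF_add hk c hc)

lemma t9_rho_pt (hk : k ≠ 0) (c : F) (hc : c ^ 3 = 1) {x y : F} (h : y ^ 2 = x ^ 3 + k) :
    t9_rho hk c hc (pt hk h) = pt hk (x := c * x) (y := y)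
      (by rw [mul_pow, hc, one_mul]; exact h) := rfl

lemma t9_om3 {ω : F} (hω : ω ^ 2 + ω + 1 = 0) : ω ^ 3 = 1 := by
  linear_combination (ω - 1) * hω

lemma t9_om_ne {ω : F} (hω : ω ^ 2 + ω + 1 = 0) : ω ≠ 1 := by
  rintro rfl
  norm_num at hω

lemma t9_sum (hk : k ≠ 0) {ω : F} (hω : ω ^ 2 + ω + 1 = 0) (P : (Ek k).Point) :
    P + t9_rho hk ω (t9_om3 hω) P + t9_rho hk ω (t9_om3 hω) (t9_rho hk ω (t9_om3 hω) P) = 0 := by
  rcases t9_cases hk P with rfl | ⟨x, y, h, rfl⟩
  · simp
  · rw [t9_rho_pt, t9_rho_pt]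
    have hx0 : x = ω * x → x = 0 := by
      intro e
      have : (1 - ω) * x = 0 := by linear_combination e
      rcases mul_eq_zero.mp this with e' | e'
      · exact absurd (sub_eq_zero.mp e').symm (t9_om_ne hω)
      · exact e'
    have hne : ¬ (x = ω * x ∧ y = -y) := by
      rintro ⟨e1, e2⟩
      have hx := hx0 e1
      have hy : y = 0 := by
        have : (2 : F) * y = 0 := by linear_combination e2
        simpa using this
      rw [hx, hy] at h
      apply hk
      linear_combination -h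
    obtain ⟨h3, e3⟩ := t9_add hk h (y' := y) (x' := ω * x)
      (by rw [mul_pow, t9_om3 hω, one_mul]; exact h) hne (l := 0) (by ring)
      (by intro e; rw [hx0 e]; ring)
    rw [e3]
    refine t9_add_opp hk _ _ ?_ ?_
    · linear_combination (-x) * hω
    · ring

/-- the endomorphism `√-3` -/
noncomputable def t9_phi (hk : k ≠ 0) {ω : F} (hω : ω ^ 2 + ω + 1 = 0) :
    (Ek k).Point →+ (Ek k).Point :=
  t9_rho hk ω (t9_om3 hω) - (t9_rho hk ω (t9_om3 hω)).comp (t9_rho hk ω (t9_om3 hω))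

lemma t9_phi_apply (hk : k ≠ 0) {ω : F} (hω : ω ^ 2 + ω + 1 = 0) (P : (Ek k).Point) :
    t9_phi hk hω P = t9_rho hk ω (t9_om3 hω) P -
      t9_rho hk ω (t9_om3 hω) (t9_rho hk ω (t9_om3 hω) P) := rfl

lemma t9_phi_phi (hk : k ≠ 0) {ω : F} (hω : ω ^ 2 + ω + 1 = 0) (P : (Ek k).Point) :
    t9_phi hk hω (t9_phi hk hω P) = -(3 • P) := by
  have h3 : t9_rho hk ω (t9_om3 hω) (t9_rho hk ω (t9_om3 hω) (t9_rho hk ω (t9_om3 hω) P)) = P := by
    rcases t9_cases hk P with rfl | ⟨x, y, h, rfl⟩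
    · simp
    · rw [t9_rho_pt, t9_rho_pt, t9_rho_pt]
      exact t9_pt_congr hk _ (by linear_combination x * t9_om3 hω) rfl
  have hs := t9_sum hk hω P
  rw [t9_phi_apply, t9_phi_apply, map_sub, map_sub, h3]
  have e : t9_rho hk ω (t9_om3 hω) (t9_rho hk ω (t9_om3 hω) P) =
      -P - t9_rho hk ω (t9_om3 hω) P := by
    rw [← sub_eq_zero]
    rw [← hs]
    abel
  rw [e]
  abel

lemma t9_rho_phi (hk : k ≠ 0) {ω : F} (hω : ω ^ 2 + ω + 1 = 0) (P : (Ek k).Point) :
    t9_rho hk ω (t9_om3 hω) (t9_phi hk hω P) = t9_phi hk hω (t9_rho hk ω (t9_om3 hω) P) := by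
  rw [t9_phi_apply, t9_phi_apply, map_sub]

lemma t9_phi_pt (hk : k ≠ 0) {ω : F} (hω : ω ^ 2 + ω + 1 = 0) {u v : F} (hu : u ≠ 0)
    (h : v ^ 2 = u ^ 3 + k) : ∃ (y : F) (h' : y ^ 2 = (-(u ^ 3 + 4 * k) / (3 * u ^ 2)) ^ 3 + k),
      t9_phi hk hω (pt hk h) = pt hk h' := by
  have hw : ω - ω ^ 2 ≠ 0 := by
    intro e
    have h1 : ω * (1 - ω) = 0 := by linear_combination e
    rcases mul_eq_zero.mp h1 with e' | e'
    · rw [e'] at hω; norm_num at hω
    · exact t9_om_ne hω (sub_eq_zero.mp e').symm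
  have hd : (ω - ω ^ 2) * u ≠ 0 := mul_ne_zero hw hu
  have hww : (ω - ω ^ 2) ^ 2 = -3 := by linear_combination (ω ^ 2 - 3 * ω + 3) * hω
  rw [t9_phi_apply, t9_rho_pt, t9_rho_pt, sub_eq_add_neg, t9_neg]
  obtain ⟨h3, e3⟩ := t9_add hk (x := ω * u) (y := v) (x' := ω * (ω * u)) (y' := -v)
    (by rw [mul_pow, t9_om3 hω, one_mul]; exact h)
    (by rw [neg_sq, mul_pow, mul_pow, t9_om3 hω, one_mul, one_mul]; exact h)
    (by
      rintro ⟨e1, -⟩
      apply hd
      linear_combination e1)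
    (l := 2 * v / ((ω - ω ^ 2) * u))
    (by
      have := div_mul_cancel₀ (2 * v) hd
      linear_combination this)
    (by
      intro e
      exact absurd (by linear_combination e) hd)
  rw [e3]
  have hX : (2 * v / ((ω - ω ^ 2) * u)) ^ 2 - ω * u - ω * (ω * u) =
      -(u ^ 3 + 4 * k) / (3 * u ^ 2) := by
    rw [div_pow, mul_pow _ u, hww]
    field_simp
    linear_combination (-4) * h - 3 * u ^ 3 * hω
  refine ⟨_, ?_, t9_pt_congr hk _ hX rfl⟩
  rw [← hX]
  exact h3

end grp

section desc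

variable {F K : Type} [Field F] [CharZero F] [DecidableEq F] [Field K] [Algebra F K] {k : F}

lemma t9_ne {s : K} (hsF : s ∉ Set.range (algebraMap F K)) (y : F) : algebraMap F K y - s ≠ 0 :=
  fun e => hsF ⟨y, sub_eq_zero.mp e⟩

lemma t9_sq_ne {s : K} (hs : s ^ 2 = algebraMap F K k) (hsF : s ∉ Set.range (algebraMap F K))
    (y : F) : y ^ 2 ≠ k := by
  intro e
  have h1 : (algebraMap F K y - s) * (algebraMap F K (-y) - s) = 0 := by
    rw [map_neg]
    have : (algebraMap F K y) ^ 2 = algebraMap F K k := by rw [← map_pow, e]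
    linear_combination hs - this
  rcases mul_eq_zero.mp h1 with e' | e'
  · exact t9_ne hsF _ e'
  · exact t9_ne hsF _ e'

lemma t9_x_ne {s : K} (hs : s ^ 2 = algebraMap F K k) (hsF : s ∉ Set.range (algebraMap F K))
    {x y : F} (h : y ^ 2 = x ^ 3 + k) : x ≠ 0 := by
  rintro rfl
  exact t9_sq_ne hs hsF y (by linear_combination h)

/-- the descent map -/
noncomputable def t9_dF {s : K} (hsF : s ∉ Set.range (algebraMap F K)) : (Ek k).Point → Kˣ
  | .zero => 1
  | .some _ y _ => Units.mk0 (algebraMap F K y - s) (t9_ne hsF y)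

lemma t9_dF_zero {s : K} (hsF : s ∉ Set.range (algebraMap F K)) :
    t9_dF (k := k) hsF 0 = 1 := rfl

lemma t9_dF_pt (hk : k ≠ 0) {s : K} (hsF : s ∉ Set.range (algebraMap F K)) {x y : F}
    (h : y ^ 2 = x ^ 3 + k) :
    t9_dF hsF (pt hk h) = Units.mk0 (algebraMap F K y - s) (t9_ne hsF y) := rfl

lemma t9_quot_eq {a b : Kˣ} {c : K} (h : (a : K) = b * c ^ 3) :
    (QuotientGroup.mk' (Cub K)) a = (QuotientGroup.mk' (Cub K)) b := by
  have hc : c ≠ 0 := by
    rintro rfl
    apply a.ne_zero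
    rw [h]; ring
  rw [QuotientGroup.mk'_apply, QuotientGroup.mk'_apply, eq_comm, QuotientGroup.eq]
  refine ⟨Units.mk0 c hc, ?_⟩
  apply Units.ext
  have hb := b.ne_zero
  simp only [powMonoidHom_apply, Units.val_pow_eq_pow_val, Units.val_mk0, Units.val_mul,
    Units.val_inv_eq_inv_val]
  rw [h]
  field_simp

lemma t9_d_add (hk : k ≠ 0) {s : K} (hs : s ^ 2 = algebraMap F K k)
    (hsF : s ∉ Set.range (algebraMap F K)) (P Q : (Ek k).Point) :
    (QuotientGroup.mk' (Cub K)) (t9_dF hsF (P + Q)) =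
      (QuotientGroup.mk' (Cub K)) (t9_dF hsF P) * (QuotientGroup.mk' (Cub K)) (t9_dF hsF Q) := by
  rw [← map_mul]
  rcases t9_cases hk P with rfl | ⟨x, y, h, rfl⟩
  · rw [t9_dF_zero, zero_add, one_mul]
  rcases t9_cases hk Q with rfl | ⟨x', y', h', rfl⟩
  · rw [t9_dF_zero, add_zero, mul_one]
  by_cases hne : x = x' ∧ y = -y'
  · rw [t9_add_opp hk h h' hne.1 hne.2, t9_dF_zero, t9_dF_pt, t9_dF_pt]
    symm
    apply t9_quot_eq (c := algebraMap F K (-x))
    simp only [Units.val_mul, Units.val_mk0, Units.val_one, one_mul]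
    rw [hne.2, ← map_pow, map_neg]
    have e : algebraMap F K ((-x) ^ 3) = algebraMap F K k - (algebraMap F K y') ^ 2 := by
      rw [← map_pow, ← map_sub]
      congr 1
      rw [hne.1]
      linear_combination h'
    rw [e, ← hs]
    ring
  · obtain ⟨l, hl, hl', h2, h3⟩ := t9_add_cases h h' hne
    obtain ⟨h4, e4⟩ := t9_add hk h h' hne hl hl'
    rw [e4, t9_dF_pt, t9_dF_pt, t9_dF_pt]
    symm
    set x3 : F := l ^ 2 - x - x' with hx3
    set y3 : F := -(l * (x3 - x) + y) with hy3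
    have hx3' : x3 ≠ 0 := t9_x_ne hs hsF h4
    have hx3K : algebraMap F K x3 ≠ 0 := by
      rw [Ne, map_eq_zero_iff _ (algebraMap F K).injective]; exact hx3'
    apply t9_quot_eq (c := (algebraMap F K (y - l * x) - s) / algebraMap F K (-x3))
    simp only [Units.val_mul, Units.val_mk0]
    have hy' : y' = y - l * (x - x') := by linear_combination hl
    have hA : (algebraMap F K y3 - s) * (algebraMap F K (-y3) - s) =
        (algebraMap F K (-x3)) ^ 3 := by
      have e : (algebraMap F K (-x3)) ^ 3 = algebraMap F K k - (algebraMap F K y3) ^ 2 := by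
        rw [← map_pow, ← map_pow, ← map_sub]
        congr 1
        linear_combination h4
      rw [e, map_neg (algebraMap F K) y3, ← hs]
      ring
    have hB : (algebraMap F K y - s) * (algebraMap F K y' - s) * (algebraMap F K (-y3) - s) =
        (algebraMap F K (y - l * x) - s) ^ 3 := by
      have g1 := congrArg (algebraMap F K) h2
      have g2 := congrArg (algebraMap F K) h3
      have g3 : x3 + x + x' = l ^ 2 := by rw [hx3]; ring
      have g3' := congrArg (algebraMap F K) g3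
      rw [hy', hy3]
      simp only [map_mul, map_add, map_sub, map_neg, map_pow, map_ofNat] at g1 g2 g3' ⊢
      generalize algebraMap F K x = X at *
      generalize algebraMap F K x' = X' at *
      generalize algebraMap F K x3 = X3 at *
      generalize algebraMap F K y = Y at *
      generalize algebraMap F K l = L at *
      generalize algebraMap F K k = κ at *
      linear_combination L ^ 3 * g2 + L ^ 2 * (Y - L * X - s) * g1 +
        L * (Y - L * X - s) ^ 2 * g3' + L ^ 3 * hs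
    have hne2 : (algebraMap F K (-y3) - s) ≠ 0 := t9_ne hsF _
    apply mul_right_cancel₀ hne2
    rw [hB, div_pow, mul_right_comm, hA]
    rw [mul_div_cancel₀]
    rw [map_neg]
    exact pow_ne_zero _ (neg_ne_zero.mpr hx3K)


lemma t9_span (hfin : finrank F K = 2) {s : K} (hsF : s ∉ Set.range (algebraMap F K)) :
    (∀ z : K, ∃ a b : F, z = algebraMap F K a + algebraMap F K b * s) ∧
    ∀ a b : F, algebraMap F K a + algebraMap F K b * s = 0 → a = 0 ∧ b = 0 := by
  have hli : ∀ a b : F, algebraMap F K a + algebraMap F K b * s = 0 → a = 0 ∧ b = 0 := by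
    intro a b e
    by_cases hb : b = 0
    · subst hb
      refine ⟨?_, rfl⟩
      have : algebraMap F K a = 0 := by simpa using e
      exact (map_eq_zero_iff _ (algebraMap F K).injective).mp this
    · exfalso
      apply hsF
      refine ⟨-a / b, ?_⟩
      have hbK : algebraMap F K b ≠ 0 := by
        rw [Ne, map_eq_zero_iff _ (algebraMap F K).injective]; exact hb
      rw [map_div₀, map_neg, div_eq_iff hbK]
      linear_combination -e
  refine ⟨?_, hli⟩
  have hL : LinearIndependent F ![(1 : K), s] := by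
    rw [LinearIndependent.pair_iff]
    intro a b e
    apply hli
    rw [Algebra.smul_def, Algebra.smul_def, mul_one] at e
    exact e
  have hspan := hL.span_eq_top_of_card_eq_finrank (by rw [hfin]; simp)
  intro z
  have hz : z ∈ Submodule.span F (Set.range ![(1 : K), s]) := by rw [hspan]; trivial
  have hr : Set.range ![(1 : K), s] = {1, s} := by
    rw [Matrix.range_cons, Matrix.range_cons, Matrix.range_empty, Set.union_empty, Set.insert_eq]
  rw [hr, Submodule.mem_span_pair] at hz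
  obtain ⟨a, b, hab⟩ := hz
  refine ⟨a, b, ?_⟩
  rw [← hab, Algebra.smul_def, Algebra.smul_def, mul_one]

lemma t9_ker_le (hfin : finrank F K = 2) {ω : F} (hω : ω ^ 2 + ω + 1 = 0) (hk : k ≠ 0) {s : K}
    (hs : s ^ 2 = algebraMap F K k) (hsF : s ∉ Set.range (algebraMap F K))
    (P : (Ek k).Point)
    (hP : (QuotientGroup.mk' (Cub K)) (t9_dF hsF P) = 1) : P ∈ (t9_phi hk hω).range := by
  rcases t9_cases hk P with rfl | ⟨x, y, h, rfl⟩
  · exact zero_mem _
  have h1 := hP
  rw [t9_dF_pt] at h1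
  have h2 : Units.mk0 (algebraMap F K y - s) (t9_ne hsF y) ∈ Cub K := by
    rw [← QuotientGroup.ker_mk' (Cub K)]
    exact h1
  obtain ⟨z, hz⟩ := h2
  have hz' : (z : K) ^ 3 = algebraMap F K y - s := by
    have := congrArg (fun u : Kˣ => (u : K)) hz
    simpa using this
  obtain ⟨hsp, hli⟩ := t9_span hfin hsF
  obtain ⟨a, b, hab⟩ := hsp z
  rw [hab] at hz'
  have hexp : algebraMap F K (a ^ 3 + 3 * a * b ^ 2 * k - y) +
      algebraMap F K (3 * a ^ 2 * b + b ^ 3 * k + 1) * s = 0 := by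
    simp only [map_mul, map_add, map_sub, map_pow, map_ofNat, map_one]
    linear_combination hz' - (3 * algebraMap F K a * algebraMap F K b ^ 2 +
      algebraMap F K b ^ 3 * s) * hs
  obtain ⟨e1, e2⟩ := hli _ _ hexp
  have hb : b ≠ 0 := by
    rintro rfl
    norm_num at e2
  -- the first coordinate
  have hx3 : x ^ 3 = (a ^ 2 - k * b ^ 2) ^ 3 := by
    have e0 : x ^ 3 = y ^ 2 - k := by linear_combination -h
    have e1' : y = a ^ 3 + 3 * a * b ^ 2 * k := by linear_combination -e1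
    have e2' : (3 * a ^ 2 * b + b ^ 3 * k) ^ 2 = 1 := by
      have : 3 * a ^ 2 * b + b ^ 3 * k = -1 := by linear_combination e2
      rw [this]; ring
    rw [e0, e1']
    linear_combination k * e2'
  have hcase : ∃ c : F, c ^ 3 = 1 ∧ (c = 1 ∨ c = ω ∨ c = ω ^ 2) ∧
      x = c * (a ^ 2 - k * b ^ 2) := by
    have hprod : (x - (a ^ 2 - k * b ^ 2)) * ((x - ω * (a ^ 2 - k * b ^ 2)) *
        (x - ω ^ 2 * (a ^ 2 - k * b ^ 2))) = 0 := by
      generalize a ^ 2 - k * b ^ 2 = m at *
      linear_combination hx3 + (-x ^ 2 * m + x * m ^ 2 * ω - m ^ 3 * (ω - 1)) * hω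
    rcases mul_eq_zero.mp hprod with e | e
    · exact ⟨1, by ring, Or.inl rfl, by linear_combination e⟩
    rcases mul_eq_zero.mp e with e | e
    · exact ⟨ω, t9_om3 hω, Or.inr (Or.inl rfl), by linear_combination e⟩
    · exact ⟨ω ^ 2, by linear_combination (ω ^ 3 + 1) * t9_om3 hω, Or.inr (Or.inr rfl),
        by linear_combination e⟩
  obtain ⟨c, hc3, hc, hxc⟩ := hcase
  have h' : y ^ 2 = (a ^ 2 - k * b ^ 2) ^ 3 + k := by rw [← hx3]; exact h
  -- the point with first coordinate `a ^ 2 - k b ^ 2`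
  have hP' : pt hk h' ∈ (t9_phi hk hω).range := by
    have hQ : ((ω - ω ^ 2) * a / b) ^ 2 = (1 / b) ^ 3 + k := by
      have hww : (ω - ω ^ 2) ^ 2 = -3 := by linear_combination (ω ^ 2 - 3 * ω + 3) * hω
      rw [div_pow, mul_pow, hww, one_div, inv_pow]
      field_simp
      linear_combination -e2
    obtain ⟨y', hy', hphi⟩ := t9_phi_pt hk hω (one_div_ne_zero hb) hQ
    have hX : -((1 / b) ^ 3 + 4 * k) / (3 * (1 / b) ^ 2) = a ^ 2 - k * b ^ 2 := by
      field_simp
      linear_combination -e2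
    have hy2 : y ^ 2 = y' ^ 2 := by rw [h', hy', hX]
    rcases sq_eq_sq_iff_eq_or_eq_neg.mp hy2 with e | e
    · refine ⟨pt hk hQ, ?_⟩
      rw [hphi]
      exact t9_pt_congr hk _ hX e.symm
    · refine ⟨-pt hk hQ, ?_⟩
      rw [map_neg, hphi, t9_neg]
      exact t9_pt_congr hk _ hX e.symm
  obtain ⟨Q, hQ⟩ := hP'
  rcases hc with rfl | rfl | rfl
  · refine ⟨Q, ?_⟩
    rw [hQ]
    exact t9_pt_congr hk _ (by rw [hxc, one_mul]) rfl
  · refine ⟨t9_rho hk c (t9_om3 hω) Q, ?_⟩
    rw [← t9_rho_phi, hQ, t9_rho_pt]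
    exact t9_pt_congr hk _ hxc.symm rfl
  · refine ⟨t9_rho hk ω (t9_om3 hω) (t9_rho hk ω (t9_om3 hω) Q), ?_⟩
    rw [← t9_rho_phi, ← t9_rho_phi, hQ, t9_rho_pt, t9_rho_pt]
    exact t9_pt_congr hk _ (by rw [hxc]; ring) rfl

end desc

lemma t9_index_aux {G Q : Type} [AddCommGroup G] [CommGroup Q] (d : G → Q)
    (hd : ∀ a b, d (a + b) = d a * d b) (S : Subgroup Q) (hS : ∀ g, d g ∈ S)
    (hcard : Nat.card S ≠ 0) (R : AddSubgroup G) (hR : ∀ g, d g = 1 → g ∈ R) :
    R.index ≠ 0 ∧ R.index ≤ Nat.card S := by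
  let D : G →+ Additive Q := AddMonoidHom.mk' (fun g => Additive.ofMul (d g)) (fun a b => by
    rw [hd]; rfl)
  have hfinS : Finite S := Nat.finite_of_card_ne_zero hcard
  have hinj : ∃ f : D.range → S, Function.Injective f := by
    refine ⟨fun z => ⟨Additive.toMul z.1, ?_⟩, ?_⟩
    · obtain ⟨P, hP⟩ := z.2
      rw [← hP]
      exact hS P
    · intro z w e
      apply Subtype.ext
      have := congrArg Subtype.val e
      exact this
  obtain ⟨f, hf⟩ := hinj
  have hfind : Finite D.range := Finite.of_injective f hf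
  have hcd : Nat.card D.range ≤ Nat.card S := Nat.card_le_card_of_injective f hf
  have hcd0 : Nat.card D.range ≠ 0 := Nat.card_pos.ne'
  have hker : D.ker ≤ R := fun P hP => hR P hP
  have hdvd : R.index ∣ D.ker.index := AddSubgroup.index_dvd_of_le hker
  rw [AddSubgroup.index_ker] at hdvd
  exact ⟨fun e => hcd0 (Nat.eq_zero_of_zero_dvd (e ▸ hdvd)),
    (Nat.le_of_dvd (Nat.pos_of_ne_zero hcd0) hdvd).trans hcd⟩

lemma t9_index_aux2 {G : Type} [AddCommGroup G] (φ : G →+ G) (h3 : ∀ P, φ (φ P) = -(3 • P))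
    {r : ℕ} (hφ0 : φ.range.index ≠ 0) (hφr : φ.range.index ≤ r) :
    (nsmulAddMonoidHom (α := G) 3).range.index ≠ 0 ∧
      (nsmulAddMonoidHom (α := G) 3).range.index ≤ r ^ 2 := by
  have hrange : (nsmulAddMonoidHom (α := G) 3).range = φ.range.map φ := by
    ext P
    constructor
    · rintro ⟨Q, rfl⟩
      refine ⟨φ (-Q), ⟨-Q, rfl⟩, ?_⟩
      rw [h3]
      simp
    · rintro ⟨_, ⟨Q, rfl⟩, rfl⟩
      refine ⟨-Q, ?_⟩
      rw [h3]
      simp
  rw [hrange, AddSubgroup.index_map]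
  have hsup : (φ.range ⊔ φ.ker).index ∣ φ.range.index := AddSubgroup.index_dvd_of_le le_sup_left
  have hsup0 : (φ.range ⊔ φ.ker).index ≠ 0 := fun e => hφ0 (Nat.eq_zero_of_zero_dvd (e ▸ hsup))
  have hsupr : (φ.range ⊔ φ.ker).index ≤ r :=
    (Nat.le_of_dvd (Nat.pos_of_ne_zero hφ0) hsup).trans hφr
  refine ⟨mul_ne_zero hsup0 hφ0, ?_⟩
  rw [sq]
  exact Nat.mul_le_mul hsupr hφr

/-- descent by the isogeny `√-3` twice -/
theorem mw_index {F K : Type} [Field F] [CharZero F] [DecidableEq F] [Field K] [Algebra F K]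
    (hfin : finrank F K = 2) (ω : F) (hω : ω ^ 2 + ω + 1 = 0) {k : F} (hk : k ≠ 0) (s : K)
    (hs : s ^ 2 = algebraMap F K k) (hsF : s ∉ Set.range (algebraMap F K)) (H : Subgroup Kˣ)
    (hH : ∀ x y : F, y ^ 2 = x ^ 3 + k → ∀ z : Kˣ, (z : K) = algebraMap F K y - s → z ∈ H)
    (hcub : Cub K ≤ H) (hind : (Cub K).relIndex H ≠ 0) :
    (nsmulAddMonoidHom (α := (Ek k).Point) 3).range.index ≠ 0 ∧
      (nsmulAddMonoidHom (α := (Ek k).Point) 3).range.index ≤ ((Cub K).relIndex H) ^ 2 := by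
  have hcard : Nat.card (H.map (QuotientGroup.mk' (Cub K))) = (Cub K).relIndex H := by
    rw [← Subgroup.relIndex_ker, QuotientGroup.ker_mk']
  have hmem : ∀ P : (Ek k).Point, (QuotientGroup.mk' (Cub K)) (t9_dF hsF P) ∈
      H.map (QuotientGroup.mk' (Cub K)) := by
    intro P
    rcases t9_cases hk P with rfl | ⟨x, y, h, rfl⟩
    · rw [t9_dF_zero, map_one]
      exact one_mem (H.map (QuotientGroup.mk' (Cub K)))
    · exact ⟨Units.mk0 (algebraMap F K y - s) (t9_ne hsF y), hH x y h _ rfl, rfl⟩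
  have key := t9_index_aux (fun P : (Ek k).Point => (QuotientGroup.mk' (Cub K)) (t9_dF hsF P))
    (fun P Q => t9_d_add hk hs hsF P Q) (H.map (QuotientGroup.mk' (Cub K))) hmem
    (by rw [hcard]; exact hind) (t9_phi hk hω).range
    (fun P hP => t9_ker_le hfin hω hk hs hsF P hP)
  rw [hcard] at key
  exact t9_index_aux2 (t9_phi hk hω) (t9_phi_phi hk hω) key.1 key.2

end Pool.Agent.Lib.MP_695920_nt.Qt
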