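import Mathlib
import Pool.Agent.Lib.MP_695920_nt.IdealSums
import Pool.Agent.Lib.MP_695920_nt.Refl.TwoMod

/-!
The number of ideals of bounded norm.
-/

set_option autoImplicit false

open Finset NumberField Module ArithmeticFunction

namespace Pool.Agent.Lib.MP_695920_nt.Qt

lemma prime_inv_sum (ε : ℝ) (hε : 0 < ε) : ∃ C : ℝ, 0 ≤ C ∧ ∀ N : ℕ, 1 ≤ N →
    ∑ p ∈ (Ioc 0 N).filter Nat.Prime, (1 : ℝ) / p ≤ C + ε * Real.log N := by
  set K : ℕ := ⌈Real.exp (1 / ε)⌉₊ with hK
  have hCnn : 0 ≤ ∑ n ∈ Ioc 0 K, (1 : ℝ) / n := Finset.sum_nonneg (fun _ _ => by positivity)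
  refine ⟨∑ n ∈ Ioc 0 K, (1 : ℝ) / n + 6 * ε, by positivity, ?_⟩
  intro N hN
  have h1 : ∀ p ∈ (Ioc 0 N).filter Nat.Prime, (1 : ℝ) / p ≤
      (if p ≤ K then (1 : ℝ) / p else 0) + ε * (vonMangoldt p / p) := by
    intro p hp
    rw [mem_filter] at hp
    have hp0 : (0 : ℝ) < p := by exact_mod_cast hp.2.pos
    rw [vonMangoldt_apply_prime hp.2]
    have hlog : 0 ≤ Real.log p := Real.log_nonneg (by exact_mod_cast hp.2.one_lt.le)
    split_ifs with h
    · have : 0 ≤ ε * (Real.log p / p) := by positivity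
      linarith
    · rw [zero_add]
      push Not at h
      have h2 : Real.exp (1 / ε) ≤ p := by
        calc Real.exp (1 / ε) ≤ K := Nat.le_ceil _
          _ ≤ p := by exact_mod_cast h.le
      have h3 : 1 / ε ≤ Real.log p := by
        rw [← Real.log_exp (1 / ε)]
        exact Real.log_le_log (Real.exp_pos _) h2
      rw [div_le_iff₀ hε] at h3
      rw [← mul_div_assoc]
      apply div_le_div_of_nonneg_right _ hp0.le
      linarith
  refine (Finset.sum_le_sum h1).trans ?_
  rw [Finset.sum_add_distrib]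
  have h2 : ∑ p ∈ (Ioc 0 N).filter Nat.Prime, (if p ≤ K then (1 : ℝ) / p else 0) ≤
      ∑ n ∈ Ioc 0 K, (1 : ℝ) / n := by
    rw [← Finset.sum_filter]
    apply Finset.sum_le_sum_of_subset_of_nonneg
    · intro p hp
      rw [mem_filter, mem_filter, mem_Ioc] at hp
      rw [mem_Ioc]
      exact ⟨hp.1.1.1, hp.2⟩
    · intro p _ _
      positivity
  have h3 : ∑ p ∈ (Ioc 0 N).filter Nat.Prime, ε * (vonMangoldt p / p) ≤
      ε * (Real.log N + 6) := by
    rw [← Finset.mul_sum]
    apply mul_le_mul_of_nonneg_left _ hε.le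
    refine le_trans ?_ (Refl.tm_mertens N hN)
    apply Finset.sum_le_sum_of_subset_of_nonneg (Finset.filter_subset _ _)
    intro n _ _
    have := vonMangoldt_nonneg (n := n)
    positivity
  linarith

theorem ideal_count (n : ℕ) (ε : ℝ) (hε : 0 < ε) : ∃ C : ℝ, 0 ≤ C ∧
    ∀ (K : Type) [Field K] [NumberField K], finrank ℚ K = n → ∀ x : ℝ, 1 ≤ x →
      ((idl K ⌊x⌋₊).card : ℝ) ≤ C * x ^ (1 + ε) := by
  classical
  obtain ⟨C1, hC1, h1⟩ := prime_inv_sum (ε / (n + 1)) (by positivity)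
  refine ⟨Real.exp (4 * n) * Real.exp (n * C1), by positivity, ?_⟩
  intro K _ _ hn x hx
  have hx0 : 0 < x := by linarith
  set N := ⌊x⌋₊ with hN
  have hN1 : 1 ≤ N := by
    rw [hN]
    exact Nat.le_floor (by exact_mod_cast hx)
  have hNx : (N : ℝ) ≤ x := Nat.floor_le hx0.le
  have h2 := sum_inv_le_exp (K := K) N
  rw [hn] at h2
  have h3 : ∑ P ∈ deg1 K N, (1 : ℝ) / (Ideal.absNorm P) ≤ n * (C1 + ε / (n + 1) * Real.log N) := by
    have hmaps : ∀ P ∈ deg1 K N, Ideal.absNorm P ∈ (Ioc 0 N).filter Nat.Prime := by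
      intro P hP
      rw [mem_deg1] at hP
      rw [mem_filter, mem_Ioc]
      exact ⟨⟨hP.2.pos, hP.1⟩, hP.2⟩
    rw [← Finset.sum_fiberwise_of_maps_to hmaps]
    have h4 : ∀ p ∈ (Ioc 0 N).filter Nat.Prime,
        ∑ P ∈ (deg1 K N).filter (fun P => Ideal.absNorm P = p), (1 : ℝ) / (Ideal.absNorm P) ≤
          n * (1 / (p : ℝ)) := by
      intro p hp
      rw [mem_filter] at hp
      have h5 : ∑ P ∈ (deg1 K N).filter (fun P => Ideal.absNorm P = p),
          (1 : ℝ) / (Ideal.absNorm P) =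
          (((deg1 K N).filter (fun P => Ideal.absNorm P = p)).card : ℝ) * (1 / (p : ℝ)) := by
        rw [Finset.sum_congr rfl (g := fun _ => 1 / (p : ℝ)), Finset.sum_const, nsmul_eq_mul]
        intro P hP
        rw [(Finset.mem_filter.mp hP).2]
      rw [h5]
      apply mul_le_mul_of_nonneg_right _ (by positivity)
      have h6 : ((deg1 K N).filter (fun P => Ideal.absNorm P = p)).card ≤ finrank ℚ K := by
        apply card_primes_above_le hp.2
        intro P hP
        obtain ⟨hP1, hP2⟩ := Finset.mem_filter.mp hP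
        refine ⟨Ideal.isPrime_of_irreducible_absNorm (mem_deg1.mp hP1).2, ?_⟩
        rw [← hP2]
        exact Ideal.absNorm_mem P
      rw [hn] at h6
      exact_mod_cast h6
    refine (Finset.sum_le_sum h4).trans ?_
    rw [← Finset.mul_sum]
    exact mul_le_mul_of_nonneg_left (h1 N hN1) (Nat.cast_nonneg n)
  have h4 : ((idl K N).card : ℝ) ≤ N * ∑ I ∈ idl K N, (1 : ℝ) / (Ideal.absNorm I) := by
    rw [Finset.mul_sum]
    calc ((idl K N).card : ℝ) = ∑ _I ∈ idl K N, (1 : ℝ) := by simp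
      _ ≤ _ := by
        apply Finset.sum_le_sum
        intro I hI
        obtain ⟨hI0, hIN⟩ := mem_idl.mp hI
        have h5 : (0 : ℝ) < Ideal.absNorm I := by exact_mod_cast absNorm_pos_of_ne_bot hI0
        rw [mul_one_div, le_div_iff₀ h5, one_mul]
        exact_mod_cast hIN
  have hlogN : Real.log N ≤ Real.log x := Real.log_le_log (by exact_mod_cast hN1) hNx
  have hlogx : 0 ≤ Real.log x := Real.log_nonneg hx
  have h5 : Real.exp (∑ P ∈ deg1 K N, (1 : ℝ) / (Ideal.absNorm P)) ≤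
      Real.exp (n * C1) * x ^ ε := by
    rw [Real.rpow_def_of_pos hx0, ← Real.exp_add]
    apply Real.exp_le_exp.mpr
    refine h3.trans ?_
    have h6 : (n : ℝ) * (ε / (n + 1) * Real.log N) ≤ Real.log x * ε := by
      have h7 : (n : ℝ) * (ε / (n + 1)) ≤ ε := by
        rw [← mul_div_assoc, div_le_iff₀ (by positivity)]
        nlinarith
      calc (n : ℝ) * (ε / (n + 1) * Real.log N) = (n * (ε / (n + 1))) * Real.log N := by ring
        _ ≤ (n * (ε / (n + 1))) * Real.log x := mul_le_mul_of_nonneg_left hlogN (by positivity)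
        _ ≤ ε * Real.log x := mul_le_mul_of_nonneg_right h7 hlogx
        _ = _ := by ring
    linarith
  calc ((idl K N).card : ℝ) ≤ N * ∑ I ∈ idl K N, (1 : ℝ) / (Ideal.absNorm I) := h4
    _ ≤ x * (Real.exp (4 * n) * (Real.exp (n * C1) * x ^ ε)) := by
        apply mul_le_mul hNx _ (Finset.sum_nonneg (fun _ _ => by positivity)) hx0.le
        exact h2.trans (mul_le_mul_of_nonneg_left h5 (Real.exp_pos _).le)
    _ = _ := by
        rw [Real.rpow_add hx0, Real.rpow_one]
        ring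

end Pool.Agent.Lib.MP_695920_nt.Qt
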