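import Mathlib
import Pool.Agent.Lib.MP_695920_nt.Core
import Pool.Agent.Lib.MP_695920_nt.Qt.Defs

/-! MP_695920_nt, pair (4,3), task T14 (helper39): an ideal in a given class of order dividing `3`
whose cube has a generator with small conjugates. -/

set_option autoImplicit false

open NumberField Module IsDedekindDomain
open scoped nonZeroDivisors

namespace Pool.Agent.Lib.MP_695920_nt.Qt

/-! T14 -/
theorem mink_class : ∃ C : ℝ, 1 ≤ C ∧ ∀ (K : Type) [Field K] [NumberField K],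
    finrank ℚ K = 4 → (∀ w : InfinitePlace K, w.IsComplex) →
    ∀ c : ClassGroup (𝓞 K), c ^ 3 = 1 → ∃ (I : (Ideal (𝓞 K))⁰) (ξ : 𝓞 K),
      ClassGroup.mk0 I = c ∧ (I : Ideal (𝓞 K)) ^ 3 = Ideal.span {ξ} ∧ ξ ≠ 0 ∧
      ∀ w : InfinitePlace K, w (ξ : K) ≤ C * |(discr K : ℝ)| ^ (3 / 8 : ℝ) := by
  refine ⟨2, by norm_num, ?_⟩
  intro K _ _ hn _ c hc
  obtain ⟨B, a, b, ha, hb, hB, -, hid, hw⟩ := pair_exists (K := K) (l := 3) (by norm_num) 1 c hc
  rw [map_one, mul_one] at hB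
  have hid' : Ideal.span {b} * (B : Ideal (𝓞 K)) ^ 3 = Ideal.span {a} := by
    rw [hid]
    have h1 : ((1 : (Ideal (𝓞 K))⁰) : Ideal (𝓞 K)) = 1 := rfl
    rw [h1, one_pow, mul_one]
  have hba : b ∣ a := by
    rw [← Ideal.span_singleton_le_span_singleton, ← hid']
    exact Ideal.mul_le_left
  obtain ⟨ξ, hξ⟩ := hba
  have hξ0 : ξ ≠ 0 := by
    rintro rfl
    rw [mul_zero] at hξ
    exact ha hξ
  have hb' : Ideal.span {b} ≠ ⊥ := by
    rw [Ne, Ideal.span_singleton_eq_bot]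
    exact hb
  refine ⟨B, ξ, hB, ?_, hξ0, ?_⟩
  · rw [hξ, ← Ideal.span_singleton_mul_span_singleton] at hid'
    exact mul_left_cancel₀ hb' hid'
  · intro w
    have h1 := hw w
    have hwb : 0 < w (b : K) := infinitePlace_pos hb
    rw [hξ, RingOfIntegers.coe_eq_algebraMap, map_mul, map_mul] at h1
    have h2 : w (ξ : K) < (ZK K / Ideal.absNorm ((1 : (Ideal (𝓞 K))⁰) : Ideal (𝓞 K))) ^
        ((3 : ℕ) / finrank ℚ K : ℝ) := by
      rw [RingOfIntegers.coe_eq_algebraMap] at hwb ⊢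
      rw [mul_comm] at h1
      exact lt_of_mul_lt_mul_right h1 hwb.le
    refine h2.le.trans ?_
    have h3 : ((Ideal.absNorm ((1 : (Ideal (𝓞 K))⁰) : Ideal (𝓞 K)) : ℕ) : ℝ) = 1 := by
      simp
    rw [h3, div_one, hn]
    have hD : (0 : ℝ) ≤ |(discr K : ℝ)| := abs_nonneg _
    unfold ZK
    rw [Real.mul_rpow (by norm_num) (Real.sqrt_nonneg _), Real.sqrt_eq_rpow, ← Real.rpow_mul hD]
    have h4 : (1 / 2 : ℝ) * (((3 : ℕ) : ℝ) / ((4 : ℕ) : ℝ)) = 3 / 8 := by norm_num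
    rw [h4]
    have h5 : (2 : ℝ) ^ (((3 : ℕ) : ℝ) / ((4 : ℕ) : ℝ)) ≤ 2 := by
      calc (2 : ℝ) ^ (((3 : ℕ) : ℝ) / ((4 : ℕ) : ℝ)) ≤ (2 : ℝ) ^ (1 : ℝ) :=
            Real.rpow_le_rpow_of_exponent_le (by norm_num) (by norm_num)
        _ = 2 := Real.rpow_one 2
    exact mul_le_mul_of_nonneg_right h5 (Real.rpow_nonneg hD _)

end Pool.Agent.Lib.MP_695920_nt.Qt
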