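import Mathlib
import Pool.Agent.Lib.MP_695920_nt.Qt.Defs

set_option autoImplicit false

/-!
# A bound for spherical codes (task T1)
-/

namespace Pool.Agent.Lib.MP_695920_nt.Qt

/-- the multinomial theorem for a power of an inner product -/
private theorem t1_pow {r : ℕ} (n : ℕ) (x y : Fin r → ℝ) :
    (∑ a, x a * y a) ^ n = ∑ α : Sym (Fin r) n, (α.val.countPerms : ℝ) *
      ((α.val.map x).prod * (α.val.map y).prod) := by
  rw [Finset.sum_pow, Finset.sym_univ]
  refine Finset.sum_congr rfl fun α _ => ?_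
  rw [Multiset.prod_map_mul]

private theorem t1_nonneg {r M : ℕ} (n : ℕ) (u : Fin M → Fin r → ℝ) :
    0 ≤ ∑ i, ∑ j, (∑ a, u i a * u j a) ^ n := by
  have h : ∑ i, ∑ j, (∑ a, u i a * u j a) ^ n =
      ∑ α : Sym (Fin r) n, (α.val.countPerms : ℝ) * (∑ i, (α.val.map (u i)).prod) ^ 2 := by
    simp_rw [t1_pow]
    have h1 : ∀ i : Fin M, ∑ j, ∑ α : Sym (Fin r) n, (α.val.countPerms : ℝ) *
        ((α.val.map (u i)).prod * (α.val.map (u j)).prod) =
        ∑ α : Sym (Fin r) n, ∑ j, (α.val.countPerms : ℝ) *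
        ((α.val.map (u i)).prod * (α.val.map (u j)).prod) := fun i => Finset.sum_comm
    simp_rw [h1]
    rw [Finset.sum_comm]
    refine Finset.sum_congr rfl fun α _ => ?_
    rw [sq, Finset.sum_mul_sum, Finset.mul_sum]
    refine Finset.sum_congr rfl fun i _ => ?_
    rw [Finset.mul_sum]
  rw [h]
  exact Finset.sum_nonneg fun α _ => mul_nonneg (Nat.cast_nonneg _) (sq_nonneg _)

/-- Welch bound -/
private theorem t1_welch {r M : ℕ} (k : ℕ) (u : Fin M → Fin r → ℝ) (hu : ∀ i, ∑ a, u i a * u i a = 1) :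
    (M : ℝ) ^ 2 ≤ Nat.multichoose r k * ∑ i, ∑ j, (∑ a, u i a * u j a) ^ (2 * k) := by
  set φ : Fin M → Sym (Fin r) k → ℝ := fun i α =>
    Real.sqrt (α.val.countPerms : ℝ) * (α.val.map (u i)).prod with hφ
  have h1 : ∀ i j, ∑ α, φ i α * φ j α = (∑ a, u i a * u j a) ^ k := by
    intro i j
    rw [t1_pow]
    refine Finset.sum_congr rfl fun α _ => ?_
    have := Real.mul_self_sqrt (Nat.cast_nonneg (α := ℝ) α.val.countPerms)
    simp only [hφ]
    calc _ = (Real.sqrt (α.val.countPerms : ℝ) * Real.sqrt (α.val.countPerms : ℝ)) *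
          ((α.val.map (u i)).prod * (α.val.map (u j)).prod) := by ring
      _ = _ := by rw [this]
  set S : Sym (Fin r) k → Sym (Fin r) k → ℝ := fun α β => ∑ i, φ i α * φ i β with hS
  have h2 : ∑ α, S α α = M := by
    simp only [hS]
    rw [Finset.sum_comm]
    have : ∀ i, ∑ α, φ i α * φ i α = 1 := by
      intro i; rw [h1, hu, one_pow]
    simp [this]
  have h3 : (∑ α, S α α) ^ 2 ≤ Nat.multichoose r k * ∑ α, S α α ^ 2 := by
    have := sq_sum_le_card_mul_sum_sq (s := (Finset.univ : Finset (Sym (Fin r) k)))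
      (f := fun α => S α α)
    rw [Finset.card_univ, Sym.card_sym_eq_multichoose, Fintype.card_fin] at this
    exact this
  have h4 : ∑ α, S α α ^ 2 ≤ ∑ α, ∑ β, S α β ^ 2 := by
    refine Finset.sum_le_sum fun α _ => ?_
    exact Finset.single_le_sum (f := fun β => S α β ^ 2) (fun β _ => sq_nonneg _)
      (Finset.mem_univ α)
  have h5 : ∑ α, ∑ β, S α β ^ 2 = ∑ i, ∑ j, (∑ a, u i a * u j a) ^ (2 * k) := by
    have e1 : ∀ α β, S α β ^ 2 = ∑ i, ∑ j, (φ i α * φ i β) * (φ j α * φ j β) := by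
      intro α β
      rw [sq, hS, Finset.sum_mul_sum]
    simp_rw [e1]
    have e2 : ∀ α, ∑ β, ∑ i, ∑ j, (φ i α * φ i β) * (φ j α * φ j β) =
        ∑ i, ∑ j, (φ i α * φ j α) * (∑ β, φ i β * φ j β) := by
      intro α
      rw [Finset.sum_comm]
      refine Finset.sum_congr rfl fun i _ => ?_
      rw [Finset.sum_comm]
      refine Finset.sum_congr rfl fun j _ => ?_
      rw [Finset.mul_sum]
      exact Finset.sum_congr rfl fun β _ => by ring
    simp_rw [e2, h1]
    rw [Finset.sum_comm]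
    refine Finset.sum_congr rfl fun i _ => ?_
    rw [Finset.sum_comm]
    refine Finset.sum_congr rfl fun j _ => ?_
    rw [← Finset.sum_mul, h1, ← pow_add, two_mul]
  rw [← h2]
  refine h3.trans ?_
  rw [← h5]
  exact mul_le_mul_of_nonneg_left h4 (Nat.cast_nonneg _)

private theorem t1_term {x : ℝ} (hx : |x| ≤ 1) {k : ℕ} (hk : 1 ≤ k) :
    x ^ (2 * k) ≤ 2 * (max x 0) ^ (2 * k - 1) - x ^ (2 * k - 1) := by
  have e : x ^ (2 * k) = x ^ (2 * k - 1) * x := by
    rw [← pow_succ]; congr 1; omega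
  obtain ⟨h1, h2⟩ := abs_le.1 hx
  rcases le_total 0 x with h | h
  · rw [max_eq_left h, e]
    have : 0 ≤ x ^ (2 * k - 1) := pow_nonneg h _
    nlinarith
  · rw [max_eq_right h, e]
    have hodd : Odd (2 * k - 1) := ⟨k - 1, by omega⟩
    have : x ^ (2 * k - 1) ≤ 0 := hodd.pow_nonpos h
    rw [zero_pow (by omega)]
    nlinarith

theorem sphere_code {r M : ℕ} (w : Fin M → Fin r → ℝ) (ε b : ℝ) (k : ℕ) (hk : 1 ≤ k)
    (hε : 0 ≤ ε) (hb : 0 < b) (hw : ∀ i, b ≤ ∑ a, w i a ^ 2)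
    (hcos : ∀ i j, i ≠ j → ∑ a, w i a * w j a ≤ ε * b)
    (hN : 2 * (Nat.multichoose r k : ℝ) * ε ^ (2 * k - 1) ≤ 1 / 2) :
    (M : ℝ) ≤ 4 * Nat.multichoose r k := by
  set q : Fin M → ℝ := fun i => Real.sqrt (∑ a, w i a ^ 2) with hq
  have hs : ∀ i, 0 < ∑ a, w i a ^ 2 := fun i => lt_of_lt_of_le hb (hw i)
  have hq0 : ∀ i, 0 < q i := fun i => Real.sqrt_pos.2 (hs i)
  have hqq : ∀ i, q i * q i = ∑ a, w i a ^ 2 := fun i => Real.mul_self_sqrt (hs i).le
  set u : Fin M → Fin r → ℝ := fun i a => w i a / q i with hu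
  have hG : ∀ i j, ∑ a, u i a * u j a = (∑ a, w i a * w j a) / (q i * q j) := by
    intro i j
    rw [Finset.sum_div]
    refine Finset.sum_congr rfl fun a _ => ?_
    simp only [hu]
    rw [div_mul_div_comm]
  have hu1 : ∀ i, ∑ a, u i a * u i a = 1 := by
    intro i
    rw [hG, hqq]
    have : ∑ a, w i a * w i a = ∑ a, w i a ^ 2 :=
      Finset.sum_congr rfl fun a _ => (sq _).symm
    rw [this, div_self (hs i).ne']
  have habs : ∀ i j, |∑ a, u i a * u j a| ≤ 1 := by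
    intro i j
    have h := Finset.sum_mul_sq_le_sq_mul_sq Finset.univ (u i) (u j)
    have e1 : ∀ i, ∑ a, u i a ^ 2 = 1 := by
      intro i
      rw [← hu1 i]
      exact Finset.sum_congr rfl fun a _ => sq _
    rw [e1, e1, mul_one] at h
    exact (sq_le_one_iff_abs_le_one _).1 h
  have hle : ∀ i j, i ≠ j → ∑ a, u i a * u j a ≤ ε := by
    intro i j hij
    rw [hG, div_le_iff₀ (mul_pos (hq0 i) (hq0 j))]
    have h1 := hcos i j hij
    have h2 : b ≤ q i * q j := by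
      have a1 : Real.sqrt b ≤ q i := Real.sqrt_le_sqrt (hw i)
      have a2 : Real.sqrt b ≤ q j := Real.sqrt_le_sqrt (hw j)
      calc b = Real.sqrt b * Real.sqrt b := (Real.mul_self_sqrt hb.le).symm
        _ ≤ q i * q j := mul_le_mul a1 a2 (Real.sqrt_nonneg _) (hq0 i).le
    calc _ ≤ ε * b := h1
      _ ≤ ε * (q i * q j) := mul_le_mul_of_nonneg_left h2 hε
  have hW := t1_welch k u hu1
  have hP := t1_nonneg (2 * k - 1) u
  have hsum : ∑ i, ∑ j, (∑ a, u i a * u j a) ^ (2 * k) ≤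
      2 * ∑ i, ∑ j, (max (∑ a, u i a * u j a) 0) ^ (2 * k - 1) := by
    have h1 : ∑ i, ∑ j, (∑ a, u i a * u j a) ^ (2 * k) ≤
        ∑ i, ∑ j, (2 * (max (∑ a, u i a * u j a) 0) ^ (2 * k - 1) -
          (∑ a, u i a * u j a) ^ (2 * k - 1)) :=
      Finset.sum_le_sum fun i _ => Finset.sum_le_sum fun j _ => t1_term (habs i j) hk
    have h2 : ∑ i, ∑ j, (2 * (max (∑ a, u i a * u j a) 0) ^ (2 * k - 1) -
          (∑ a, u i a * u j a) ^ (2 * k - 1)) =
        2 * ∑ i, ∑ j, (max (∑ a, u i a * u j a) 0) ^ (2 * k - 1) -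
          ∑ i, ∑ j, (∑ a, u i a * u j a) ^ (2 * k - 1) := by
      simp only [Finset.sum_sub_distrib, Finset.mul_sum]
    rw [h2] at h1
    linarith
  have hmax : ∑ i, ∑ j, (max (∑ a, u i a * u j a) 0) ^ (2 * k - 1) ≤
      (M : ℝ) + (M : ℝ) ^ 2 * ε ^ (2 * k - 1) := by
    have h1 : ∀ i j : Fin M, (max (∑ a, u i a * u j a) 0) ^ (2 * k - 1) ≤
        (if i = j then 1 else 0) + ε ^ (2 * k - 1) := by
      intro i j
      by_cases hij : i = j
      · subst hij
        rw [if_pos rfl, hu1, max_eq_left zero_le_one, one_pow]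
        have : 0 ≤ ε ^ (2 * k - 1) := pow_nonneg hε _
        linarith
      · rw [if_neg hij, zero_add]
        exact pow_le_pow_left₀ (le_max_right _ _) (max_le (hle i j hij) hε) _
    refine (Finset.sum_le_sum fun i _ => Finset.sum_le_sum fun j _ => h1 i j).trans ?_
    simp only [Finset.sum_add_distrib, Finset.sum_ite_eq, Finset.mem_univ, if_true,
      Finset.sum_const, Finset.card_univ, Fintype.card_fin, nsmul_eq_mul, mul_one]
    rw [sq, mul_assoc]
  have hM0 : (0 : ℝ) ≤ M := Nat.cast_nonneg _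
  have hN0 : (0 : ℝ) ≤ Nat.multichoose r k := Nat.cast_nonneg _
  have hfin : (M : ℝ) ^ 2 ≤ Nat.multichoose r k *
      (2 * ((M : ℝ) + (M : ℝ) ^ 2 * ε ^ (2 * k - 1))) :=
    hW.trans (mul_le_mul_of_nonneg_left (by linarith) hN0)
  have h6 : (M : ℝ) ^ 2 * (2 * (Nat.multichoose r k : ℝ) * ε ^ (2 * k - 1)) ≤
      (M : ℝ) ^ 2 * (1 / 2) := mul_le_mul_of_nonneg_left hN (sq_nonneg _)
  have h7 : (M : ℝ) ^ 2 ≤ 2 * Nat.multichoose r k * M + (M : ℝ) ^ 2 * (1 / 2) := by
    nlinarith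
  rcases hM0.eq_or_lt with h0 | h0
  · rw [← h0]; positivity
  · have : (M : ℝ) * M ≤ (4 * Nat.multichoose r k) * M := by nlinarith
    exact le_of_mul_le_mul_right this h0

end Pool.Agent.Lib.MP_695920_nt.Qt
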