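import Mathlib
import Pool.Agent.Lib.MP_695920_nt.Qt.Defs

set_option autoImplicit false

/-!
# The numerical choice of the degree in the code bound (task T2)
-/

namespace Pool.Agent.Lib.MP_695920_nt.Qt

private theorem t2_multichoose (r k : ℕ) (hk : 1 ≤ k) :
    (Nat.multichoose r k : ℝ) ≤ (3 * ((r : ℝ) + k) / k) ^ k := by
  have hk0 : (0 : ℝ) < k := by exact_mod_cast hk
  have h1 : (Nat.multichoose r k : ℝ) ≤ ((r : ℝ) + k) ^ k / k.factorial := by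
    rw [Nat.multichoose_eq]
    refine (Nat.choose_le_pow_div k (r + k - 1)).trans ?_
    apply div_le_div_of_nonneg_right _ (Nat.cast_nonneg _)
    apply pow_le_pow_left₀ (Nat.cast_nonneg _)
    have : r + k - 1 ≤ r + k := Nat.sub_le _ _
    exact_mod_cast this
  have h2 : (k : ℝ) ^ k / k.factorial ≤ 3 ^ k := by
    refine (Real.pow_div_factorial_le_exp (k : ℝ) hk0.le k).trans ?_
    have h3 : Real.exp (k : ℝ) = Real.exp 1 ^ k := by
      rw [← Real.exp_nat_mul, mul_one]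
    rw [h3]
    apply pow_le_pow_left₀ (Real.exp_pos _).le
    exact (Real.exp_one_lt_d9.trans (by norm_num)).le
  have hf : (0 : ℝ) < k.factorial := by exact_mod_cast Nat.factorial_pos k
  have hkk : (0 : ℝ) < (k : ℝ) ^ k := pow_pos hk0 k
  calc (Nat.multichoose r k : ℝ) ≤ ((r : ℝ) + k) ^ k / k.factorial := h1
    _ = (((r : ℝ) + k) ^ k / (k : ℝ) ^ k) * ((k : ℝ) ^ k / k.factorial) := by
        field_simp
    _ ≤ (((r : ℝ) + k) ^ k / (k : ℝ) ^ k) * 3 ^ k := by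
        apply mul_le_mul_of_nonneg_left h2
        positivity
    _ = (3 * ((r : ℝ) + k) / k) ^ k := by
        rw [div_pow, mul_pow]; ring

theorem code_numeric (C₀ : ℝ) : ∃ ε₀ : ℝ, 0 < ε₀ ∧ ∀ ε : ℝ, 0 < ε → ε ≤ ε₀ → ∃ C : ℝ,
    ∀ (L : ℝ) (r : ℕ), 0 ≤ L → (r : ℝ) ≤ C₀ * (L + 1) → ∃ k : ℕ, 1 ≤ k ∧
      2 * (Nat.multichoose r k : ℝ) * ε ^ (2 * k - 1) ≤ 1 / 2 ∧
      4 * (Nat.multichoose r k : ℝ) ≤ C * Real.exp (ε ^ (3 / 2 : ℝ) * L) := by
  set c : ℝ := |C₀| + 1 with hc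
  have hc1 : 1 ≤ c := by rw [hc]; linarith [abs_nonneg C₀]
  have hcC : C₀ ≤ c := by rw [hc]; linarith [le_abs_self C₀]
  refine ⟨min (1 / 7) ((1 / (128 * c)) ^ 4), by positivity, ?_⟩
  intro ε hε hεε
  have he1 : ε ≤ 1 / 7 := hεε.trans (min_le_left _ _)
  have he2 : ε ≤ (1 / (128 * c)) ^ 4 := hεε.trans (min_le_right _ _)
  set δ : ℝ := ε ^ (1 / 4 : ℝ) with hδ
  have hδ0 : 0 < δ := Real.rpow_pos_of_pos hε _
  have hδ4 : δ ^ 4 = ε := by
    rw [hδ, ← Real.rpow_natCast, ← Real.rpow_mul hε.le]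
    norm_num
  have hδ6 : ε ^ (3 / 2 : ℝ) = δ ^ 6 := by
    rw [hδ, ← Real.rpow_natCast (ε ^ (1 / 4 : ℝ)) 6, ← Real.rpow_mul hε.le]
    norm_num
  have hδc : 128 * c * δ ≤ 1 := by
    have h1 : δ ≤ 1 / (128 * c) := by
      have h2 : δ ^ 4 ≤ (1 / (128 * c)) ^ 4 := by rw [hδ4]; exact he2
      exact le_of_pow_le_pow_left₀ (by norm_num) (by positivity) h2
    rw [le_div_iff₀ (by positivity)] at h1
    linarith
  have hε1 : 4 * ε ^ 2 ≤ 1 := by nlinarith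
  set lam : ℝ := Real.log (1 / (4 * ε ^ 2)) with hlam
  have hlam0 : 0 ≤ lam := by
    apply Real.log_nonneg
    rw [le_div_iff₀ (by positivity)]
    linarith
  have hlam1 : lam ≤ 8 / δ := by
    have h1 : (1 : ℝ) / (4 * ε ^ 2) ≤ (1 / δ) ^ 8 := by
      rw [← hδ4]
      rw [div_pow, one_pow]
      apply div_le_div_of_nonneg_left (by norm_num) (by positivity)
      nlinarith [pow_pos hδ0 8]
    have h2 : lam ≤ Real.log ((1 / δ) ^ 8) := Real.log_le_log (by positivity) h1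
    rw [Real.log_pow] at h2
    have h3 : Real.log (1 / δ) ≤ 1 / δ - 1 := Real.log_le_sub_one_of_pos (by positivity)
    have h4 : lam ≤ 8 * (1 / δ - 1) := by push_cast at h2; linarith
    have h5 : (8 : ℝ) / δ = 8 * (1 / δ) := by ring
    rw [h5]; linarith
  obtain ⟨k1, hk1⟩ : ∃ k1 : ℕ, 4 / ε ≤ (4 : ℝ) ^ k1 := by
    obtain ⟨n, hn⟩ := pow_unbounded_of_one_lt (4 / ε) (show (1 : ℝ) < 4 by norm_num)
    exact ⟨n, hn.le⟩
  refine ⟨4 * Real.exp (ε ^ (3 / 2 : ℝ) + (k1 + 2) * lam), ?_⟩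
  intro L r hL hr
  set k : ℕ := ⌈16 * ε ^ 2 * r⌉₊ + k1 + 1 with hk
  have hk0 : 1 ≤ k := by omega
  have hkpos : (0 : ℝ) < k := by exact_mod_cast hk0
  have hkr : 16 * ε ^ 2 * r ≤ k := by
    have h1 := Nat.le_ceil (16 * ε ^ 2 * (r : ℝ))
    have h2 : ((⌈16 * ε ^ 2 * (r : ℝ)⌉₊ : ℕ) : ℝ) ≤ k := by
      have : ⌈16 * ε ^ 2 * (r : ℝ)⌉₊ ≤ k := by omega
      exact_mod_cast this
    linarith
  have hkr2 : (k : ℝ) ≤ 16 * ε ^ 2 * r + (k1 + 2) := by
    have h1 := Nat.ceil_lt_add_one (show 0 ≤ 16 * ε ^ 2 * (r : ℝ) by positivity)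
    rw [hk]; push_cast; linarith
  have hbase : 3 * ((r : ℝ) + k) / k ≤ 1 / (4 * ε ^ 2) := by
    rw [div_le_div_iff₀ hkpos (by positivity)]
    have h1 : 12 * ε ^ 2 * r ≤ 3 / 4 * k := by linarith
    have h2 : 12 * ε ^ 2 * k ≤ 1 / 4 * k := by
      apply mul_le_mul_of_nonneg_right _ hkpos.le
      nlinarith
    linarith
  have hNk : (Nat.multichoose r k : ℝ) ≤ (1 / (4 * ε ^ 2)) ^ k :=
    (t2_multichoose r k hk0).trans (pow_le_pow_left₀ (by positivity) hbase k)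
  refine ⟨k, hk0, ?_, ?_⟩
  · have h1 : (1 / (4 * ε ^ 2)) ^ k * ε ^ (2 * k - 1) = 1 / (4 ^ k * ε) := by
      have e1 : ε ^ (2 * k - 1) * ε = (ε ^ 2) ^ k := by
        have e0 : 2 * k - 1 + 1 = 2 * k := by omega
        rw [← pow_succ, ← pow_mul, e0]
      have e2 : (1 / (4 * ε ^ 2)) ^ k = 1 / (4 ^ k * (ε ^ 2) ^ k) := by
        rw [div_pow, one_pow, mul_pow]
      have e3 : ε ^ (2 * k - 1) ≠ 0 := by positivity
      rw [e2, ← e1]
      field_simp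
    have h2 : (4 : ℝ) / ε ≤ 4 ^ k := by
      refine hk1.trans ?_
      exact pow_le_pow_right₀ (by norm_num) (by omega)
    have h3 : (4 : ℝ) ≤ 4 ^ k * ε := by
      rwa [div_le_iff₀ hε] at h2
    have h4 : (Nat.multichoose r k : ℝ) * ε ^ (2 * k - 1) ≤ 1 / 4 := by
      calc _ ≤ (1 / (4 * ε ^ 2)) ^ k * ε ^ (2 * k - 1) :=
            mul_le_mul_of_nonneg_right hNk (by positivity)
        _ = 1 / (4 ^ k * ε) := h1
        _ ≤ 1 / 4 := one_div_le_one_div_of_le (by norm_num) h3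
    linarith
  · have h1 : (1 / (4 * ε ^ 2)) ^ k = Real.exp (k * lam) := by
      rw [hlam, ← Real.rpow_natCast, Real.rpow_def_of_pos (by positivity), mul_comm (k : ℝ)]
    have h2 : (k : ℝ) * lam ≤ ε ^ (3 / 2 : ℝ) * L + (ε ^ (3 / 2 : ℝ) + (k1 + 2) * lam) := by
      have a1 : (k : ℝ) * lam ≤ (16 * ε ^ 2 * (c * (L + 1)) + (k1 + 2)) * lam := by
        apply mul_le_mul_of_nonneg_right _ hlam0
        have b1 : (r : ℝ) ≤ c * (L + 1) :=
          hr.trans (mul_le_mul_of_nonneg_right hcC (by linarith))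
        have b2 : 16 * ε ^ 2 * (r : ℝ) ≤ 16 * ε ^ 2 * (c * (L + 1)) :=
          mul_le_mul_of_nonneg_left b1 (by positivity)
        linarith
      have a2 : 16 * ε ^ 2 * c * lam ≤ ε ^ (3 / 2 : ℝ) := by
        rw [hδ6]
        have b1 : 16 * ε ^ 2 * c * lam ≤ 16 * ε ^ 2 * c * (8 / δ) :=
          mul_le_mul_of_nonneg_left hlam1 (by positivity)
        have b2 : 16 * ε ^ 2 * c * (8 / δ) = (128 * c * δ) * δ ^ 6 := by
          rw [← hδ4]; field_simp; ring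
        rw [b2] at b1
        have b3 : (128 * c * δ) * δ ^ 6 ≤ 1 * δ ^ 6 :=
          mul_le_mul_of_nonneg_right hδc (by positivity)
        linarith
      have a3 : 16 * ε ^ 2 * (c * (L + 1)) * lam ≤ ε ^ (3 / 2 : ℝ) * (L + 1) := by
        calc _ = (16 * ε ^ 2 * c * lam) * (L + 1) := by ring
          _ ≤ _ := mul_le_mul_of_nonneg_right a2 (by linarith)
      have a4 : (16 * ε ^ 2 * (c * (L + 1)) + (k1 + 2)) * lam =
          16 * ε ^ 2 * (c * (L + 1)) * lam + (k1 + 2) * lam := by ring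
      rw [a4] at a1
      linarith
    calc 4 * (Nat.multichoose r k : ℝ) ≤ 4 * Real.exp (k * lam) := by rw [← h1]; linarith
      _ ≤ 4 * Real.exp (ε ^ (3 / 2 : ℝ) * L + (ε ^ (3 / 2 : ℝ) + (k1 + 2) * lam)) := by
          apply mul_le_mul_of_nonneg_left _ (by norm_num)
          exact Real.exp_le_exp.2 h2
      _ = 4 * Real.exp (ε ^ (3 / 2 : ℝ) + (k1 + 2) * lam) *
          Real.exp (ε ^ (3 / 2 : ℝ) * L) := by
          rw [Real.exp_add]; ring

end Pool.Agent.Lib.MP_695920_nt.Qt
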