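import Mathlib
import Pool.Agent.Lib.MP_695920_nt.Qt.Defs

set_option autoImplicit false

open NumberField Module IsDedekindDomain
open scoped nonZeroDivisors

namespace Pool.Agent.Lib.MP_695920_nt.Qt

section Eis

variable (F : Type) [Field F] [NumberField F] [IsCyclotomicExtension {3} ℚ F]

/-- coordinates of the integers with respect to `1` and a primitive cube root of unity -/
theorem t12_coords : ∃ η : 𝓞 F, η ^ 2 + η + 1 = 0 ∧
    (∀ z : 𝓞 F, ∃ a b : ℤ, z = a + b * η) ∧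
    ∀ a b a' b' : ℤ, (a + b * η : 𝓞 F) = a' + b' * η → a = a' ∧ b = b' := by
  have hζ := IsCyclotomicExtension.zeta_spec 3 ℚ F
  have hdim : hζ.integralPowerBasis.dim = 2 := by
    rw [hζ.integralPowerBasis_dim]; decide
  let b := hζ.integralPowerBasis.basis.reindex (finCongr hdim)
  have hb0 : b 0 = 1 := by
    simp [b]
  have hb1 : b 1 = hζ.toInteger := by
    simp [b]
  have hexp : ∀ z : 𝓞 F, z = (b.repr z 0 : ℤ) + (b.repr z 1 : ℤ) * hζ.toInteger := by
    intro z
    have := b.sum_repr z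
    rw [Fin.sum_univ_two, hb0, hb1] at this
    calc z = _ := this.symm
      _ = _ := by simp [zsmul_eq_mul]
  refine ⟨hζ.toInteger, ?_, fun z => ⟨_, _, hexp z⟩, ?_⟩
  · have h3 := IsCyclotomicExtension.Rat.Three.eta_sq_add_eta_add_one hζ
    exact h3
  · intro x y x' y' h
    have h1 : x • b 0 + y • b 1 = x' • b 0 + y' • b 1 := by
      rw [hb0, hb1]
      simpa [zsmul_eq_mul] using h
    have h2 := congrArg b.repr h1
    have h3 := congrArg (fun f => f 0) h2
    have h4 := congrArg (fun f => f 1) h2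
    simp only [map_add, map_smul, Basis.repr_self, Finsupp.add_apply, Finsupp.smul_apply,
      Finsupp.single_apply] at h3 h4
    exact ⟨by simpa using h3, by simpa using h4⟩

theorem eis_place (v w : InfinitePlace F) : v = w ∧ v.IsComplex := by
  have h1 : InfinitePlace.nrRealPlaces F = 0 :=
    IsCyclotomicExtension.Rat.nrRealPlaces_eq_zero (n := 3) F (by norm_num)
  have h2 : InfinitePlace.nrComplexPlaces F = 1 := by
    have := IsCyclotomicExtension.Rat.nrComplexPlaces_eq_totient_div_two (n := 3) F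
    rw [this]; decide
  have h3 : Fintype.card (InfinitePlace F) = 1 := by
    rw [InfinitePlace.card_eq_nrRealPlaces_add_nrComplexPlaces, h1, h2]
  have h4 : Subsingleton (InfinitePlace F) := by
    rw [← Fintype.card_le_one_iff_subsingleton, h3]
  refine ⟨Subsingleton.elim _ _, ?_⟩
  have h5 : NumberField.IsTotallyComplex F :=
    IsCyclotomicExtension.Rat.isTotallyComplex (n := 3) F (by norm_num)
  exact h5.isComplex v

theorem eis_norm (v : InfinitePlace F) (z : F) : |(Algebra.norm ℚ z : ℝ)| = v z ^ 2 := by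
  have h1 := InfinitePlace.prod_eq_abs_norm z
  have h2 : (Finset.univ : Finset (InfinitePlace F)) = {v} := by
    ext w
    simp [(eis_place F w v).1]
  rw [h2, Finset.prod_singleton] at h1
  have h3 : InfinitePlace.mult v = 2 := by
    rw [InfinitePlace.mult, if_neg]
    exact InfinitePlace.not_isReal_iff_isComplex.mpr (eis_place F v v).2
  rw [h3] at h1
  rw [h1]
  push_cast
  rfl

end Eis

/-- absolute value of `a + b ω` -/
theorem t12_abs (ω : ℂ) (hω : ω ^ 2 + ω + 1 = 0) (a b : ℝ) :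
    ‖(a + b * ω : ℂ)‖ ^ 2 = a ^ 2 - a * b + b ^ 2 := by
  have hr : ω.re ^ 2 - ω.im ^ 2 + ω.re + 1 = 0 := by
    have := congrArg Complex.re hω
    simp [pow_two] at this
    linarith
  have hi : ω.im * (2 * ω.re + 1) = 0 := by
    have := congrArg Complex.im hω
    simp [pow_two] at this
    linarith
  have him : ω.im ≠ 0 := by
    intro h0
    rw [h0] at hr
    nlinarith [sq_nonneg (ω.re + 1 / 2)]
  have hre : ω.re = - 1 / 2 := by
    have := (mul_eq_zero.mp hi).resolve_left him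
    linarith
  have him2 : ω.im ^ 2 = 3 / 4 := by
    rw [hre] at hr; linarith
  rw [← Complex.normSq_eq_norm_sq, Complex.normSq_apply]
  simp only [Complex.add_re, Complex.ofReal_re, Complex.mul_re, Complex.ofReal_im, Complex.add_im,
    Complex.mul_im, zero_mul, sub_zero, add_zero, zero_add]
  rw [hre]
  linear_combination b ^ 2 * him2

theorem eis_count : ∃ C : ℝ, ∀ (F : Type) [Field F] [NumberField F]
    [IsCyclotomicExtension {3} ℚ F] (v : InfinitePlace F) (B : ℝ), 0 ≤ B →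
      {z : 𝓞 F | v (z : F) ≤ B}.Finite ∧ ({z : 𝓞 F | v (z : F) ≤ B}.ncard : ℝ) ≤
        C * (B + 1) ^ 2 := by
  refine ⟨16, ?_⟩
  intro F _ _ _ v B hB
  obtain ⟨η, hη, hex, huniq⟩ := t12_coords F
  choose a b hab using hex
  set N : ℤ := ⌊2 * B⌋ with hN
  have hN0 : 0 ≤ N := Int.floor_nonneg.mpr (by linarith)
  have hNB : (N : ℝ) ≤ 2 * B := Int.floor_le _
  -- the coordinates are bounded
  have hbd : ∀ z : 𝓞 F, v (z : F) ≤ B → |(a z : ℝ)| ≤ 2 * B ∧ |(b z : ℝ)| ≤ 2 * B := by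
    intro z hz
    have h1 : v (z : F) = ‖v.embedding (z : F)‖ := (InfinitePlace.norm_embedding_eq v _).symm
    have h2 : v.embedding (z : F) = ((a z : ℝ) : ℂ) + ((b z : ℝ) : ℂ) * v.embedding (η : F) := by
      have h3 : (z : F) = (a z : F) + (b z : F) * (η : F) := by
        have := congrArg (algebraMap (𝓞 F) F) (hab z)
        simpa using this
      rw [h3]
      simp
    have h4 : (v.embedding (η : F)) ^ 2 + v.embedding (η : F) + 1 = 0 := by
      have := congrArg (fun x : 𝓞 F => v.embedding (x : F)) hη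
      simpa using this
    have h5 := t12_abs _ h4 (a z) (b z)
    rw [← h2, ← h1] at h5
    have h6 : v (z : F) ^ 2 ≤ B ^ 2 := pow_le_pow_left₀ (by positivity) hz 2
    constructor
    · apply abs_le_of_sq_le_sq _ (by linarith)
      nlinarith [sq_nonneg ((b z : ℝ) - a z / 2)]
    · apply abs_le_of_sq_le_sq _ (by linarith)
      nlinarith [sq_nonneg ((a z : ℝ) - b z / 2)]
  set T : Finset (ℤ × ℤ) := Finset.Icc (-N) N ×ˢ Finset.Icc (-N) N with hT
  have hmaps : ∀ z ∈ {z : 𝓞 F | v (z : F) ≤ B}, (a z, b z) ∈ (T : Set (ℤ × ℤ)) := by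
    intro z hz
    obtain ⟨h1, h2⟩ := hbd z hz
    rw [abs_le] at h1 h2
    have hc : ∀ x : ℤ, -(2 * B) ≤ (x : ℝ) → (x : ℝ) ≤ 2 * B → -N ≤ x ∧ x ≤ N := by
      intro x hx1 hx2
      refine ⟨?_, Int.le_floor.mpr hx2⟩
      have : -x ≤ N := Int.le_floor.mpr (by push_cast; linarith)
      linarith
    simp only [hT, Finset.coe_product, Set.mem_prod, Finset.mem_coe, Finset.mem_Icc]
    exact ⟨hc _ h1.1 h1.2, hc _ h2.1 h2.2⟩
  have hinj : Set.InjOn (fun z : 𝓞 F => (a z, b z)) {z : 𝓞 F | v (z : F) ≤ B} := by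
    intro z _ z' _ h
    simp only [Prod.mk.injEq] at h
    rw [hab z, hab z', h.1, h.2]
  refine ⟨Set.Finite.of_injOn hmaps hinj T.finite_toSet, ?_⟩
  have h1 : ({z : 𝓞 F | v (z : F) ≤ B}).ncard ≤ (T : Set (ℤ × ℤ)).ncard :=
    Set.ncard_le_ncard_of_injOn _ hmaps hinj T.finite_toSet
  rw [Set.ncard_coe_finset] at h1
  have h2 : T.card = (2 * N + 1).toNat ^ 2 := by
    rw [hT, Finset.card_product, Int.card_Icc, pow_two]
    congr 2 <;> omega
  have h3 : ((T.card : ℕ) : ℝ) = (2 * N + 1 : ℝ) ^ 2 := by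
    rw [h2]
    push_cast
    congr 1
    have : (((2 * N + 1).toNat : ℤ) : ℝ) = ((2 * N + 1 : ℤ) : ℝ) := by
      rw [Int.toNat_of_nonneg (by omega)]
    push_cast at this
    exact this
  calc (({z : 𝓞 F | v (z : F) ≤ B}.ncard : ℕ) : ℝ) ≤ (T.card : ℝ) := by exact_mod_cast h1
    _ = (2 * N + 1 : ℝ) ^ 2 := h3
    _ ≤ (4 * (B + 1)) ^ 2 := by
        have : (0 : ℝ) ≤ N := by exact_mod_cast hN0
        apply pow_le_pow_left₀ (by linarith)
        linarith
    _ = 16 * (B + 1) ^ 2 := by ring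

/-- squares in `ZMod p [ω]` -/
def t12_sq {R : Type} [CommRing R] (y : R × R) : R × R :=
  (y.1 ^ 2 - y.2 ^ 2, 2 * y.1 * y.2 - y.2 ^ 2)

theorem t12_pm {R : Type} [Field R] (h2 : (2 : R) ≠ 0) (h3 : (3 : R) ≠ 0) {y z : R × R}
    (h : t12_sq y = t12_sq z)
    (hn : y.1 ^ 2 - y.1 * y.2 + y.2 ^ 2 = z.1 ^ 2 - z.1 * z.2 + z.2 ^ 2) : z = y ∨ z = -y := by
  obtain ⟨a, b⟩ := y
  obtain ⟨c, d⟩ := z
  simp only [t12_sq, Prod.mk.injEq] at h hn
  obtain ⟨e1, e2⟩ := h
  have hbd : (b - d) * (b + d) = 0 := by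
    have : (3 : R) * ((b - d) * (b + d)) = 0 := by
      linear_combination 2 * hn - 2 * e1 + e2
    exact (mul_eq_zero.mp this).resolve_left h3
  have hac : (a - c) * (a + c) = 0 := by
    linear_combination e1 + hbd
  have habcd : a * b = c * d := by
    have : (2 : R) * (a * b - c * d) = 0 := by linear_combination e2 + hbd
    have := (mul_eq_zero.mp this).resolve_left h2
    linear_combination this
  simp only [Prod.mk.injEq, Prod.neg_mk]
  rcases mul_eq_zero.mp hbd with hb | hb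
  · have hb' : b = d := by linear_combination hb
    by_cases hb0 : b = 0
    · rcases mul_eq_zero.mp hac with ha | ha
      · left; exact ⟨by linear_combination -ha, hb'.symm⟩
      · right; exact ⟨by linear_combination ha, by rw [← hb', hb0]; simp⟩
    · left
      refine ⟨?_, hb'.symm⟩
      rw [← hb'] at habcd
      exact (mul_right_cancel₀ hb0 habcd).symm
  · have hb' : d = -b := by linear_combination hb
    by_cases hb0 : b = 0
    · rcases mul_eq_zero.mp hac with ha | ha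
      · left; exact ⟨by linear_combination -ha, by rw [hb', hb0]; simp⟩
      · right; exact ⟨by linear_combination ha, hb'⟩
    · right
      refine ⟨?_, hb'⟩
      rw [hb'] at habcd
      apply mul_right_cancel₀ hb0
      linear_combination habcd

theorem t12_norm {R : Type} [Field R] {y z : R × R} (h : t12_sq y = t12_sq z) :
    y.1 ^ 2 - y.1 * y.2 + y.2 ^ 2 = z.1 ^ 2 - z.1 * z.2 + z.2 ^ 2 ∨
      y.1 ^ 2 - y.1 * y.2 + y.2 ^ 2 = - (z.1 ^ 2 - z.1 * z.2 + z.2 ^ 2) := by
  obtain ⟨a, b⟩ := y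
  obtain ⟨c, d⟩ := z
  simp only [t12_sq, Prod.mk.injEq] at h ⊢
  obtain ⟨e1, e2⟩ := h
  apply sq_eq_sq_iff_eq_or_eq_neg.mp
  have h1 : ∀ x y : R, (x ^ 2 - x * y + y ^ 2) ^ 2 = (x ^ 2 - y ^ 2) ^ 2 -
      (x ^ 2 - y ^ 2) * (2 * x * y - y ^ 2) + (2 * x * y - y ^ 2) ^ 2 := by
    intro x y; ring
  rw [h1, h1, e1, e2]

/-- the fibres of the squaring map have at most four elements -/
theorem t12_fibre {R : Type} [Field R] [Fintype R] [DecidableEq R] (h2 : (2 : R) ≠ 0)
    (h3 : (3 : R) ≠ 0) (c : R × R) :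
    (Finset.univ.filter (fun y : R × R => t12_sq y = c)).card ≤ 4 := by
  set S := Finset.univ.filter (fun y : R × R => t12_sq y = c) with hS
  rcases S.eq_empty_or_nonempty with h0 | ⟨y, hy⟩
  · rw [h0]; simp
  have hy' : t12_sq y = c := by simpa [hS] using hy
  by_cases hz : ∃ z ∈ S, z.1 ^ 2 - z.1 * z.2 + z.2 ^ 2 ≠ y.1 ^ 2 - y.1 * y.2 + y.2 ^ 2
  · obtain ⟨z, hz, hne⟩ := hz
    have hz' : t12_sq z = c := by simpa [hS] using hz
    have hsub : S ⊆ {y, -y, z, -z} := by
      intro x hx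
      have hx' : t12_sq x = c := by simpa [hS] using hx
      simp only [Finset.mem_insert, Finset.mem_singleton]
      rcases t12_norm (hx'.trans hy'.symm) with h4 | h4
      · rcases t12_pm h2 h3 (hy'.trans hx'.symm) h4.symm with h5 | h5
        · left; exact h5
        · right; left; exact h5
      · have h6 : z.1 ^ 2 - z.1 * z.2 + z.2 ^ 2 = x.1 ^ 2 - x.1 * x.2 + x.2 ^ 2 := by
          rcases t12_norm (hz'.trans hy'.symm) with h7 | h7
          · exact absurd h7 hne
          · rw [h7, h4]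
        rcases t12_pm h2 h3 (hz'.trans hx'.symm) h6 with h5 | h5
        · right; right; left; exact h5
        · right; right; right; exact h5
    exact (Finset.card_le_card hsub).trans Finset.card_le_four
  · push Not at hz
    have hsub : S ⊆ {y, -y} := by
      intro x hx
      have hx' : t12_sq x = c := by simpa [hS] using hx
      simp only [Finset.mem_insert, Finset.mem_singleton]
      exact t12_pm h2 h3 (hy'.trans hx'.symm) (hz x hx).symm
    exact (Finset.card_le_card hsub).trans (Finset.card_le_two.trans (by norm_num))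

theorem t12_index {R : Type} [Field R] [Fintype R] [DecidableEq R] (h2 : (2 : R) ≠ 0)
    (h3 : (3 : R) ≠ 0) : ∃ f : R × R → Fin 4, ∀ y z, t12_sq y = t12_sq z → f y = f z → y = z := by
  have h : ∀ c : R × R, Nonempty ({y : R × R // t12_sq y = c} ↪ Fin 4) := by
    intro c
    apply Function.Embedding.nonempty_of_card_le
    rw [Fintype.card_fin, Fintype.card_subtype]
    exact t12_fibre h2 h3 c
  let e : ∀ c : R × R, ({y : R × R // t12_sq y = c} ↪ Fin 4) := fun c => (h c).some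
  refine ⟨fun y => e (t12_sq y) ⟨y, rfl⟩, ?_⟩
  intro y z hyz hf
  have key : ∀ (c : R × R) (hy : t12_sq y = c), e (t12_sq y) ⟨y, rfl⟩ = e c ⟨y, hy⟩ := by
    intro c hy
    subst hy
    rfl
  simp only at hf
  rw [key _ hyz] at hf
  have := (e (t12_sq z)).injective hf
  exact congrArg Subtype.val this

/-- the points of `y ^ 2 = x ^ 3 + k` fall in at most `4 p ^ 2` residue classes mod `p` -/
theorem eis_residues (F : Type) [Field F] [NumberField F] [IsCyclotomicExtension {3} ℚ F]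
    (p : ℕ) (hp : p.Prime) (hp5 : 5 ≤ p) (k : 𝓞 F) :
    ∃ c : 𝓞 F × 𝓞 F → Fin (4 * p ^ 2), ∀ P Q : 𝓞 F × 𝓞 F, P.2 ^ 2 = P.1 ^ 3 + k →
      Q.2 ^ 2 = Q.1 ^ 3 + k → c P = c Q → (p : 𝓞 F) ∣ P.1 - Q.1 ∧ (p : 𝓞 F) ∣ P.2 - Q.2 := by
  have : Fact p.Prime := ⟨hp⟩
  obtain ⟨η, hη, hex, huniq⟩ := t12_coords F
  choose a b hab using hex
  have h2 : (2 : ZMod p) ≠ 0 := by
    intro h
    have h' : ((2 : ℕ) : ZMod p) = 0 := by exact_mod_cast h
    rw [ZMod.natCast_eq_zero_iff] at h'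
    have := Nat.le_of_dvd (by norm_num) h'
    omega
  have h3 : (3 : ZMod p) ≠ 0 := by
    intro h
    have h' : ((3 : ℕ) : ZMod p) = 0 := by exact_mod_cast h
    rw [ZMod.natCast_eq_zero_iff] at h'
    have := Nat.le_of_dvd (by norm_num) h'
    omega
  obtain ⟨f, hf⟩ := t12_index h2 h3
  have hcard : Fintype.card (ZMod p × ZMod p × Fin 4) = 4 * p ^ 2 := by
    rw [Fintype.card_prod, Fintype.card_prod, ZMod.card, Fintype.card_fin]
    ring
  let E := Fintype.equivFinOfCardEq hcard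
  have hdvd : ∀ x y : 𝓞 F, (a x : ZMod p) = a y → (b x : ZMod p) = b y → (p : 𝓞 F) ∣ x - y := by
    intro x y h1 h2
    rw [ZMod.intCast_eq_intCast_iff_dvd_sub] at h1 h2
    obtain ⟨s, hs⟩ := h1
    obtain ⟨t, ht⟩ := h2
    refine ⟨-(s + t * η), ?_⟩
    have hs' : ((a y : 𝓞 F) - a x) = p * s := by exact_mod_cast congrArg (Int.cast (R := 𝓞 F)) hs
    have ht' : ((b y : 𝓞 F) - b x) = p * t := by exact_mod_cast congrArg (Int.cast (R := 𝓞 F)) ht
    rw [hab x, hab y]
    linear_combination -hs' - η * ht'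
  refine ⟨fun P => E ((a P.1 : ZMod p), (b P.1 : ZMod p), f ((a P.2 : ZMod p), (b P.2 : ZMod p))),
    ?_⟩
  intro P Q hP hQ hc
  have hc' := E.injective hc
  simp only [Prod.mk.injEq] at hc'
  obtain ⟨c1, c2, c3⟩ := hc'
  have d1 : (p : 𝓞 F) ∣ P.1 - Q.1 := hdvd _ _ c1 c2
  have d3 : (p : 𝓞 F) ∣ P.2 ^ 2 - Q.2 ^ 2 := by
    have : P.2 ^ 2 - Q.2 ^ 2 = (P.1 - Q.1) * (P.1 ^ 2 + P.1 * Q.1 + Q.1 ^ 2) := by
      rw [hP, hQ]; ring
    rw [this]
    exact Dvd.dvd.mul_right d1 _
  obtain ⟨w, hw⟩ := d3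
  have hsq : t12_sq ((a P.2 : ZMod p), (b P.2 : ZMod p)) =
      t12_sq ((a Q.2 : ZMod p), (b Q.2 : ZMod p)) := by
    have h4 : (((a P.2 ^ 2 - b P.2 ^ 2 - (a Q.2 ^ 2 - b Q.2 ^ 2) : ℤ) : 𝓞 F) +
        ((2 * a P.2 * b P.2 - b P.2 ^ 2 - (2 * a Q.2 * b Q.2 - b Q.2 ^ 2) : ℤ) : 𝓞 F) * η) =
        ((p * a w : ℤ) : 𝓞 F) + ((p * b w : ℤ) : 𝓞 F) * η := by
      have h5 : ((p * a w : ℤ) : 𝓞 F) + ((p * b w : ℤ) : 𝓞 F) * η = p * w := by
        conv_rhs => rw [hab w]
        push_cast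
        ring
      rw [h5, ← hw]
      conv_rhs => rw [hab P.2, hab Q.2]
      push_cast
      linear_combination -((b P.2 : 𝓞 F) ^ 2 - (b Q.2 : 𝓞 F) ^ 2) * hη
    obtain ⟨h5, h6⟩ := huniq _ _ _ _ h4
    have h7 := congrArg (Int.cast (R := ZMod p)) h5
    have h8 := congrArg (Int.cast (R := ZMod p)) h6
    push_cast at h7 h8
    simp only [CharP.cast_eq_zero, zero_mul] at h7 h8
    simp only [t12_sq, Prod.mk.injEq]
    exact ⟨by linear_combination h7, by linear_combination h8⟩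
  have h9 := hf _ _ hsq c3
  simp only [Prod.mk.injEq] at h9
  exact ⟨d1, hdvd _ _ h9.1 h9.2⟩

end Pool.Agent.Lib.MP_695920_nt.Qt
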