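import Mathlib
import Pool.Agent.Lib.MP_695920_nt.Qt.Defs

set_option autoImplicit false

/-!
# The canonical height and its Gram matrix (task T3)
-/

open Filter Topology
open scoped MatrixOrder

namespace Pool.Agent.Lib.MP_695920_nt.Qt

/-- Tate's limit. -/
private theorem t3_tate {G : Type} [AddCommGroup G] (h : G → ℝ) (C : ℝ)
    (hpar : ∀ x y, |h (x + y) + h (x - y) - 2 * h x - 2 * h y| ≤ C) :
    ∃ q : G → ℝ, (∀ x, |h x - q x| ≤ C / 2) ∧
      (∀ x y, q (x + y) + q (x - y) = 2 * q x + 2 * q y) ∧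
      ((∀ x, 0 ≤ h x) → ∀ x, 0 ≤ q x) := by
  have h00 : |h 0| ≤ C / 2 := by
    have := hpar 0 0
    rw [add_zero, sub_zero] at this
    rw [abs_le] at this ⊢
    constructor <;> linarith [this.1, this.2]
  have hdbl : ∀ x, |h (2 • x) - 4 * h x| ≤ 3 * C / 2 := by
    intro x
    have := hpar x x
    rw [sub_self, ← two_nsmul] at this
    rw [abs_le] at this h00 ⊢
    constructor <;> linarith [this.1, this.2, h00.1, h00.2]
  have hstep : ∀ (x : G) (n : ℕ), dist (h (2 ^ n • x) / 4 ^ n) (h (2 ^ (n + 1) • x) / 4 ^ (n + 1)) ≤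
      (3 * C / 8) * (1 / 4) ^ n := by
    intro x n
    have h1 := hdbl (2 ^ n • x)
    rw [← mul_nsmul', ← pow_succ'] at h1
    rw [Real.dist_eq, abs_sub_comm]
    have h4 : (0 : ℝ) < 4 ^ (n + 1) := by positivity
    have e : h (2 ^ (n + 1) • x) / 4 ^ (n + 1) - h (2 ^ n • x) / 4 ^ n =
        (h (2 ^ (n + 1) • x) - 4 * h (2 ^ n • x)) / 4 ^ (n + 1) := by
      field_simp
      ring
    rw [e, abs_div, abs_of_pos h4, div_le_iff₀ h4]
    have e2 : 3 * C / 8 * (1 / 4) ^ n * 4 ^ (n + 1) = 3 * C / 2 := by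
      rw [pow_succ, one_div, inv_pow]
      field_simp
      ring
    rw [e2]
    exact h1
  have hlim : ∀ x : G, ∃ l : ℝ, Tendsto (fun n : ℕ => h (2 ^ n • x) / 4 ^ n) atTop (𝓝 l) :=
    fun x => cauchySeq_tendsto_of_complete
      (cauchySeq_of_le_geometric (1 / 4) (3 * C / 8) (by norm_num) (hstep x))
  choose q hq using hlim
  refine ⟨q, ?_, ?_, ?_⟩
  · intro x
    have := dist_le_of_le_geometric_of_tendsto₀ (1 / 4) (3 * C / 8) (by norm_num) (hstep x) (hq x)
    rw [Real.dist_eq] at this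
    simp only [pow_zero, one_smul, div_one] at this
    calc |h x - q x| ≤ _ := this
      _ = C / 2 := by ring
  · intro x y
    have h1 : Tendsto (fun n : ℕ => h (2 ^ n • (x + y)) / 4 ^ n + h (2 ^ n • (x - y)) / 4 ^ n -
        2 * (h (2 ^ n • x) / 4 ^ n) - 2 * (h (2 ^ n • y) / 4 ^ n)) atTop
        (𝓝 (q (x + y) + q (x - y) - 2 * q x - 2 * q y)) :=
      (((hq _).add (hq _)).sub ((hq _).const_mul 2)).sub ((hq _).const_mul 2)
    have h2 : Tendsto (fun n : ℕ => h (2 ^ n • (x + y)) / 4 ^ n + h (2 ^ n • (x - y)) / 4 ^ n -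
        2 * (h (2 ^ n • x) / 4 ^ n) - 2 * (h (2 ^ n • y) / 4 ^ n)) atTop (𝓝 0) := by
      have hC : Tendsto (fun n : ℕ => C * (1 / 4 : ℝ) ^ n) atTop (𝓝 0) := by
        have := (tendsto_pow_atTop_nhds_zero_of_lt_one (r := (1 / 4 : ℝ)) (by norm_num)
          (by norm_num)).const_mul C
        simpa using this
      refine squeeze_zero_norm (fun n => ?_) hC
      rw [Real.norm_eq_abs]
      have h4 : (0 : ℝ) < 4 ^ n := by positivity
      have e : h (2 ^ n • (x + y)) / 4 ^ n + h (2 ^ n • (x - y)) / 4 ^ n -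
          2 * (h (2 ^ n • x) / 4 ^ n) - 2 * (h (2 ^ n • y) / 4 ^ n) =
          (h (2 ^ n • x + 2 ^ n • y) + h (2 ^ n • x - 2 ^ n • y) - 2 * h (2 ^ n • x) -
            2 * h (2 ^ n • y)) / 4 ^ n := by
        rw [nsmul_add, nsmul_sub]
        ring
      rw [e, abs_div, abs_of_pos h4, div_le_iff₀ h4]
      have e2 : C * (1 / 4) ^ n * 4 ^ n = C := by
        rw [one_div, inv_pow]
        field_simp
      rw [e2]
      exact hpar _ _
    have := tendsto_nhds_unique h1 h2
    linarith
  · intro h0 x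
    exact ge_of_tendsto' (hq x) fun n => div_nonneg (h0 _) (by positivity)

/-- The biadditive form of a quadratic function. -/
private theorem t3_form {G : Type} [AddCommGroup G] (q : G → ℝ)
    (hq : ∀ x y, q (x + y) + q (x - y) = 2 * q x + 2 * q y) :
    ∃ B : G →+ G →+ ℝ, (∀ x y, B x y = B y x) ∧ ∀ x, B x x = q x := by
  have q0 : q 0 = 0 := by
    have := hq 0 0
    rw [add_zero, sub_zero] at this
    linarith
  have hadd : ∀ x y z, q (x + y + z) = q (x + y) + q (y + z) + q (x + z) - q x - q y - q z := by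
    intro x y z
    have a1 := hq (x + y) z
    have a2 := hq (x + z) y
    have a3 := hq (y + z) x
    have a4 := hq x (y - z)
    have a5 := hq y (x - z)
    have a6 := hq z (x - y)
    have a7 := hq y z
    have a8 := hq x z
    have a9 := hq x y
    rw [show x + z + y = x + y + z by abel] at a2
    rw [show y + z + x = x + y + z by abel] at a3
    rw [show x + (y - z) = x + y - z by abel, show x - (y - z) = x + z - y by abel] at a4
    rw [show y + (x - z) = x + y - z by abel, show y - (x - z) = y + z - x by abel] at a5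
    rw [show z + (x - y) = x + z - y by abel, show z - (x - y) = y + z - x by abel] at a6
    linarith
  let b : G → G → ℝ := fun x y => (q (x + y) - q x - q y) / 2
  have hb1 : ∀ x y z, b x (y + z) = b x y + b x z := by
    intro x y z
    have := hadd x y z
    simp only [b]
    rw [← add_assoc, this]
    ring
  have hb2 : ∀ x y, b x y = b y x := by
    intro x y
    simp only [b]
    rw [add_comm x y]
    ring
  refine ⟨AddMonoidHom.mk' (fun x => AddMonoidHom.mk' (b x) (hb1 x)) ?_, ?_, ?_⟩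
  · intro x y
    ext z
    change b (x + y) z = b x z + b y z
    rw [hb2, hb1, hb2 z x, hb2 z y]
  · intro x y
    exact hb2 x y
  · intro x
    change b x x = q x
    have := hq x x
    rw [sub_self, q0] at this
    simp only [b]
    linarith

/-- A finitely generated abelian group with `[G : 3 G] ≤ 3 ^ r` is generated by `r` elements
up to torsion. -/
private theorem t3_gen {G : Type} [AddCommGroup G] [Module.Finite ℤ G] (r : ℕ)
    (hfin : (nsmulAddMonoidHom (α := G) 3).range.index ≠ 0)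
    (hr : (nsmulAddMonoidHom (α := G) 3).range.index ≤ 3 ^ r) :
    ∃ e : Fin r → G, ∀ x : G, ∃ c : Fin r → ℤ, ∃ n : ℕ, n ≠ 0 ∧
      n • (x - ∑ a, c a • e a) = 0 := by
  set T := Submodule.torsion ℤ G
  let s := Module.finrank ℤ (G ⧸ T)
  let b : Module.Basis (Fin s) ℤ (G ⧸ T) := Module.finBasis ℤ (G ⧸ T)
  have hs : s ≤ r := by
    let φ : G →+ (Fin s → ZMod 3) :=
      { toFun := fun x i => ((b.repr (T.mkQ x) i : ℤ) : ZMod 3)
        map_zero' := by
          funext i
          simp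
        map_add' := by
          intro x y
          funext i
          simp }
    have hφ : Function.Surjective φ := by
      intro v
      obtain ⟨x, hx⟩ := T.mkQ_surjective (∑ i, ((v i).val : ℤ) • b i)
      refine ⟨x, ?_⟩
      funext i
      change ((b.repr (T.mkQ x) i : ℤ) : ZMod 3) = v i
      rw [hx, b.repr_sum_self]
      simp
    have hker : (nsmulAddMonoidHom (α := G) 3).range ≤ φ.ker := by
      rintro _ ⟨x, rfl⟩
      rw [AddMonoidHom.mem_ker, nsmulAddMonoidHom_apply, map_nsmul]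
      funext i
      simp only [Pi.smul_apply, Pi.zero_apply, nsmul_eq_mul]
      rw [show ((3 : ℕ) : ZMod 3) = 0 from rfl, zero_mul]
    have h1 : φ.ker.index = 3 ^ s := by
      rw [AddSubgroup.index_ker, AddMonoidHom.range_eq_top.mpr hφ, AddSubgroup.card_top]
      simp
    have h2 := Nat.le_of_dvd (Nat.pos_of_ne_zero hfin) (AddSubgroup.index_dvd_of_le hker)
    rw [h1] at h2
    exact (Nat.pow_le_pow_iff_right (by norm_num)).mp (h2.trans hr)
  obtain ⟨e, he⟩ : ∃ e : Fin r → G, ∀ i : Fin s, T.mkQ (e (Fin.castLE hs i)) = b i := by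
    have hsurj : Function.Surjective T.mkQ := T.mkQ_surjective
    choose f hf using hsurj
    refine ⟨fun a => if h : a.1 < s then f (b ⟨a.1, h⟩) else 0, fun i => ?_⟩
    simp [hf]
  refine ⟨e, fun x => ?_⟩
  have hspan : Submodule.span ℤ (Set.range (fun a => T.mkQ (e a))) = ⊤ := by
    rw [eq_top_iff, ← b.span_eq]
    refine Submodule.span_mono ?_
    rintro _ ⟨i, rfl⟩
    exact ⟨Fin.castLE hs i, he i⟩
  have hx : T.mkQ x ∈ Submodule.span ℤ (Set.range (fun a => T.mkQ (e a))) := by
    rw [hspan]; trivial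
  rw [Submodule.mem_span_range_iff_exists_fun] at hx
  obtain ⟨c, hc⟩ := hx
  refine ⟨c, ?_⟩
  have h1 : T.mkQ (x - ∑ a, c a • e a) = 0 := by
    rw [map_sub, map_sum, sub_eq_zero, ← hc]
    simp
  rw [Submodule.mkQ_apply, Submodule.Quotient.mk_eq_zero, Submodule.mem_torsion_iff] at h1
  obtain ⟨⟨n, hn⟩, h2⟩ := h1
  refine ⟨n.natAbs, ?_, ?_⟩
  · exact Int.natAbs_ne_zero.mpr (nonZeroDivisors.ne_zero hn)
  · exact natAbs_nsmul_eq_zero.mpr h2

/-- Vectors realising a positive form. -/
private theorem t3_psd {G : Type} [AddCommGroup G] (B : G →+ G →+ ℝ) (hsymm : ∀ x y, B x y = B y x)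
    (hpos : ∀ x, 0 ≤ B x x) {r : ℕ} (e : Fin r → G) :
    ∃ W : Matrix (Fin r) (Fin r) ℝ, ∀ a b, B (e a) (e b) = ∑ i, W i a * W i b := by
  let A : Matrix (Fin r) (Fin r) ℝ := Matrix.of fun a b => B (e a) (e b)
  have hA : A.PosSemidef := by
    refine Matrix.PosSemidef.of_dotProduct_mulVec_nonneg ?_ ?_
    · ext a b
      simp only [A, Matrix.conjTranspose_apply, Matrix.of_apply, star_trivial]
      exact hsymm _ _
    · intro v
      have hform : ∀ u : Fin r → ℝ, star u ⬝ᵥ (A.mulVec u) =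
          ∑ a, ∑ b, u a * u b * B (e a) (e b) := by
        intro u
        simp only [dotProduct, Matrix.mulVec, Finset.mul_sum, A, Matrix.of_apply, star_trivial]
        exact Finset.sum_congr rfl fun a _ => Finset.sum_congr rfl fun b _ => by ring
      rw [hform]
      -- integer vectors
      have hint : ∀ m : Fin r → ℤ, 0 ≤ ∑ a, ∑ b, (m a : ℝ) * (m b : ℝ) * B (e a) (e b) := by
        intro m
        have := hpos (∑ a, m a • e a)
        rw [map_sum, map_sum] at this
        refine this.trans_eq ?_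
        rw [Finset.sum_comm]
        refine Finset.sum_congr rfl fun b _ => ?_
        rw [AddMonoidHom.finsetSum_apply]
        refine Finset.sum_congr rfl fun a _ => ?_
        rw [map_zsmul, map_zsmul, AddMonoidHom.zsmul_apply]
        simp only [zsmul_eq_mul]
        ring
      have hlim : ∀ a, Tendsto (fun n : ℕ => ((⌊(n : ℝ) * v a⌋ : ℤ) : ℝ) / n) atTop (𝓝 (v a)) := by
        intro a
        have h1 : Tendsto (fun n : ℕ => v a - 1 / (n : ℝ)) atTop (𝓝 (v a)) := by
          have := (tendsto_const_nhds (x := v a)).sub tendsto_one_div_atTop_nhds_zero_nat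
          simpa using this
        refine tendsto_of_tendsto_of_tendsto_of_le_of_le' h1 tendsto_const_nhds ?_ ?_
        · filter_upwards [eventually_gt_atTop 0] with n hn
          have hn' : (0 : ℝ) < n := Nat.cast_pos.mpr hn
          rw [le_div_iff₀ hn', sub_mul, one_div, inv_mul_cancel₀ hn'.ne', mul_comm]
          linarith [Int.lt_floor_add_one ((n : ℝ) * v a)]
        · filter_upwards [eventually_gt_atTop 0] with n hn
          have hn' : (0 : ℝ) < n := Nat.cast_pos.mpr hn
          rw [div_le_iff₀ hn', mul_comm]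
          exact Int.floor_le _
      have h1 : Tendsto (fun n : ℕ => ∑ a, ∑ b, (((⌊(n : ℝ) * v a⌋ : ℤ) : ℝ) / n) *
          (((⌊(n : ℝ) * v b⌋ : ℤ) : ℝ) / n) * B (e a) (e b)) atTop
          (𝓝 (∑ a, ∑ b, v a * v b * B (e a) (e b))) :=
        tendsto_finsetSum _ fun a _ => tendsto_finsetSum _ fun b _ =>
          ((hlim a).mul (hlim b)).mul_const _
      refine ge_of_tendsto' h1 fun n => ?_
      have h2 := hint fun a => ⌊(n : ℝ) * v a⌋
      have e3 : ∑ a, ∑ b, (((⌊(n : ℝ) * v a⌋ : ℤ) : ℝ) / n) *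
          (((⌊(n : ℝ) * v b⌋ : ℤ) : ℝ) / n) * B (e a) (e b) =
          (∑ a, ∑ b, ((⌊(n : ℝ) * v a⌋ : ℤ) : ℝ) *
          ((⌊(n : ℝ) * v b⌋ : ℤ) : ℝ) * B (e a) (e b)) / (n : ℝ) ^ 2 := by
        rw [Finset.sum_div]
        refine Finset.sum_congr rfl fun a _ => ?_
        rw [Finset.sum_div]
        refine Finset.sum_congr rfl fun b _ => ?_
        ring
      rw [e3]
      positivity
  obtain ⟨W, hW⟩ := CStarAlgebra.nonneg_iff_eq_star_mul_self.mp hA.nonneg
  refine ⟨W, fun a b => ?_⟩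
  have := congrFun (congrFun hW a) b
  simp only [A, Matrix.of_apply] at this
  rw [this, Matrix.mul_apply]
  simp

theorem gram_of_height {G : Type} [AddCommGroup G] (h : G → ℝ) (C : ℝ) (h0 : ∀ x, 0 ≤ h x)
    (hpar : ∀ x y, |h (x + y) + h (x - y) - 2 * h x - 2 * h y| ≤ C)
    (hN : ∀ b : ℝ, {x | h x ≤ b}.Finite) (r : ℕ)
    (hfin : (nsmulAddMonoidHom (α := G) 3).range.index ≠ 0)
    (hr : (nsmulAddMonoidHom (α := G) 3).range.index ≤ 3 ^ r) (M : ℕ) (x : Fin M → G) :
    ∃ w : Fin M → Fin r → ℝ, (∀ i, |h (x i) - ∑ a, w i a ^ 2| ≤ C) ∧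
      ∀ i j, |h (x i + x j) - ∑ a, (w i a + w j a) ^ 2| ≤ C := by
  obtain ⟨q, hq1, hq2, hq3⟩ := t3_tate h C hpar
  obtain ⟨B, hB1, hB2⟩ := t3_form q hq2
  have hC : 0 ≤ C := (abs_nonneg _).trans (hpar 0 0)
  have hq9 : ∀ x, q (3 • x) = 9 * q x := by
    intro x
    rw [← hB2, ← hB2]
    simp only [map_nsmul, AddMonoidHom.nsmul_apply, nsmul_eq_mul]
    push_cast
    ring
  have : Northcott h := ⟨hN⟩
  have hfg : AddGroup.FG G := by
    refine AddCommGroup.fg_of_descent (n := 3) (h := h) (a := 2) (b := 9) (c₀ := 5 * C)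
      (c := fun g => 2 * h g + C) (by norm_num) (by norm_num) ⟨hfin⟩ ?_ ?_
    · intro g x
      have h1 := hpar (g + x) g
      have h2 := h0 (g + x + g)
      rw [add_sub_cancel_left] at h1
      have h3 := (abs_le.mp h1).2
      linarith
    · intro x
      have h1 := abs_le.mp (hq1 x)
      have h2 := abs_le.mp (hq1 (3 • x))
      rw [hq9] at h2
      linarith [h1.1, h1.2, h2.1, h2.2]
  have : Module.Finite ℤ G := Module.Finite.iff_addGroup_fg.mpr hfg
  obtain ⟨e, he⟩ := t3_gen r hfin hr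
  obtain ⟨W, hW⟩ := t3_psd B hB1 (fun x => by rw [hB2]; exact hq3 h0 x) e
  choose c n hn hc using he
  -- the vectors
  have hB0 : ∀ x y, B (x - ∑ a, c x a • e a) y = 0 := by
    intro x y
    have h1 : B (n x • (x - ∑ a, c x a • e a)) y = 0 := by rw [hc, map_zero]; rfl
    rw [map_nsmul, AddMonoidHom.nsmul_apply, nsmul_eq_mul] at h1
    exact (mul_eq_zero.mp h1).resolve_left (Nat.cast_ne_zero.mpr (hn x))
  have hBsum : ∀ x y, B x y = ∑ a, (c x a : ℝ) * B (e a) y := by
    intro x y
    have h1 := hB0 x y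
    rw [map_sub, AddMonoidHom.sub_apply, sub_eq_zero] at h1
    rw [h1, map_sum, AddMonoidHom.finsetSum_apply]
    refine Finset.sum_congr rfl fun a _ => ?_
    rw [map_zsmul, AddMonoidHom.zsmul_apply, zsmul_eq_mul]
  have hBB : ∀ x y, B x y = ∑ i, (∑ a, W i a * (c x a : ℝ)) * (∑ b, W i b * (c y b : ℝ)) := by
    intro x y
    rw [hBsum]
    have h1 : ∀ a, B (e a) y = ∑ b, (c y b : ℝ) * ∑ i, W i a * W i b := by
      intro a
      rw [hB1, hBsum]
      refine Finset.sum_congr rfl fun b _ => ?_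
      rw [hB1, hW]
    simp_rw [h1, Finset.sum_mul_sum, Finset.mul_sum]
    calc ∑ a, ∑ b, ∑ i, (c x a : ℝ) * ((c y b : ℝ) * (W i a * W i b))
        = ∑ a, ∑ i, ∑ b, (c x a : ℝ) * ((c y b : ℝ) * (W i a * W i b)) :=
          Finset.sum_congr rfl fun a _ => Finset.sum_comm
      _ = ∑ i, ∑ a, ∑ b, (c x a : ℝ) * ((c y b : ℝ) * (W i a * W i b)) := Finset.sum_comm
      _ = _ := Finset.sum_congr rfl fun i _ => Finset.sum_congr rfl fun a _ =>
          Finset.sum_congr rfl fun b _ => by ring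
  let w : G → Fin r → ℝ := fun x i => ∑ a, W i a * (c x a : ℝ)
  have hw : ∀ x y, B x y = ∑ i, w x i * w y i := hBB
  refine ⟨fun i => w (x i), fun i => ?_, fun i j => ?_⟩
  · have h1 : ∑ a, w (x i) a ^ 2 = q (x i) := by
      rw [← hB2, hw]
      exact Finset.sum_congr rfl fun a _ => by ring
    rw [h1]
    exact (hq1 _).trans (by linarith)
  · have h1 : ∑ a, (w (x i) a + w (x j) a) ^ 2 = q (x i + x j) := by
      rw [← hB2, map_add, map_add, AddMonoidHom.add_apply, AddMonoidHom.add_apply, hw, hw, hw, hw,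
        ← Finset.sum_add_distrib, ← Finset.sum_add_distrib, ← Finset.sum_add_distrib]
      exact Finset.sum_congr rfl fun a _ => by ring
    rw [h1]
    exact (hq1 _).trans (by linarith)

end Pool.Agent.Lib.MP_695920_nt.Qt
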