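import Mathlib
import Pool.Agent.Lib.MP_695920_nt.Qt.Defs

set_option autoImplicit false

open NumberField Module IsDedekindDomain
open scoped nonZeroDivisors

namespace Pool.Agent.Lib.MP_695920_nt.Qt

/-- product formula for an integral vector -/
theorem t7_mulHeight {M : Type} [Field M] [NumberField M] (A B : 𝓞 M)
    (hne : A ≠ 0 ∨ B ≠ 0) :
    ((Ideal.span (Set.range ![A, B])).absNorm : ℝ) * Height.mulHeight ![(A : M), (B : M)] =
      ∏ w : InfinitePlace M, (max (w (A : M)) (w (B : M))) ^ w.mult := by
  have hx : ![A, B] ≠ 0 := by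
    intro h
    have h0 := congrFun h 0
    have h1 := congrFun h 1
    simp at h0 h1
    rcases hne with h' | h'
    · exact h' h0
    · exact h' h1
  have hx' : ![(A : M), (B : M)] ≠ 0 := by
    intro h
    have h0 := congrFun h 0
    have h1 := congrFun h 1
    simp at h0 h1
    rcases hne with h' | h'
    · exact h' h0
    · exact h' h1
  rw [NumberField.mulHeight_eq hx']
  have hfun : ∀ i, ![(A : M), (B : M)] i = ((![A, B] i : 𝓞 M) : M) := by
    intro i; fin_cases i <;> rfl
  have h1 := absNorm_mul_finprod_finitePlace_eq_one hx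
  have h2 : ∀ w : InfinitePlace M, (⨆ i, w (![(A : M), (B : M)] i)) =
      max (w (A : M)) (w (B : M)) := by
    intro w
    apply le_antisymm
    · apply ciSup_le
      intro i
      fin_cases i
      · exact le_max_left _ _
      · exact le_max_right _ _
    · apply max_le
      · exact le_ciSup (f := fun i => w (![(A : M), (B : M)] i)) (Set.finite_range _).bddAbove 0
      · exact le_ciSup (f := fun i => w (![(A : M), (B : M)] i)) (Set.finite_range _).bddAbove 1
  simp only [h2]
  simp only [hfun]
  rw [mul_left_comm, h1, mul_one]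

/-- heights of vectors of integers, archimedean bound -/
theorem logHeight_int_le {M : Type} [Field M] [NumberField M] (A B : 𝓞 M) (R : ℝ) (hR : 1 ≤ R)
    (hA : ∀ w : InfinitePlace M, w (A : M) ≤ R) (hB : ∀ w : InfinitePlace M, w (B : M) ≤ R) :
    Height.logHeight ![(A : M), (B : M)] ≤ finrank ℚ M * Real.log R := by
  by_cases hne : A ≠ 0 ∨ B ≠ 0
  · have h1 := t7_mulHeight A B hne
    have hspan : Ideal.span (Set.range ![A, B]) ≠ ⊥ := by
      rw [Ne, Ideal.span_eq_bot]
      intro h
      rcases hne with h' | h'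
      · exact h' (h A ⟨0, rfl⟩)
      · exact h' (h B ⟨1, rfl⟩)
    have hN : (1 : ℝ) ≤ ((Ideal.span (Set.range ![A, B])).absNorm : ℝ) := by
      have : 0 < (Ideal.span (Set.range ![A, B])).absNorm :=
        Nat.pos_of_ne_zero (fun h => hspan (Ideal.absNorm_eq_zero_iff.1 h))
      exact_mod_cast this
    have hpos := Height.mulHeight_pos ![(A : M), (B : M)]
    have h2 : Height.mulHeight ![(A : M), (B : M)] ≤ R ^ finrank ℚ M := by
      calc Height.mulHeight ![(A : M), (B : M)] ≤
            ((Ideal.span (Set.range ![A, B])).absNorm : ℝ) *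
              Height.mulHeight ![(A : M), (B : M)] := by nlinarith
        _ = ∏ w : InfinitePlace M, (max (w (A : M)) (w (B : M))) ^ w.mult := h1
        _ ≤ ∏ w : InfinitePlace M, R ^ w.mult := by
            apply Finset.prod_le_prod
            · intro w _
              exact pow_nonneg (le_max_of_le_left (apply_nonneg w _)) _
            · intro w _
              exact pow_le_pow_left₀ (le_max_of_le_left (apply_nonneg w _))
                (max_le (hA w) (hB w)) _
        _ = R ^ finrank ℚ M := by
            rw [Finset.prod_pow_eq_pow_sum, InfinitePlace.sum_mult_eq]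
    rw [Height.logHeight_eq_log_mulHeight, ← Real.log_pow]
    exact Real.log_le_log hpos h2
  · push Not at hne
    obtain ⟨rfl, rfl⟩ := hne
    have h0 : (![((0 : 𝓞 M) : M), ((0 : 𝓞 M) : M)] : Fin 2 → M) = 0 := by
      ext i; fin_cases i <;> simp
    rw [h0, Height.logHeight_zero]
    exact mul_nonneg (Nat.cast_nonneg _) (Real.log_nonneg hR)

theorem ht_int_eq {F M : Type} [Field F] [NumberField F] [Field M] [NumberField M] [Algebra F M]
    (v : InfinitePlace F) (hv : ∀ w : InfinitePlace F, w = v) {k : F} {κ : M} (hk : k ≠ 0)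
    (hκ : κ ^ 3 = algebraMap F M k) {X g a b : 𝓞 F} {Y : F} (hX : X ^ 3 = g * a)
    (hkg : k = (g : F) * b) (hab : IsCoprime a b) (h : Y ^ 2 = (X : F) ^ 3 + k) :
    ht κ (pt hk h) = (Real.log (max (v (X : F) ^ 3) (v k)) - Real.log (v (g : F))) / 3 := by
  have hg : (g : F) ≠ 0 := by
    intro h0
    rw [h0, zero_mul] at hkg
    exact hk hkg
  have hn : (finrank ℚ M : ℝ) ≠ 0 := by
    have : 0 < finrank ℚ M := finrank_pos
    exact_mod_cast this.ne'
  set a' : 𝓞 M := algebraMap (𝓞 F) (𝓞 M) a with ha'
  set b' : 𝓞 M := algebraMap (𝓞 F) (𝓞 M) b with hb'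
  have hca : (a' : M) = algebraMap F M (a : F) := rfl
  have hcb : (b' : M) = algebraMap F M (b : F) := rfl
  -- the height as the height of `(a, b)`
  have e1 : 3 * Height.logHeight ![algebraMap F M (X : F), κ * algebraMap F M 1] =
      Height.logHeight ![(a' : M), (b' : M)] := by
    have h3 : (![algebraMap F M (X : F), κ * algebraMap F M 1]) ^ 3 =
        (algebraMap F M (g : F)) • ![(a' : M), (b' : M)] := by
      ext i
      fin_cases i
      · show (algebraMap F M (X : F)) ^ 3 = algebraMap F M (g : F) * (a' : M)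
        have hX' : (X : F) ^ 3 = (g : F) * (a : F) := by
          exact_mod_cast congrArg (fun z : 𝓞 F => (z : F)) hX
        rw [hca, ← map_pow, hX', map_mul]
      · show (κ * algebraMap F M 1) ^ 3 = algebraMap F M (g : F) * (b' : M)
        rw [map_one, mul_one, hκ, hkg, hcb, map_mul]
    have h4 := Height.logHeight_pow ![algebraMap F M (X : F), κ * algebraMap F M 1] 3
    rw [h3, Height.logHeight_smul_eq_logHeight _
      ((map_ne_zero_iff _ (algebraMap F M).injective).2 hg)] at h4
    rw [h4]
    norm_num
  -- the height of `(a, b)`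
  have hcop : IsCoprime a' b' := hab.map (algebraMap (𝓞 F) (𝓞 M))
  have hne : a' ≠ 0 ∨ b' ≠ 0 := by
    by_contra hcon
    push Not at hcon
    rw [hcon.1, hcon.2] at hcop
    exact not_isCoprime_zero_zero hcop
  have hspan : Ideal.span (Set.range ![a', b']) = ⊤ := by
    rw [Ideal.eq_top_iff_one]
    obtain ⟨s, t, hst⟩ := hcop
    rw [← hst]
    exact Ideal.add_mem _ (Ideal.mul_mem_left _ _ (Ideal.subset_span ⟨0, rfl⟩))
      (Ideal.mul_mem_left _ _ (Ideal.subset_span ⟨1, rfl⟩))
  have e2 := t7_mulHeight a' b' hne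
  rw [hspan, Ideal.absNorm_top, Nat.cast_one, one_mul] at e2
  have e3 : ∀ (w : InfinitePlace M) (z : F), w (algebraMap F M z) = v z := by
    intro w z
    rw [← hv (w.comap (algebraMap F M))]
    rfl
  simp only [hca, hcb, e3] at e2
  rw [Finset.prod_pow_eq_pow_sum, InfinitePlace.sum_mult_eq] at e2
  -- conclusion
  have hvg : 0 < v (g : F) := v.pos_iff.2 hg
  have hmax : max (v (X : F) ^ 3) (v k) = v (g : F) * max (v (a : F)) (v (b : F)) := by
    have hX' : (X : F) ^ 3 = (g : F) * (a : F) := by
      exact_mod_cast congrArg (fun z : 𝓞 F => (z : F)) hX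
    rw [← map_pow, hX', hkg, map_mul, map_mul, mul_max_of_nonneg _ _ hvg.le]
  have hmpos : 0 < max (v (a : F)) (v (b : F)) := by
    by_contra hcon
    push Not at hcon
    have h1 := (max_le_iff.1 hcon).1
    have h2 := (max_le_iff.1 hcon).2
    have h3 : (a : F) = 0 := by
      by_contra h'
      exact absurd (v.pos_iff.2 h') (not_lt.2 h1)
    have h4 : (b : F) = 0 := by
      by_contra h'
      exact absurd (v.pos_iff.2 h') (not_lt.2 h2)
    have h5 : a = 0 := by exact_mod_cast h3
    have h6 : b = 0 := by exact_mod_cast h4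
    rw [h5, h6] at hab
    exact not_isCoprime_zero_zero hab
  have e4 : ht κ (pt hk h) =
      Height.logHeight ![algebraMap F M (X : F), κ * algebraMap F M 1] / finrank ℚ M := by
    rfl
  have e5 : Height.logHeight ![(a' : M), (b' : M)] =
      finrank ℚ M * Real.log (max (v (a : F)) (v (b : F))) := by
    rw [Height.logHeight_eq_log_mulHeight]
    simp only [hca, hcb]
    rw [e2, Real.log_pow]
  rw [e4, hmax, Real.log_mul hvg.ne' hmpos.ne']
  have e6 : Height.logHeight ![algebraMap F M (X : F), κ * algebraMap F M 1] =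
      finrank ℚ M * Real.log (max (v (a : F)) (v (b : F))) / 3 := by
    rw [← e5, ← e1]
    ring
  rw [e6]
  field_simp
  ring

end Pool.Agent.Lib.MP_695920_nt.Qt
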