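import Mathlib
import Pool.Agent.Lib.MP_695920_nt.Qt.Defs

set_option autoImplicit false

/-!
# The sum and the difference of two points (task T5)
-/

namespace Pool.Agent.Lib.MP_695920_nt.Qt

open WeierstrassCurve.Affine

section

variable {F : Type} [Field F] {k : F}

private theorem t5_negY (x y : F) : (Ek k).negY x y = -y := by
  simp [WeierstrassCurve.Affine.negY, Ek]

private theorem t5_addX (x₁ x₂ l : F) : (Ek k).addX x₁ x₂ l = l ^ 2 - x₁ - x₂ := by
  simp [WeierstrassCurve.Affine.addX, Ek]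

variable [DecidableEq F]

private theorem t5_add {x₁ y₁ x₂ y₂ : F} (h₁ : (Ek k).Nonsingular x₁ y₁)
    (h₂ : (Ek k).Nonsingular x₂ y₂) (hx : x₁ ≠ x₂) :
    (Point.some x₁ y₁ h₁ + Point.some x₂ y₂ h₂).xRep =
      ![((y₁ - y₂) / (x₁ - x₂)) ^ 2 - x₁ - x₂, 1] := by
  rw [Point.add_of_X_ne hx, Point.xRep_some, t5_addX, slope_of_X_ne hx]

private theorem t5_dbl {x y : F} (h : (Ek k).Nonsingular x y) (hy : y ≠ -y) :
    (Point.some x y h + Point.some x y h).xRep = ![(3 * x ^ 2 / (2 * y)) ^ 2 - x - x, 1] := by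
  have hy' : y ≠ (Ek k).negY x y := by rw [t5_negY]; exact hy
  rw [Point.add_self_of_Y_ne hy', Point.xRep_some, t5_addX, slope_of_Y_ne rfl hy', t5_negY]
  congr 4
  simp [Ek]
  ring

end

theorem addSub_identity {F : Type} [Field F] [CharZero F] [DecidableEq F] {k : F} (hk : k ≠ 0)
    (P Q : (Ek k).Point) : ∃ c : F, c ≠ 0 ∧
      (P + Q).sym2x (P - Q) =
        ![c * (P.sym2x Q 0 ^ 2 - 4 * k * P.sym2x Q 1 * P.sym2x Q 2),
          c * (2 * P.sym2x Q 0 * P.sym2x Q 1 + 4 * k * P.sym2x Q 2 ^ 2),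
          c * (P.sym2x Q 1 ^ 2 - 4 * P.sym2x Q 0 * P.sym2x Q 2)] := by
  match P, Q with
  | 0, 0 =>
    refine ⟨1, one_ne_zero, ?_⟩
    simp
  | 0, .some x y h =>
    refine ⟨1, one_ne_zero, ?_⟩
    rw [zero_add, zero_sub, Point.sym2x_neg_right]
    simp
    ring_nf
    simp
  | .some x y h, 0 =>
    refine ⟨1, one_ne_zero, ?_⟩
    rw [add_zero, sub_zero]
    simp
    ring_nf
    simp
  | .some x₁ y₁ h₁, .some x₂ y₂ h₂ =>
    have e₁ : y₁ ^ 2 = x₁ ^ 3 + k := (Ek_equation_iff k x₁ y₁).1 h₁.1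
    have e₂ : y₂ ^ 2 = x₂ ^ 3 + k := (Ek_equation_iff k x₂ y₂).1 h₂.1
    have h₂' : (Ek k).Nonsingular x₂ (-y₂) := by
      have := (nonsingular_neg (W' := Ek k) x₂ y₂).mpr h₂
      rwa [t5_negY] at this
    have hneg : -Point.some x₂ y₂ h₂ = Point.some x₂ (-y₂) h₂' := by
      rw [Point.neg_some]
      simp only [t5_negY]
    rw [sub_eq_add_neg, hneg]
    simp only [Point.sym2x_some_some, Matrix.cons_val_zero, Matrix.cons_val_one, Matrix.cons_val]
    by_cases hx : x₁ = x₂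
    · subst hx
      have hyy : (y₁ - y₂) * (y₁ + y₂) = 0 := by linear_combination e₁ - e₂
      by_cases hy0 : y₁ = 0
      · have hy2 : y₂ = 0 := by
          rw [hy0] at hyy
          have : y₂ ^ 2 = 0 := by linear_combination -hyy
          simpa using this
        subst hy0 hy2
        have hx0 : x₁ ≠ 0 := by
          rintro rfl
          apply hk
          linear_combination -e₁
        have hz1 : Point.some x₁ 0 h₁ + Point.some x₁ 0 h₂ = 0 :=
          Point.add_of_Y_eq rfl (by rw [t5_negY, neg_zero])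
        have hz2 : Point.some x₁ 0 h₁ + Point.some x₁ (-0) h₂' = 0 :=
          Point.add_of_Y_eq rfl (by rw [t5_negY]; simp)
        refine ⟨1 / (-9 * k * x₁), ?_, ?_⟩
        · have : (-9 : F) * k * x₁ ≠ 0 := by
            refine mul_ne_zero (mul_ne_zero (by norm_num) hk) hx0
          exact one_div_ne_zero this
        · rw [hz1, hz2, Point.sym2x_zero_zero]
          have h3 : x₁ ^ 3 = -k := by linear_combination -e₁
          have a1 : (x₁ * x₁) ^ 2 - 4 * k * (x₁ + x₁) * 1 = -9 * k * x₁ := by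
            linear_combination x₁ * h3
          have a2 : 2 * (x₁ * x₁) * (x₁ + x₁) + 4 * k * 1 ^ 2 = 0 := by
            linear_combination 4 * h3
          have a3 : (x₁ + x₁) ^ 2 - 4 * (x₁ * x₁) * 1 = 0 := by ring
          rw [a1, a2, a3, mul_zero, one_div_mul_cancel]
          refine mul_ne_zero (mul_ne_zero (by norm_num) hk) hx0
      · have h2y : (2 : F) * y₁ ≠ 0 := mul_ne_zero two_ne_zero hy0
        have hyn : y₁ ≠ -y₁ := by
          intro h
          apply h2y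
          linear_combination h
        have hc : (1 : F) / (4 * y₁ ^ 2) ≠ 0 :=
          one_div_ne_zero (mul_ne_zero (by norm_num) (pow_ne_zero 2 hy0))
        have b1 : 1 / (4 * y₁ ^ 2) * ((x₁ * x₁) ^ 2 - 4 * k * (x₁ + x₁) * 1) =
            (3 * x₁ ^ 2 / (2 * y₁)) ^ 2 - x₁ - x₁ := by
          field_simp
          linear_combination (32 * x₁) * e₁
        have b2 : 1 / (4 * y₁ ^ 2) * (2 * (x₁ * x₁) * (x₁ + x₁) + 4 * k * 1 ^ 2) = 1 := by
          field_simp
          linear_combination (-4 : F) * e₁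
        have b3 : 1 / (4 * y₁ ^ 2) * ((x₁ + x₁) ^ 2 - 4 * (x₁ * x₁) * 1) = 0 := by
          ring
        rcases mul_eq_zero.1 hyy with h | h
        · have hy : y₂ = y₁ := by linear_combination -h
          subst hy
          have hz : Point.some x₁ y₂ h₁ + Point.some x₁ (-y₂) h₂' = 0 :=
            Point.add_of_Y_eq rfl (by rw [t5_negY, neg_neg])
          refine ⟨1 / (4 * y₂ ^ 2), hc, ?_⟩
          rw [hz, b1, b2, b3]
          unfold WeierstrassCurve.Affine.Point.sym2x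
          rw [t5_dbl h₁ hyn, Point.xRep_zero]
          simp
        · have hy : y₂ = -y₁ := by linear_combination h
          subst hy
          have hz : Point.some x₁ y₁ h₁ + Point.some x₁ (-y₁) h₂ = 0 :=
            Point.add_of_Y_eq rfl (by rw [t5_negY, neg_neg])
          have hd : Point.some x₁ (- -y₁) h₂' = Point.some x₁ y₁ h₁ := by
            simp only [neg_neg]
          refine ⟨1 / (4 * y₁ ^ 2), hc, ?_⟩
          rw [hz, b1, b2, b3, hd]
          unfold WeierstrassCurve.Affine.Point.sym2x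
          rw [t5_dbl h₁ hyn, Point.xRep_zero]
          simp
    · have hd : x₁ - x₂ ≠ 0 := sub_ne_zero.2 hx
      refine ⟨1 / (x₁ - x₂) ^ 2, one_div_ne_zero (pow_ne_zero 2 hd), ?_⟩
      have c3 : 1 / (x₁ - x₂) ^ 2 * ((x₁ + x₂) ^ 2 - 4 * (x₁ * x₂) * 1) = 1 := by
        field_simp; ring
      have c2 : 1 / (x₁ - x₂) ^ 2 * (2 * (x₁ * x₂) * (x₁ + x₂) + 4 * k * 1 ^ 2) =
          (((y₁ - y₂) / (x₁ - x₂)) ^ 2 - x₁ - x₂) + (((y₁ - -y₂) / (x₁ - x₂)) ^ 2 - x₁ - x₂) := by
        field_simp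
        linear_combination (-2 : F) * e₁ - 2 * e₂
      have c1 : 1 / (x₁ - x₂) ^ 2 * ((x₁ * x₂) ^ 2 - 4 * k * (x₁ + x₂) * 1) =
          (((y₁ - y₂) / (x₁ - x₂)) ^ 2 - x₁ - x₂) * (((y₁ - -y₂) / (x₁ - x₂)) ^ 2 - x₁ - x₂) := by
        field_simp
        linear_combination (-(y₁ ^ 2 - y₂ ^ 2 + x₁ ^ 3 - x₂ ^ 3) +
          2 * (x₁ + x₂) * (x₁ - x₂) ^ 2) * e₁ + ((y₁ ^ 2 - y₂ ^ 2 + x₁ ^ 3 - x₂ ^ 3) +
          2 * (x₁ + x₂) * (x₁ - x₂) ^ 2) * e₂
      unfold WeierstrassCurve.Affine.Point.sym2x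
      rw [t5_add h₁ h₂ hx, t5_add h₁ h₂' hx, c1, c2, c3]
      simp

end Pool.Agent.Lib.MP_695920_nt.Qt
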