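import Pool.Agent.Lib.MP_695920_nt.Qt.Defs

set_option autoImplicit false

/-!
# Uniform height bounds for maps given by polynomials with integer coefficients
-/

open NumberField Module MvPolynomial

namespace Pool.Agent.Lib.MP_695920_nt.Qt

open Height AdmissibleAbsValues in
theorem mulHeightBound_int {ι ι' : Type} [Finite ι] [Finite ι'] (p : ι' → MvPolynomial ι ℤ) :
    ∃ B : ℝ, 1 ≤ B ∧ ∀ (M : Type) [Field M] [NumberField M],
      Height.mulHeightBound (fun j => MvPolynomial.map (Int.castRingHom M) (p j)) ≤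
        B ^ finrank ℚ M := by
  classical
  have := Fintype.ofFinite ι'
  set B : ℝ := 1 + ∑ j, ∑ s ∈ (p j).support, |((coeff s (p j) : ℤ) : ℝ)| with hB
  have hB0 : 0 ≤ ∑ j, ∑ s ∈ (p j).support, |((coeff s (p j) : ℤ) : ℝ)| :=
    Finset.sum_nonneg fun _ _ => Finset.sum_nonneg fun _ _ => abs_nonneg _
  have hB1 : 1 ≤ B := by linarith
  refine ⟨B, hB1, ?_⟩
  intro M _ _
  rw [mulHeightBound_eq]
  have hsupp : ∀ j, (MvPolynomial.map (Int.castRingHom M) (p j)).support = (p j).support := by
    intro j
    exact support_map_of_injective _ (Int.cast_injective (α := M))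
  -- archimedean part
  have hA : ((archAbsVal (K := M)).map fun v ↦ ⨆ j, (AddMonoidAlgebra.coeff <|
      MvPolynomial.map (Int.castRingHom M) (p j)).sum (fun _ c ↦ v c)).prod ≤
        B ^ finrank ℚ M := by
    rw [← NumberField.totalWeight_eq_finrank, totalWeight, ← Multiset.prod_replicate,
      ← Multiset.map_const']
    refine Multiset.prod_map_le_prod_map₀ _ _ (fun v _ => ?_) (fun v hv => ?_)
    · exact Real.iSup_nonneg fun j => Finset.sum_nonneg fun s _ => by positivity
    · have hv' : ∀ n : ℤ, v (n : M) = |(n : ℝ)| := by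
        intro n
        have h1 : v ∈ multisetInfinitePlace M := hv
        rw [mem_multisetInfinitePlace, isInfinitePlace_iff] at h1
        obtain ⟨w, hw⟩ := h1
        rw [← hw]
        have := w.norm_embedding_eq (n : M)
        change w (n : M) = _
        rw [← this]
        simp
      refine Real.iSup_le (fun j => ?_) (by linarith)
      have h2 : (AddMonoidAlgebra.coeff <| MvPolynomial.map (Int.castRingHom M) (p j)).sum
          (fun _ c ↦ v c) = ∑ s ∈ (p j).support, |((coeff s (p j) : ℤ) : ℝ)| := by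
        rw [← hsupp j]
        refine Finset.sum_congr rfl fun s _ => ?_
        have h3 : (AddMonoidAlgebra.coeff <| MvPolynomial.map (Int.castRingHom M) (p j)) s =
            ((coeff s (p j) : ℤ) : M) := coeff_map (Int.castRingHom M) (p j) s
        rw [← hv', ← h3]
      rw [h2]
      have h4 : ∑ s ∈ (p j).support, |((coeff s (p j) : ℤ) : ℝ)| ≤
          ∑ j, ∑ s ∈ (p j).support, |((coeff s (p j) : ℤ) : ℝ)| :=
        Finset.single_le_sum (f := fun j => ∑ s ∈ (p j).support, |((coeff s (p j) : ℤ) : ℝ)|)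
          (fun j _ => Finset.sum_nonneg fun _ _ => abs_nonneg _) (Finset.mem_univ j)
      linarith
  -- nonarchimedean part
  have hF : (∏ᶠ v : nonarchAbsVal (K := M), ⨆ j, max
      (⨆ s : (MvPolynomial.map (Int.castRingHom M) (p j)).support,
        v.val (coeff s (MvPolynomial.map (Int.castRingHom M) (p j)))) 1) ≤ 1 := by
    rcases isEmpty_or_nonempty ι' with h | h
    · simp only [Real.iSup_of_isEmpty]
      exact finprod_zero_le_one
    · have h1 : ∀ v : nonarchAbsVal (K := M), (⨆ j, max
          (⨆ s : (MvPolynomial.map (Int.castRingHom M) (p j)).support,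
          v.val (coeff s (MvPolynomial.map (Int.castRingHom M) (p j)))) 1) = 1 := by
        intro v
        have h2 : ∀ j, max (⨆ s : (MvPolynomial.map (Int.castRingHom M) (p j)).support,
          v.val (coeff s (MvPolynomial.map (Int.castRingHom M) (p j)))) 1 = 1 := by
          intro j
          refine max_eq_right (Real.iSup_le (fun s => ?_) zero_le_one)
          rw [coeff_map]
          exact (isNonarchimedean _ v.prop).apply_intCast_le_one
        simp only [h2]
        exact ciSup_const
      simp only [h1, finprod_one]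
      exact le_rfl
  have hA0 : 0 ≤ ((archAbsVal (K := M)).map fun v ↦ ⨆ j, (AddMonoidAlgebra.coeff <|
      MvPolynomial.map (Int.castRingHom M) (p j)).sum (fun _ c ↦ v c)).prod :=
    Multiset.prod_map_nonneg fun v _ =>
      Real.iSup_nonneg fun j => Finset.sum_nonneg fun s _ => by positivity
  calc _ ≤ B ^ finrank ℚ M * 1 := mul_le_mul hA hF (finprod_nonneg fun v =>
        Real.iSup_nonneg fun j => le_max_of_le_right zero_le_one) (by positivity)
    _ = B ^ finrank ℚ M := mul_one _


/-- Uniform upper bound for a map given by integral forms. -/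
theorem t4_upper {ι ι' : Type} [Finite ι] [Finite ι'] {N : ℕ} (p : ι' → MvPolynomial ι ℤ)
    (hp : ∀ i, (p i).IsHomogeneous N) : ∃ C : ℝ, 0 ≤ C ∧ ∀ (M : Type) [Field M] [NumberField M]
      (x : ι → M), Height.logHeight (fun j => (MvPolynomial.map (Int.castRingHom M) (p j)).eval x) ≤
        C * finrank ℚ M + N * Height.logHeight x := by
  obtain ⟨B, hB, h⟩ := mulHeightBound_int p
  refine ⟨Real.log B, Real.log_nonneg hB, fun M _ _ x => ?_⟩
  have h1 := Height.logHeight_eval_le (K := M)
    (p := fun j => MvPolynomial.map (Int.castRingHom M) (p j)) (fun i => (hp i).map _) x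
  have h2 : Real.log (max (Height.mulHeightBound
      (fun j => MvPolynomial.map (Int.castRingHom M) (p j))) 1) ≤ Real.log B * finrank ℚ M := by
    have h3 : (1 : ℝ) ≤ B ^ finrank ℚ M := one_le_pow₀ hB
    calc _ ≤ Real.log (B ^ finrank ℚ M) :=
          Real.log_le_log (by positivity) (max_le (h M) h3)
      _ = Real.log B * finrank ℚ M := by rw [Real.log_pow]; ring
  linarith

/-- Uniform lower bound for a map given by integral forms. -/
theorem t4_lower {ι ι' : Type} [Finite ι] [Fintype ι'] {L N : ℕ}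
    (p : ι' → MvPolynomial ι ℤ) (q : ι × ι' → MvPolynomial ι ℤ)
    (hq : ∀ a, (q a).IsHomogeneous L) (c : ℤ) (hc : c ≠ 0) :
    ∃ C : ℝ, 0 ≤ C ∧ ∀ (M : Type) [Field M] [NumberField M]
      (x : ι → M), (∀ k, ∑ j, (MvPolynomial.map (Int.castRingHom M) (q (k, j))).eval x *
        (MvPolynomial.map (Int.castRingHom M) (p j)).eval x = (c : M) * x k ^ (L + N)) →
      N * Height.logHeight x ≤ C * finrank ℚ M +
        Height.logHeight (fun j => (MvPolynomial.map (Int.castRingHom M) (p j)).eval x) := by
  obtain ⟨B, hB, hb⟩ := mulHeightBound_int q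
  refine ⟨Real.log (max (Nat.card ι' : ℝ) 1) + Real.log B,
    add_nonneg (Real.log_nonneg (le_max_right _ _)) (Real.log_nonneg hB), fun M _ _ x h => ?_⟩
  have hcM : (c : M) ≠ 0 := by exact_mod_cast hc
  have h1 := Height.logHeight_eval_ge (K := M) (M := L) (N := N)
    (q := fun a => MvPolynomial.map (Int.castRingHom M) (q a)) (fun a => (hq a).map _)
    (fun j => MvPolynomial.C ((c : M)⁻¹) * MvPolynomial.map (Int.castRingHom M) (p j)) (x := x) (by
      intro k
      have h2 := h k
      have h3 : ∑ j, (MvPolynomial.map (Int.castRingHom M) (q (k, j))).eval x *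
          (MvPolynomial.C ((c : M)⁻¹) * MvPolynomial.map (Int.castRingHom M) (p j)).eval x =
          (c : M)⁻¹ * ∑ j, (MvPolynomial.map (Int.castRingHom M) (q (k, j))).eval x *
            (MvPolynomial.map (Int.castRingHom M) (p j)).eval x := by
        rw [Finset.mul_sum]
        refine Finset.sum_congr rfl fun j _ => ?_
        rw [map_mul, eval_C]
        ring
      rw [h3, h2, ← mul_assoc, inv_mul_cancel₀ hcM, one_mul])
  have h4 : Height.logHeight (fun j => (MvPolynomial.C ((c : M)⁻¹) *
      MvPolynomial.map (Int.castRingHom M) (p j)).eval x) =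
      Height.logHeight (fun j => (MvPolynomial.map (Int.castRingHom M) (p j)).eval x) := by
    rw [← Height.logHeight_smul_eq_logHeight
      (fun j => (MvPolynomial.map (Int.castRingHom M) (p j)).eval x) (inv_ne_zero hcM)]
    congr 1
    funext j
    simp
  rw [h4] at h1
  have h5 : Real.log ((Nat.card ι' : ℝ) ^ Height.totalWeight M * max (Height.mulHeightBound
      (fun a => MvPolynomial.map (Int.castRingHom M) (q a))) 1) ≤
      (Real.log (max (Nat.card ι' : ℝ) 1) + Real.log B) * finrank ℚ M := by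
    have h3 : (1 : ℝ) ≤ B ^ finrank ℚ M := one_le_pow₀ hB
    have h6 : (Nat.card ι' : ℝ) ^ Height.totalWeight M * max (Height.mulHeightBound
      (fun a => MvPolynomial.map (Int.castRingHom M) (q a))) 1 ≤
        (max (Nat.card ι' : ℝ) 1) ^ finrank ℚ M * B ^ finrank ℚ M := by
      rw [NumberField.totalWeight_eq_finrank]
      refine mul_le_mul ?_ (max_le (hb M) h3) (by positivity) (by positivity)
      exact pow_le_pow_left₀ (Nat.cast_nonneg _) (le_max_left _ _) _
    have h8 : 0 < max (Nat.card ι' : ℝ) 1 := lt_of_lt_of_le one_pos (le_max_right _ _)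
    rcases (Nat.cast_nonneg (α := ℝ) (Nat.card ι')).eq_or_lt with h7 | h7
    · rw [← h7, NumberField.totalWeight_eq_finrank, zero_pow (finrank_pos.ne'), zero_mul,
        Real.log_zero]
      have := Real.log_nonneg hB
      simp
      positivity
    · calc _ ≤ Real.log ((max (Nat.card ι' : ℝ) 1) ^ finrank ℚ M * B ^ finrank ℚ M) :=
            Real.log_le_log (by positivity) h6
        _ = _ := by
            rw [Real.log_mul (by positivity) (by positivity), Real.log_pow, Real.log_pow]
            ring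
  linarith

/-- the forms giving the sum and difference map -/
private noncomputable def t4p : Fin 3 → MvPolynomial (Fin 3) ℤ :=
  ![X 0 ^ 2 - C 4 * X 1 * X 2, C 2 * X 0 * X 1 + C 4 * X 2 ^ 2, X 1 ^ 2 - C 4 * X 0 * X 2]

private theorem t4XX (i : Fin 3) (a : ℤ) : (C a * X i ^ 2 : MvPolynomial (Fin 3) ℤ).IsHomogeneous
    2 := isHomogeneous_C_mul_X_pow ..

private theorem t4XY (i j : Fin 3) (a : ℤ) :
    (C a * X i * X j : MvPolynomial (Fin 3) ℤ).IsHomogeneous 2 :=
  .mul (isHomogeneous_C_mul_X ..) (isHomogeneous_X ..)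

private theorem t4p_hom (i : Fin 3) : (t4p i).IsHomogeneous 2 := by
  fin_cases i
  · exact (isHomogeneous_X_pow ..).sub (t4XY 1 2 4)
  · exact (t4XY 0 1 2).add (t4XX 2 4)
  · exact (isHomogeneous_X_pow ..).sub (t4XY 0 2 4)

private theorem t4p_eval (M : Type) [Field M] (S T U : M) :
    (fun j => (MvPolynomial.map (Int.castRingHom M) (t4p j)).eval ![S, T, U]) =
      ![S ^ 2 - 4 * T * U, 2 * S * T + 4 * U ^ 2, T ^ 2 - 4 * S * U] := by
  funext j
  fin_cases j <;> simp [t4p]

theorem map_upper : ∃ C : ℝ, 0 ≤ C ∧ ∀ (M : Type) [Field M] [NumberField M] (S T U : M),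
    Height.logHeight ![S ^ 2 - 4 * T * U, 2 * S * T + 4 * U ^ 2, T ^ 2 - 4 * S * U] ≤
      C * finrank ℚ M + 2 * Height.logHeight ![S, T, U] := by
  obtain ⟨C, hC, h⟩ := t4_upper t4p t4p_hom
  refine ⟨C, hC, fun M _ _ S T U => ?_⟩
  have := h M ![S, T, U]
  rw [t4p_eval] at this
  exact_mod_cast this

/-- coefficient forms -/
private noncomputable def t4q : Fin 3 × Fin 3 → MvPolynomial (Fin 3) ℤ :=
  ![![C (-432) * X 0 ^ 2 + C (-192) * X 1 * X 2, C (-192) * X 1 ^ 2, C 384 * X 0 * X 1],
    ![C 384 * X 0 * X 1, C (-192) * X 0 ^ 2, C (-192) * X 0 * X 2 + C (-432) * X 1 ^ 2],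
    ![C (-12) * X 1 ^ 2, C 6 * X 0 * X 1 + C (-108) * X 2 ^ 2,
      C (-48) * X 1 * X 2]].uncurry

private theorem t4q_hom (a : Fin 3 × Fin 3) : (t4q a).IsHomogeneous 2 := by
  fin_cases a
  · exact (t4XX 0 _).add (t4XY 1 2 _)
  · exact t4XX 1 _
  · exact t4XY 0 1 _
  · exact t4XY 0 1 _
  · exact t4XX 0 _
  · exact (t4XY 0 2 _).add (t4XX 1 _)
  · exact t4XX 1 _
  · exact (t4XY 0 1 _).add (t4XX 2 _)
  · exact t4XY 1 2 _

private theorem t4_rel (k : Fin 3) : ∑ j, t4q (k, j) * t4p j = C (-432) * X k ^ (2 + 2) := by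
  have e : ∀ n : ℤ, (C n : MvPolynomial (Fin 3) ℤ) = (n : MvPolynomial (Fin 3) ℤ) := fun n => by
    simp
  rw [Fin.sum_univ_three]
  fin_cases k <;> simp [t4p, t4q] <;> ring

theorem map_lower : ∃ C : ℝ, 0 ≤ C ∧ ∀ (M : Type) [Field M] [NumberField M] (S T U : M),
    2 * Height.logHeight ![S, T, U] ≤ C * finrank ℚ M +
      Height.logHeight ![S ^ 2 - 4 * T * U, 2 * S * T + 4 * U ^ 2, T ^ 2 - 4 * S * U] := by
  obtain ⟨C, hC, h⟩ := t4_lower (L := 2) (N := 2) t4p t4q t4q_hom (-432) (by norm_num)
  refine ⟨C, hC, fun M _ _ S T U => ?_⟩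
  have := h M ![S, T, U] (fun k => by
    have h2 := congrArg (fun P => (MvPolynomial.map (Int.castRingHom M) P).eval ![S, T, U])
      (t4_rel k)
    simp only [map_sum, map_mul, map_pow, map_X, eval_X] at h2
    rw [h2, MvPolynomial.map_C, eval_C]
    simp)
  rw [t4p_eval] at this
  exact_mod_cast this

/-- the forms of the symmetric square -/
private noncomputable def t4s : Fin 3 → MvPolynomial (Fin 4) ℤ := ![X 0, X 1 + X 2, X 3]

private theorem t4s_hom (i : Fin 3) : (t4s i).IsHomogeneous 1 := by
  fin_cases i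
  · exact isHomogeneous_X ..
  · exact (isHomogeneous_X ..).add (isHomogeneous_X ..)
  · exact isHomogeneous_X ..

private theorem t4s_eval (M : Type) [Field M] (a b c d : M) :
    (fun j => (MvPolynomial.map (Int.castRingHom M) (t4s j)).eval ![a * c, a * d, b * c, b * d]) =
      ![a * c, a * d + b * c, b * d] := by
  funext j
  fin_cases j <;> simp [t4s]

theorem t4_prod {M : Type} [Field M] [NumberField M] {a b c d : M} (hab : ![a, b] ≠ 0)
    (hcd : ![c, d] ≠ 0) :
    Height.logHeight ![a * c, a * d, b * c, b * d] =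
      Height.logHeight ![a, b] + Height.logHeight ![c, d] := by
  simp only [Height.logHeight_eq_log_mulHeight]
  rw [← Height.mulHeight_mul_mulHeight hab hcd, Real.log_mul]
  · exact (lt_of_lt_of_le one_pos (Height.one_le_mulHeight _)).ne'
  · exact (lt_of_lt_of_le one_pos (Height.one_le_mulHeight _)).ne'

theorem sym2_upper : ∃ C : ℝ, 0 ≤ C ∧ ∀ (M : Type) [Field M] [NumberField M] (a b c d : M),
    Height.logHeight ![a * c, a * d + b * c, b * d] ≤
      C * finrank ℚ M + Height.logHeight ![a, b] + Height.logHeight ![c, d] := by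
  obtain ⟨C, hC, h⟩ := t4_upper t4s t4s_hom
  refine ⟨C, hC, fun M _ _ a b c d => ?_⟩
  have hn : (0 : ℝ) ≤ C * finrank ℚ M := by positivity
  have hl : ∀ x y : M, 0 ≤ Height.logHeight ![x, y] := fun x y => by positivity
  by_cases hab : ![a, b] = 0
  · have ha : a = 0 := congrFun hab 0
    have hb : b = 0 := congrFun hab 1
    have h0 : ![a * c, a * d + b * c, b * d] = 0 := by
      funext i; fin_cases i <;> simp [ha, hb]
    rw [h0, Height.logHeight_zero]
    have := hl a b
    have := hl c d
    linarith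
  by_cases hcd : ![c, d] = 0
  · have hc : c = 0 := congrFun hcd 0
    have hd : d = 0 := congrFun hcd 1
    have h0 : ![a * c, a * d + b * c, b * d] = 0 := by
      funext i; fin_cases i <;> simp [hc, hd]
    rw [h0, Height.logHeight_zero]
    have := hl a b
    have := hl c d
    linarith
  have := h M ![a * c, a * d, b * c, b * d]
  rw [t4s_eval, t4_prod hab hcd] at this
  push_cast at this
  linarith

/-- coefficient forms of the symmetric square -/
private noncomputable def t4r : Fin 4 × Fin 3 → MvPolynomial (Fin 4) ℤ :=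
  ![![X 0, 0, 0], ![0, X 1, -X 0], ![0, X 2, -X 0], ![0, 0, X 3]].uncurry

theorem sym2_lower : ∃ C : ℝ, 0 ≤ C ∧ ∀ (M : Type) [Field M] [NumberField M] (a b c d : M),
    ![a, b] ≠ 0 → ![c, d] ≠ 0 → Height.logHeight ![a, b] + Height.logHeight ![c, d] ≤
      C * finrank ℚ M + Height.logHeight ![a * c, a * d + b * c, b * d] := by
  have hom : ∀ a, (t4r a).IsHomogeneous 1 := by
    intro a
    fin_cases a <;> simp [t4r] <;>
      first
        | exact isHomogeneous_X ..
        | exact isHomogeneous_zero ..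
        | exact (isHomogeneous_X ..).neg
  obtain ⟨C, hC, h⟩ := t4_lower (L := 1) (N := 1) t4s t4r hom 1 one_ne_zero
  refine ⟨C, hC, fun M _ _ a b c d hab hcd => ?_⟩
  have := h M ![a * c, a * d, b * c, b * d] (fun k => by
    fin_cases k <;> simp [t4s, t4r, Fin.sum_univ_three] <;> ring)
  rw [t4s_eval, t4_prod hab hcd] at this
  push_cast at this
  linarith

end Pool.Agent.Lib.MP_695920_nt.Qt
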