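import Mathlib
import Pool.Agent.Lib.MP_695920_nt.Qt.Defs
import Pool.Agent.Lib.MP_695920_nt.Qt.HtUnif
import Pool.Agent.Lib.MP_695920_nt.Qt.AddSub

set_option autoImplicit false

/-!
# Parallelogram law, Northcott property, nonnegativity (task T6)
-/

open NumberField Module IsDedekindDomain
open scoped nonZeroDivisors

namespace Pool.Agent.Lib.MP_695920_nt.Qt

open WeierstrassCurve.Affine

section

variable {F M : Type} [Field F] [Field M] [NumberField M] [Algebra F M] {k : F}

private noncomputable def t6_H (κ : M) (P : (Ek k).Point) : ℝ :=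
  Height.logHeight ![algebraMap F M (P.xRep 0), κ * algebraMap F M (P.xRep 1)]

omit [NumberField M] in
private theorem t6_vec_ne {κ : M} (hκ : κ ≠ 0) (P : (Ek k).Point) :
    ![algebraMap F M (P.xRep 0), κ * algebraMap F M (P.xRep 1)] ≠ 0 := by
  intro h
  have h0 := congrFun h 0
  have h1 := congrFun h 1
  simp only [Matrix.cons_val_zero, Matrix.cons_val_one, Pi.zero_apply, map_eq_zero,
    mul_eq_zero, hκ, false_or] at h0 h1
  refine P.xRep_ne_zero ?_
  funext i
  fin_cases i
  · simpa using h0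
  · simpa using h1

omit [NumberField M] in
private theorem t6_sym (κ : M) (P Q : (Ek k).Point) :
    (![algebraMap F M (P.xRep 0) * algebraMap F M (Q.xRep 0),
      algebraMap F M (P.xRep 0) * (κ * algebraMap F M (Q.xRep 1)) +
        κ * algebraMap F M (P.xRep 1) * algebraMap F M (Q.xRep 0),
      κ * algebraMap F M (P.xRep 1) * (κ * algebraMap F M (Q.xRep 1))] : Fin 3 → M) =
    ![algebraMap F M (P.sym2x Q 0), κ * algebraMap F M (P.sym2x Q 1),
      κ ^ 2 * algebraMap F M (P.sym2x Q 2)] := by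
  have h : P.sym2x Q = ![P.xRep 0 * Q.xRep 0, P.xRep 0 * Q.xRep 1 + P.xRep 1 * Q.xRep 0,
      P.xRep 1 * Q.xRep 1] := rfl
  rw [h]
  funext i
  fin_cases i
  · simp
  · simp
    ring
  · simp
    ring

end

theorem parallelogram : ∃ C : ℝ, 0 ≤ C ∧ ∀ (F M : Type) [Field F] [CharZero F] [DecidableEq F]
    [Field M] [NumberField M] [Algebra F M] (k : F) (κ : M), k ≠ 0 → κ ^ 3 = algebraMap F M k →
    ∀ P Q : (Ek k).Point,
      |ht κ (P + Q) + ht κ (P - Q) - 2 * ht κ P - 2 * ht κ Q| ≤ C := by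
  obtain ⟨C₁, hC₁, h₁⟩ := sym2_upper
  obtain ⟨C₂, hC₂, h₂⟩ := sym2_lower
  obtain ⟨C₃, hC₃, h₃⟩ := map_upper
  obtain ⟨C₄, hC₄, h₄⟩ := map_lower
  refine ⟨2 * C₁ + 2 * C₂ + C₃ + C₄, by positivity, ?_⟩
  intro F M _ _ _ _ _ _ k κ hk hκ P Q
  have hκ0 : κ ≠ 0 := by
    rintro rfl
    have h0 : algebraMap F M k = 0 := by
      rw [← hκ]
      simp
    exact hk ((map_eq_zero _).1 h0)
  have hn : (0 : ℝ) < finrank ℚ M := by exact_mod_cast (finrank_pos : 0 < finrank ℚ M)
  obtain ⟨c, hc, hid⟩ := addSub_identity hk P Q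
  -- notation
  set n : ℝ := (finrank ℚ M : ℝ) with hndef
  -- upper and lower bounds by sym2
  have up : ∀ A B : (Ek k).Point, Height.logHeight
      ![algebraMap F M (A.sym2x B 0), κ * algebraMap F M (A.sym2x B 1),
        κ ^ 2 * algebraMap F M (A.sym2x B 2)] ≤ C₁ * n + t6_H κ A + t6_H κ B := by
    intro A B
    have h := h₁ M (algebraMap F M (A.xRep 0)) (κ * algebraMap F M (A.xRep 1))
      (algebraMap F M (B.xRep 0)) (κ * algebraMap F M (B.xRep 1))
    rw [t6_sym] at h
    exact h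
  have lo : ∀ A B : (Ek k).Point, t6_H κ A + t6_H κ B ≤ C₂ * n + Height.logHeight
      ![algebraMap F M (A.sym2x B 0), κ * algebraMap F M (A.sym2x B 1),
        κ ^ 2 * algebraMap F M (A.sym2x B 2)] := by
    intro A B
    have h := h₂ M (algebraMap F M (A.xRep 0)) (κ * algebraMap F M (A.xRep 1))
      (algebraMap F M (B.xRep 0)) (κ * algebraMap F M (B.xRep 1)) (t6_vec_ne hκ0 A)
      (t6_vec_ne hκ0 B)
    rw [t6_sym] at h
    exact h
  -- the map
  set S : M := algebraMap F M (P.sym2x Q 0) with hS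
  set T : M := κ * algebraMap F M (P.sym2x Q 1) with hT
  set U : M := κ ^ 2 * algebraMap F M (P.sym2x Q 2) with hU
  have hmap : (![algebraMap F M ((P + Q).sym2x (P - Q) 0),
      κ * algebraMap F M ((P + Q).sym2x (P - Q) 1),
      κ ^ 2 * algebraMap F M ((P + Q).sym2x (P - Q) 2)] : Fin 3 → M) =
      (algebraMap F M c) • ![S ^ 2 - 4 * T * U, 2 * S * T + 4 * U ^ 2, T ^ 2 - 4 * S * U] := by
    rw [hid]
    funext i
    fin_cases i
    · simp only [Fin.zero_eta, Fin.isValue, Matrix.cons_val_zero, Pi.smul_apply, smul_eq_mul,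
        map_mul, map_sub, map_pow, hS, hT, hU, ← hκ, map_ofNat]
      ring
    · simp only [Fin.mk_one, Fin.isValue, Matrix.cons_val_one, Matrix.cons_val_zero,
        Pi.smul_apply, smul_eq_mul, map_mul, map_add, map_pow, hS, hT, hU, ← hκ, map_ofNat]
      ring
    · simp only [Fin.reduceFinMk, Fin.isValue, Matrix.cons_val,
        Pi.smul_apply, smul_eq_mul, map_mul, map_sub, map_pow, hS, hT, hU, map_ofNat]
      ring
  have hc' : algebraMap F M c ≠ 0 := fun h => hc ((map_eq_zero _).1 h)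
  have e1 := up P Q
  have e2 := lo P Q
  have e3 := up (P + Q) (P - Q)
  have e4 := lo (P + Q) (P - Q)
  rw [hmap, Height.logHeight_smul_eq_logHeight _ hc'] at e3 e4
  have e5 := h₃ M S T U
  have e6 := h₄ M S T U
  have key : ht κ (P + Q) + ht κ (P - Q) - 2 * ht κ P - 2 * ht κ Q =
      (t6_H κ (P + Q) + t6_H κ (P - Q) - 2 * t6_H κ P - 2 * t6_H κ Q) / n := by
    unfold ht t6_H
    ring
  have hCn : ∀ A : ℝ, 0 ≤ A → 0 ≤ A * n := fun A hA => mul_nonneg hA hn.le
  have p1 := hCn C₁ hC₁
  have p2 := hCn C₂ hC₂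
  have p3 := hCn C₃ hC₃
  have p4 := hCn C₄ hC₄
  rw [key, abs_le]
  constructor
  · rw [le_div_iff₀ hn]
    linarith
  · rw [div_le_iff₀ hn]
    linarith

theorem northcott {F M : Type} [Field F] [CharZero F] [Field M] [NumberField M] [Algebra F M]
    {k : F} {κ : M} (hk : k ≠ 0) (hκ : κ ^ 3 = algebraMap F M k) (b : ℝ) :
    {P : (Ek k).Point | ht κ P ≤ b}.Finite := by
  have hκ0 : κ ≠ 0 := by
    rintro rfl
    have h0 : algebraMap F M k = 0 := by
      rw [← hκ]
      simp
    exact hk ((map_eq_zero _).1 h0)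
  have hn : (0 : ℝ) < finrank ℚ M := by exact_mod_cast (finrank_pos : 0 < finrank ℚ M)
  have h1 : {x : M | Height.logHeight₁ x ≤ b * finrank ℚ M}.Finite :=
    NumberField.finite_setOfPred_logHeight₁_le M _
  have h2 : {x : F | Height.logHeight₁ (algebraMap F M x / κ) ≤ b * finrank ℚ M}.Finite := by
    refine h1.preimage (f := fun x : F => algebraMap F M x / κ) ?_
    intro x _ y _ hxy
    exact (algebraMap F M).injective ((div_left_inj' hκ0).1 hxy)
  have h3 : (insert ![1, 0] ((fun x : F => ![x, 1]) ''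
      {x : F | Height.logHeight₁ (algebraMap F M x / κ) ≤ b * finrank ℚ M})).Finite :=
    (h2.image _).insert _
  refine (h3.preimage' (f := fun P : (Ek k).Point => P.xRep) ?_).subset ?_
  · intro v _
    by_cases hv : ∃ P : (Ek k).Point, P.xRep = v
    · obtain ⟨P, hP⟩ := hv
      refine (Set.toFinite {P, -P}).subset ?_
      intro Q hQ
      have hQ' : Q.xRep = P.xRep := by
        rw [hP]
        exact hQ
      exact Point.eq_or_eq_neg_of_xRep_eq_xRep hQ'
    · have : ((fun P : (Ek k).Point => P.xRep) ⁻¹' {v}) = ∅ := by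
        rw [Set.eq_empty_iff_forall_notMem]
        intro P hP
        exact hv ⟨P, hP⟩
      rw [this]
      exact Set.finite_empty
  · intro P hP
    have hP' : ht κ P ≤ b := hP
    match P, hP' with
    | 0, _ => exact Set.mem_insert _ _
    | .some x y h, hP' =>
      refine Set.mem_insert_of_mem _ ⟨x, ?_, rfl⟩
      have h4 : ht κ (Point.some x y h) =
          Height.logHeight ![algebraMap F M x, κ] / finrank ℚ M := by
        unfold ht
        simp
      rw [h4, div_le_iff₀ hn, ← Height.logHeight₁_div_eq_logHeight] at hP'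
      exact hP'

theorem ht_nonneg {F M : Type} [Field F] [Field M] [NumberField M] [Algebra F M]
    {k : F} (κ : M) (P : (Ek k).Point) : 0 ≤ ht κ P :=
  div_nonneg (Height.logHeight_nonneg _) (Nat.cast_nonneg _)

end Pool.Agent.Lib.MP_695920_nt.Qt
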