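import Mathlib
import Pool.Agent.Lib.MP_695920_nt.Qt.Defs
import Pool.Agent.Lib.MP_695920_nt.Qt.HtInt

set_option autoImplicit false

open NumberField Module IsDedekindDomain
open scoped nonZeroDivisors

namespace Pool.Agent.Lib.MP_695920_nt.Qt

theorem t8_logHeight_one_zero {M : Type} [Field M] [NumberField M] :
    Height.logHeight ![(1 : M), 0] ≤ 0 := by
  have h := logHeight_int_le (M := M) 1 0 1 le_rfl (fun w => by simp) (fun w => by simp)
  simpa using h

theorem ht_add_congr {F M : Type} [Field F] [NumberField F] [DecidableEq F] [Field M]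
    [NumberField M] [Algebra F M] (v : InfinitePlace F) (hv : ∀ w : InfinitePlace F, w = v)
    {k : 𝓞 F} {κ : M} (hk : (k : F) ≠ 0) (hκ : κ ^ 3 = algebraMap F M k)
    {X₁ Y₁ X₂ Y₂ : 𝓞 F} (h₁ : (Y₁ : F) ^ 2 = (X₁ : F) ^ 3 + k)
    (h₂ : (Y₂ : F) ^ 2 = (X₂ : F) ^ 3 + k)
    (hne : (X₁, Y₁) ≠ (X₂, Y₂)) (R : ℝ) (hR : 1 ≤ R) (hX₁ : v (X₁ : F) ≤ R)
    (hX₂ : v (X₂ : F) ≤ R) (hkR : v (k : F) ≤ R ^ 3) (p : ℕ) (hp : 1 ≤ p)
    (hpX : (p : 𝓞 F) ∣ X₁ - X₂) (hpY : (p : 𝓞 F) ∣ Y₁ - Y₂) :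
    ht κ (pt hk h₁ + pt hk h₂) ≤ max 0 (Real.log (8 * R ^ 3 / p ^ 2)) := by
  have hn : 0 < (finrank ℚ M : ℝ) := by
    have : 0 < finrank ℚ M := finrank_pos
    exact_mod_cast this
  have hp0 : (0 : ℝ) < p := by exact_mod_cast hp
  by_cases hX : X₁ = X₂
  · have hY : (Y₁ : F) ^ 2 = (Y₂ : F) ^ 2 := by rw [h₁, h₂, hX]
    have hY' : (Y₁ : F) = -(Y₂ : F) := by
      rcases sq_eq_sq_iff_eq_or_eq_neg.1 hY with h | h
      · exfalso
        apply hne
        rw [hX, show Y₁ = Y₂ by exact_mod_cast h]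
      · exact h
    have h0 : pt hk h₁ + pt hk h₂ = 0 := by
      unfold pt
      refine WeierstrassCurve.Affine.Point.add_of_Y_eq (by rw [hX]) ?_
      rw [hY']
      simp [WeierstrassCurve.Affine.negY, Ek]
    rw [h0]
    refine le_trans ?_ (le_max_left _ _)
    unfold ht
    rw [WeierstrassCurve.Affine.Point.xRep_zero]
    have h3 : ![algebraMap F M (![(1 : F), 0] 0), κ * algebraMap F M (![(1 : F), 0] 1)] =
        ![(1 : M), 0] := by
      simp
    rw [h3]
    exact div_nonpos_of_nonpos_of_nonneg t8_logHeight_one_zero hn.le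
  · obtain ⟨x', hx'⟩ := hpX
    obtain ⟨y', hy'⟩ := hpY
    have hXF : (X₁ : F) ≠ (X₂ : F) := fun h => hX (by exact_mod_cast h)
    have hpF : (p : F) ≠ 0 := by
      have : p ≠ 0 := by omega
      exact_mod_cast this
    have hx'F : (X₁ : F) - (X₂ : F) = p * (x' : F) := by
      have := congrArg (fun z : 𝓞 F => (z : F)) hx'
      simpa using this
    have hy'F : (Y₁ : F) - (Y₂ : F) = p * (y' : F) := by
      have := congrArg (fun z : 𝓞 F => (z : F)) hy'
      simpa using this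
    have hx'0 : (x' : F) ≠ 0 := by
      intro h
      rw [h, mul_zero] at hx'F
      exact hXF (sub_eq_zero.1 hx'F)
    -- the integers
    set A : 𝓞 F := y' ^ 2 - (X₁ + X₂) * x' ^ 2 with hA
    have hκint : IsIntegral ℤ κ := by
      refine IsIntegral.of_pow (n := 3) (by norm_num) ?_
      rw [hκ]
      exact (RingOfIntegers.isIntegral_coe k).map ((algebraMap F M).toIntAlgHom)
    set κ' : 𝓞 M := ⟨κ, hκint⟩ with hκ'
    set A' : 𝓞 M := algebraMap (𝓞 F) (𝓞 M) A with hA'
    set B' : 𝓞 M := κ' * algebraMap (𝓞 F) (𝓞 M) (x' ^ 2) with hB'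
    have hcA : (A' : M) = algebraMap F M (A : F) := rfl
    have hcB : (B' : M) = κ * algebraMap F M ((x' : F) ^ 2) := by
      have : (B' : M) = (κ' : M) * ((algebraMap (𝓞 F) (𝓞 M) (x' ^ 2) : 𝓞 M) : M) := by
        rw [hB']
        push_cast
        rfl
      rw [this]
      have h3 : ((algebraMap (𝓞 F) (𝓞 M) (x' ^ 2) : 𝓞 M) : M) =
        algebraMap F M (((x' ^ 2 : 𝓞 F)) : F) := rfl
      rw [h3]
      push_cast
      rfl
    have e3 : ∀ (w : InfinitePlace M) (z : F), w (algebraMap F M z) = v z := by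
      intro w z
      rw [← hv (w.comap (algebraMap F M))]
      rfl
    -- the x-coordinate
    have hadd := WeierstrassCurve.Affine.Point.add_of_X_ne (W := Ek (k : F))
      (h₁ := Ek_nonsingular hk h₁) (h₂ := Ek_nonsingular hk h₂) hXF
    have hval : ht κ (pt hk h₁ + pt hk h₂) = Height.logHeight ![(A' : M), (B' : M)] /
        finrank ℚ M := by
      unfold pt
      rw [hadd]
      unfold ht
      rw [WeierstrassCurve.Affine.Point.xRep_some]
      congr 1
      rw [WeierstrassCurve.Affine.slope_of_X_ne hXF]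
      have hx3 : (Ek (k : F)).addX (X₁ : F) (X₂ : F) (((Y₁ : F) - Y₂) / ((X₁ : F) - X₂)) *
          (x' : F) ^ 2 = (A : F) := by
        have hAF : (A : F) = (y' : F) ^ 2 - ((X₁ : F) + X₂) * (x' : F) ^ 2 := by
          rw [hA]; push_cast; ring
        rw [hAF, hx'F, hy'F]
        simp only [WeierstrassCurve.Affine.addX, Ek]
        field_simp
        ring
      have h3 : ![(A' : M), (B' : M)] = (algebraMap F M ((x' : F) ^ 2)) •
          ![algebraMap F M (![(Ek (k : F)).addX (X₁ : F) (X₂ : F)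
            (((Y₁ : F) - Y₂) / ((X₁ : F) - X₂)), 1] 0), κ * algebraMap F M
            (![(Ek (k : F)).addX (X₁ : F) (X₂ : F)
            (((Y₁ : F) - Y₂) / ((X₁ : F) - X₂)), 1] 1)] := by
        ext i
        fin_cases i
        · show (A' : M) = algebraMap F M ((x' : F) ^ 2) * algebraMap F M
            ((Ek (k : F)).addX (X₁ : F) (X₂ : F) (((Y₁ : F) - Y₂) / ((X₁ : F) - X₂)))
          rw [hcA, ← hx3, map_mul, mul_comm]
        · show (B' : M) = algebraMap F M ((x' : F) ^ 2) * (κ * algebraMap F M 1)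
          rw [hcB, map_one, mul_one, mul_comm]
      rw [h3, Height.logHeight_smul_eq_logHeight]
      exact (map_ne_zero_iff _ (algebraMap F M).injective).2 (pow_ne_zero 2 hx'0)
    -- the bounds
    have hR0 : 0 < R := by linarith
    have hvY : ∀ X Y : 𝓞 F, (Y : F) ^ 2 = (X : F) ^ 3 + k → v (X : F) ≤ R →
        v (Y : F) ^ 2 ≤ 2 * R ^ 3 := by
      intro X Y h hXR
      rw [← map_pow, h]
      calc v ((X : F) ^ 3 + k) ≤ v ((X : F) ^ 3) + v (k : F) := v.1.add_le _ _
        _ ≤ R ^ 3 + R ^ 3 := by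
            rw [map_pow]
            have := pow_le_pow_left₀ (apply_nonneg v (X : F)) hXR 3
            linarith
        _ = 2 * R ^ 3 := by ring
    have hvY1 := hvY X₁ Y₁ h₁ hX₁
    have hvY2 := hvY X₂ Y₂ h₂ hX₂
    have hYY : v (Y₁ : F) * v (Y₂ : F) ≤ 2 * R ^ 3 := by
      nlinarith [sq_nonneg (v (Y₁ : F) - v (Y₂ : F))]
    have hvA : v (A : F) ≤ 8 * R ^ 3 / p ^ 2 := by
      rw [le_div_iff₀ (by positivity)]
      have h3 : (A : F) * (p : F) ^ 2 = (X₁ : F) * X₂ * (X₁ + X₂) + 2 * k - 2 * (Y₁ * Y₂) := by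
        have hAF : (A : F) * (p : F) ^ 2 = (p * (y' : F)) ^ 2 - ((X₁ : F) + X₂) *
            (p * (x' : F)) ^ 2 := by
          rw [hA]; push_cast; ring
        rw [hAF, ← hx'F, ← hy'F]
        linear_combination h₁ + h₂
      have h4 : v (A : F) * (p : ℝ) ^ 2 = v ((A : F) * (p : F) ^ 2) := by
        rw [map_mul, map_pow, InfinitePlace.map_natCast]
      rw [h4, h3]
      have b1 : v ((X₁ : F) * X₂ * (X₁ + X₂)) ≤ 2 * R ^ 3 := by
        rw [map_mul, map_mul]
        have h5 : v ((X₁ : F) + X₂) ≤ 2 * R := by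
          have := v.1.add_le (X₁ : F) (X₂ : F)
          calc v ((X₁ : F) + X₂) ≤ v (X₁ : F) + v (X₂ : F) := this
            _ ≤ 2 * R := by linarith
        calc v (X₁ : F) * v (X₂ : F) * v ((X₁ : F) + X₂) ≤ R * R * (2 * R) := by
              gcongr
          _ = 2 * R ^ 3 := by ring
      have two : v (2 : F) = 2 := by
        have := InfinitePlace.map_natCast v 2
        simpa using this
      have b2 : v (2 * (k : F)) ≤ 2 * R ^ 3 := by
        rw [map_mul, two]
        linarith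
      have b3 : v (2 * ((Y₁ : F) * Y₂)) ≤ 4 * R ^ 3 := by
        rw [map_mul, map_mul, two]
        linarith
      have t1 : v ((X₁ : F) * X₂ * (X₁ + X₂) + 2 * k - 2 * (Y₁ * Y₂)) ≤
          v ((X₁ : F) * X₂ * (X₁ + X₂) + 2 * k) + v (2 * ((Y₁ : F) * Y₂)) := by
        have := v.1.add_le ((X₁ : F) * X₂ * (X₁ + X₂) + 2 * k) (-(2 * ((Y₁ : F) * Y₂)))
        have hneg : v (-(2 * ((Y₁ : F) * Y₂))) = v (2 * ((Y₁ : F) * Y₂)) := by
          exact v.1.map_neg _
        rw [← sub_eq_add_neg] at this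
        rw [← hneg]
        exact this
      have t2 : v ((X₁ : F) * X₂ * (X₁ + X₂) + 2 * k) ≤
          v ((X₁ : F) * X₂ * (X₁ + X₂)) + v (2 * (k : F)) := v.1.add_le _ _
      linarith
    have hvx : v ((x' : F) ^ 2) * p ^ 2 ≤ 4 * R ^ 2 := by
      have h4 : v ((x' : F) ^ 2) * (p : ℝ) ^ 2 = v ((X₁ : F) - X₂) ^ 2 := by
        rw [hx'F, map_mul, InfinitePlace.map_natCast, map_pow]
        ring
      rw [h4]
      have h5 : v ((X₁ : F) - X₂) ≤ 2 * R := by
        have := v.1.add_le (X₁ : F) (-(X₂ : F))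
        have hneg : v (-(X₂ : F)) = v (X₂ : F) := v.1.map_neg _
        rw [← sub_eq_add_neg] at this
        calc v ((X₁ : F) - X₂) ≤ v (X₁ : F) + v (-(X₂ : F)) := this
          _ ≤ 2 * R := by rw [hneg]; linarith
      calc v ((X₁ : F) - X₂) ^ 2 ≤ (2 * R) ^ 2 := pow_le_pow_left₀ (apply_nonneg v _) h5 2
        _ = 4 * R ^ 2 := by ring
    have hwB : ∀ w : InfinitePlace M, w (B' : M) ≤ 8 * R ^ 3 / p ^ 2 := by
      intro w
      rw [hcB, map_mul, e3, le_div_iff₀ (by positivity)]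
      have h4 : w κ ≤ R := by
        have h5 : w κ ^ 3 ≤ R ^ 3 := by
          rw [← map_pow, hκ, e3]
          exact hkR
        exact le_of_pow_le_pow_left₀ (by norm_num) hR0.le h5
      calc w κ * v ((x' : F) ^ 2) * (p : ℝ) ^ 2 = w κ * (v ((x' : F) ^ 2) * (p : ℝ) ^ 2) := by
            ring
        _ ≤ R * (4 * R ^ 2) := by
            apply mul_le_mul h4 hvx _ hR0.le
            exact mul_nonneg (apply_nonneg v _) (by positivity)
        _ ≤ 8 * R ^ 3 := by nlinarith [pow_pos hR0 3]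
    have hwA : ∀ w : InfinitePlace M, w (A' : M) ≤ 8 * R ^ 3 / p ^ 2 := by
      intro w
      rw [hcA, e3]
      exact hvA
    have hfin := logHeight_int_le A' B' (max 1 (8 * R ^ 3 / p ^ 2)) (le_max_left _ _)
      (fun w => (hwA w).trans (le_max_right _ _)) (fun w => (hwB w).trans (le_max_right _ _))
    rw [hval, div_le_iff₀ hn]
    refine hfin.trans (le_of_eq ?_)
    rw [mul_comm]
    congr 1
    rcases le_total 1 (8 * R ^ 3 / (p : ℝ) ^ 2) with h | h
    · rw [max_eq_right h, max_eq_right (Real.log_nonneg h)]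
    · rw [max_eq_left h, Real.log_one, max_eq_left (Real.log_nonpos (by positivity) h)]

end Pool.Agent.Lib.MP_695920_nt.Qt
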