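import Mathlib
import Pool.Agent.Lib.MP_695920_nt.Qt.Defs
import Pool.Agent.Lib.MP_695920_nt.Qt.Code
import Pool.Agent.Lib.MP_695920_nt.Qt.CodeNum
import Pool.Agent.Lib.MP_695920_nt.Qt.Gram
import Pool.Agent.Lib.MP_695920_nt.Qt.Para
import Pool.Agent.Lib.MP_695920_nt.Qt.HtInt
import Pool.Agent.Lib.MP_695920_nt.Qt.SumCong
import Pool.Agent.Lib.MP_695920_nt.Qt.Eis

/-!
Points on one curve: preparations.
-/

set_option autoImplicit false

open NumberField Module

namespace Pool.Agent.Lib.MP_695920_nt.Qt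

/-- a number field containing a cube root -/
lemma exists_cbrt {F : Type} [Field F] [NumberField F] (k : F) :
    ∃ (M : Type) (_ : Field M) (_ : NumberField M) (_ : Algebra F M) (κ : M),
      κ ^ 3 = algebraMap F M k := by
  let f : Polynomial F := Polynomial.X ^ 3 - Polynomial.C k
  have hf : f.natDegree = 3 := Polynomial.natDegree_X_pow_sub_C
  have hfin : FiniteDimensional F f.SplittingField := inferInstance
  have hfin2 : FiniteDimensional ℚ f.SplittingField := FiniteDimensional.trans ℚ F f.SplittingField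
  have hchar : CharZero f.SplittingField := charZero_of_injective_algebraMap
    (algebraMap F f.SplittingField).injective
  have hnf : NumberField f.SplittingField := ⟨⟩
  obtain ⟨κ, hκ⟩ := (Polynomial.SplittingField.splits f).exists_eval_eq_zero (by
    rw [Polynomial.degree_map, Polynomial.degree_eq_natDegree (by
      intro h; rw [h] at hf; simp at hf), hf]
    norm_num)
  refine ⟨f.SplittingField, inferInstance, hnf, inferInstance, κ, ?_⟩
  simp only [f, Polynomial.map_sub, Polynomial.map_pow, Polynomial.map_X, Polynomial.map_C,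
    Polynomial.eval_sub, Polynomial.eval_pow, Polynomial.eval_X, Polynomial.eval_C] at hκ
  linear_combination hκ

/-- one residue class -/
lemma class_card {F M : Type} [Field F] [NumberField F] [DecidableEq F] [Field M] [NumberField M]
    [Algebra F M] (v : InfinitePlace F) (hv : ∀ w : InfinitePlace F, w = v)
    {k : 𝓞 F} {κ : M} (hk : (k : F) ≠ 0) (hκ : κ ^ 3 = algebraMap F M k) (Cp : ℝ)
    (hpar : ∀ P Q : (Ek (k : F)).Point,
      |ht κ (P + Q) + ht κ (P - Q) - 2 * ht κ P - 2 * ht κ Q| ≤ Cp)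
    (r : ℕ) (hfin : (nsmulAddMonoidHom (α := (Ek (k : F)).Point) 3).range.index ≠ 0)
    (hr : (nsmulAddMonoidHom (α := (Ek (k : F)).Point) 3).range.index ≤ 3 ^ r)
    (T : Finset (𝓞 F × 𝓞 F)) (hT : ∀ P ∈ T, (P.2 : F) ^ 2 = (P.1 : F) ^ 3 + k)
    (low R : ℝ) (hR : 1 ≤ R) (hkR : v (k : F) ≤ R ^ 3) (hTR : ∀ P ∈ T, v (P.1 : F) ≤ R)
    (hlow : ∀ P (hP : P ∈ T), low ≤ ht κ (pt hk (hT P hP)))
    (p : ℕ) (hp : 1 ≤ p) (hTp : ∀ P ∈ T, ∀ Q ∈ T, (p : 𝓞 F) ∣ P.1 - Q.1 ∧ (p : 𝓞 F) ∣ P.2 - Q.2)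
    (ε b : ℝ) (j : ℕ) (hj : 1 ≤ j) (hε : 0 ≤ ε) (hb : 0 < b) (hb2 : b ≤ low - Cp)
    (hcos : (max 0 (Real.log (8 * R ^ 3 / p ^ 2)) + Cp) / 2 - (low - Cp) ≤ ε * b)
    (hN : 2 * (Nat.multichoose r j : ℝ) * ε ^ (2 * j - 1) ≤ 1 / 2) :
    (T.card : ℝ) ≤ 4 * Nat.multichoose r j := by
  classical
  let e : Fin T.card ≃ T := (Finset.equivFin T).symm
  let x : Fin T.card → (Ek (k : F)).Point := fun i => pt hk (hT (e i) (e i).2)
  obtain ⟨w, hw1, hw2⟩ := gram_of_height (fun P => ht κ P) Cp (fun P => ht_nonneg κ P) hpar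
    (fun b => northcott hk hκ b) r hfin hr T.card x
  refine sphere_code w ε b j hj hε hb ?_ ?_ hN
  · intro i
    have h1 := (abs_le.mp (hw1 i)).2
    have h2 := hlow (e i) (e i).2
    have h3 : ht κ (x i) = ht κ (pt hk (hT (e i) (e i).2)) := rfl
    linarith
  · intro i i' hne
    have h1 := (abs_le.mp (hw1 i)).2
    have h1' := (abs_le.mp (hw1 i')).2
    have h2 := hlow (e i) (e i).2
    have h2' := hlow (e i') (e i').2
    have h3 : ht κ (x i) = ht κ (pt hk (hT (e i) (e i).2)) := rfl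
    have h3' : ht κ (x i') = ht κ (pt hk (hT (e i') (e i').2)) := rfl
    have h4 := (abs_le.mp (hw2 i i')).1
    have h5 : ht κ (x i + x i') ≤ max 0 (Real.log (8 * R ^ 3 / p ^ 2)) := by
      obtain ⟨ha, hb⟩ := hTp (e i) (e i).2 (e i') (e i').2
      refine ht_add_congr v hv hk hκ (hT (e i) (e i).2) (hT (e i') (e i').2) ?_ R hR
        (hTR _ (e i).2) (hTR _ (e i').2) hkR p hp ha hb
      intro h
      apply hne
      apply e.injective
      apply Subtype.ext
      exact Prod.ext (congrArg Prod.fst h) (congrArg Prod.snd h)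
    have h6 : ∑ a, (w i a + w i' a) ^ 2 = ∑ a, w i a ^ 2 + ∑ a, w i' a ^ 2 +
        2 * ∑ a, w i a * w i' a := by
      rw [Finset.mul_sum, ← Finset.sum_add_distrib, ← Finset.sum_add_distrib]
      apply Finset.sum_congr rfl
      intro a _
      ring
    rw [h6] at h4
    linarith

end Pool.Agent.Lib.MP_695920_nt.Qt
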