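import Mathlib
import Pool.Agent.Lib.MP_695920_nt.Qt.PtsA

/-!
The bound for the number of points on one curve.
-/

set_option autoImplicit false

open NumberField Module

namespace Pool.Agent.Lib.MP_695920_nt.Qt

/-- lower bound for the height of an integral point -/
lemma ht_lower {F M : Type} [Field F] [NumberField F] [Field M] [NumberField M] [Algebra F M]
    [IsPrincipalIdealRing (𝓞 F)]
    (v : InfinitePlace F) (hv : ∀ w : InfinitePlace F, w = v) {k : 𝓞 F} {κ : M}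
    (hk : (k : F) ≠ 0) (hκ : κ ^ 3 = algebraMap F M k) {X Y : 𝓞 F}
    (h : (Y : F) ^ 2 = (X : F) ^ 3 + k) (A B : ℝ) (hA : 0 < A) (hB : 0 < B)
    (hg : ∀ g : 𝓞 F, g ∣ X ^ 3 → g ∣ k → A * v (g : F) ≤ B * v (X : F) ^ 3) :
    (Real.log A - Real.log B) / 3 ≤ ht κ (pt hk h) := by
  classical
  have hk0 : k ≠ 0 := by
    rintro rfl
    exact hk (by simp)
  obtain ⟨g, hgs⟩ := (IsPrincipalIdealRing.principal (Ideal.span {X ^ 3, k})).principal
  rw [Ideal.submodule_span_eq] at hgs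
  have hgX : g ∣ X ^ 3 := by
    rw [← Ideal.mem_span_singleton, ← hgs]
    exact Ideal.subset_span (by simp)
  have hgk : g ∣ k := by
    rw [← Ideal.mem_span_singleton, ← hgs]
    exact Ideal.subset_span (by simp)
  obtain ⟨a, ha⟩ := hgX
  obtain ⟨b, hb⟩ := hgk
  have hg0 : g ≠ 0 := by
    rintro rfl
    exact hk0 (by rw [hb, zero_mul])
  have hcop : IsCoprime a b := by
    have h1 : g ∈ Ideal.span {X ^ 3, k} := by
      rw [hgs]; exact Ideal.mem_span_singleton_self g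
    rw [Ideal.mem_span_pair] at h1
    obtain ⟨c, d, hcd⟩ := h1
    refine ⟨c, d, ?_⟩
    apply mul_left_cancel₀ hg0
    calc g * (c * a + d * b) = c * (g * a) + d * (g * b) := by ring
      _ = g := by rw [← ha, ← hb, hcd]
      _ = g * 1 := (mul_one g).symm
  have h2 := ht_int_eq v hv hk hκ ha (show (k : F) = (g : F) * b by
    have := congrArg (fun z : 𝓞 F => (z : F)) hb
    simpa using this) hcop h
  rw [h2]
  have h3 := hg g ⟨a, ha⟩ ⟨b, hb⟩
  have hgF : (g : F) ≠ 0 := by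
    intro h0
    exact hg0 (RingOfIntegers.ext h0)
  have hvg : 0 < v (g : F) := v.pos_iff.mpr hgF
  have hX0 : 0 < v (X : F) ^ 3 := by
    have h4 : 0 < A * v (g : F) := by positivity
    by_contra hcon
    push Not at hcon
    have := mul_nonpos_of_nonneg_of_nonpos hB.le hcon
    linarith
  have h5 : Real.log A + Real.log (v (g : F)) ≤ Real.log B + Real.log (v (X : F) ^ 3) := by
    rw [← Real.log_mul hA.ne' hvg.ne', ← Real.log_mul hB.ne' hX0.ne']
    exact Real.log_le_log (by positivity) h3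
  have h6 : Real.log (v (X : F) ^ 3) ≤ Real.log (max (v (X : F) ^ 3) (v (k : F))) :=
    Real.log_le_log hX0 (le_max_left _ _)
  linarith

/-- counting by residue classes -/
lemma card_le_classes {α : Type*} [DecidableEq α] (S : Finset α) (m : ℕ) (c : α → Fin m) (B : ℝ)
    (hB : ∀ i, ((S.filter (fun x => c x = i)).card : ℝ) ≤ B) : (S.card : ℝ) ≤ m * B := by
  have h1 : S.card = ∑ i : Fin m, (S.filter (fun x => c x = i)).card :=
    Finset.card_eq_sum_card_fiberwise (fun x _ => Finset.mem_univ (c x))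
  rw [h1]
  push_cast
  calc ∑ i : Fin m, ((S.filter (fun x => c x = i)).card : ℝ) ≤ ∑ _i : Fin m, B :=
        Finset.sum_le_sum (fun i _ => hB i)
    _ = m * B := by simp

/-- the trivial bound -/
lemma card_triv {F : Type} [Field F] [NumberField F] (v : InfinitePlace F) (k : 𝓞 F) (R N : ℝ)
    (hfin : {z : 𝓞 F | v (z : F) ≤ R}.Finite) (hN : ({z : 𝓞 F | v (z : F) ≤ R}.ncard : ℝ) ≤ N)
    (S : Finset (𝓞 F × 𝓞 F)) (hS : ∀ P ∈ S, P.2 ^ 2 = P.1 ^ 3 + k ∧ v (P.1 : F) ≤ R) :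
    (S.card : ℝ) ≤ 2 * N := by
  classical
  have h1 : (S.image Prod.fst).card ≤ {z : 𝓞 F | v (z : F) ≤ R}.ncard := by
    rw [← Set.ncard_coe_finset]
    apply Set.ncard_le_ncard _ hfin
    intro z hz
    rw [Finset.mem_coe, Finset.mem_image] at hz
    obtain ⟨P, hP, rfl⟩ := hz
    exact (hS P hP).2
  have h2 : S.card ≤ 2 * (S.image Prod.fst).card := by
    apply Finset.card_le_mul_card_image
    intro x hx
    by_contra hcon
    push Not at hcon
    obtain ⟨P, hP, Q, hQ, W, hW, h12, h13, h23⟩ := Finset.two_lt_card.mp hcon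
    rw [Finset.mem_filter] at hP hQ hW
    have e1 := (hS P hP.1).1
    have e2 := (hS Q hQ.1).1
    have e3 := (hS W hW.1).1
    rw [hP.2] at e1
    rw [hQ.2] at e2
    rw [hW.2] at e3
    have n1 : P.2 ≠ Q.2 := fun h => h12 (Prod.ext (hP.2.trans hQ.2.symm) h)
    have n2 : P.2 ≠ W.2 := fun h => h13 (Prod.ext (hP.2.trans hW.2.symm) h)
    have n3 : Q.2 ≠ W.2 := fun h => h23 (Prod.ext (hQ.2.trans hW.2.symm) h)
    have m1 : (P.2 - Q.2) * (P.2 + Q.2) = 0 := by linear_combination e1 - e2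
    have m2 : (P.2 - W.2) * (P.2 + W.2) = 0 := by linear_combination e1 - e3
    have s1 := (mul_eq_zero.mp m1).resolve_left (sub_ne_zero.mpr n1)
    have s2 := (mul_eq_zero.mp m2).resolve_left (sub_ne_zero.mpr n2)
    apply n3
    linear_combination s1 - s2
  have h3 : (S.card : ℝ) ≤ 2 * ((S.image Prod.fst).card : ℝ) := by exact_mod_cast h2
  have h4 : ((S.image Prod.fst).card : ℝ) ≤ ({z : 𝓞 F | v (z : F) ≤ R}.ncard : ℝ) := by
    exact_mod_cast h1
  linarith

/-- the exponent of three -/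
lemma clog_le (c0 L : ℝ) (hc0 : 1 ≤ c0) (hL : 0 ≤ L) (idx : ℕ) (h1 : 1 ≤ idx)
    (h : Real.log idx ≤ Real.log c0 + c0 * L) :
    (Nat.clog 3 idx : ℝ) ≤ (1 + Real.log c0 + c0) * (L + 1) := by
  have hlc : 0 ≤ Real.log c0 := Real.log_nonneg hc0
  have hlog3 : (1 : ℝ) ≤ Real.log 3 := by
    rw [← Real.log_exp 1]
    apply Real.log_le_log (Real.exp_pos 1)
    linarith [Real.exp_one_lt_d9]
  have key : (Nat.clog 3 idx : ℝ) - 1 ≤ Real.log c0 + c0 * L := by
    rcases Nat.eq_zero_or_pos (Nat.clog 3 idx) with h0 | h0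
    · rw [h0]
      have : 0 ≤ c0 * L := by positivity
      push_cast
      linarith
    · have h2 : 3 ^ (Nat.clog 3 idx - 1) < idx := by
        by_contra hcon
        push Not at hcon
        have := Nat.clog_le_of_le_pow hcon
        omega
      have h3 : ((3 : ℝ)) ^ (Nat.clog 3 idx - 1) ≤ idx := by exact_mod_cast h2.le
      have h4 := Real.log_le_log (by positivity) h3
      rw [Real.log_pow] at h4
      have h5 : ((Nat.clog 3 idx - 1 : ℕ) : ℝ) = (Nat.clog 3 idx : ℝ) - 1 := by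
        rw [Nat.cast_sub h0]; simp
      rw [h5] at h4
      have h6 : 0 ≤ (Nat.clog 3 idx : ℝ) - 1 := by
        have : (1 : ℝ) ≤ Nat.clog 3 idx := by exact_mod_cast h0
        linarith
      have h7 : ((Nat.clog 3 idx : ℝ) - 1) * 1 ≤ ((Nat.clog 3 idx : ℝ) - 1) * Real.log 3 :=
        mul_le_mul_of_nonneg_left hlog3 h6
      linarith
  nlinarith [mul_nonneg hlc hL]

theorem points_bound (C₀ : ℝ) : ∃ θ : ℝ, 0 < θ ∧ θ < 1 / 8 ∧ ∃ C : ℝ, ∀ (F : Type) [Field F]
    [NumberField F] [DecidableEq F] [IsCyclotomicExtension {3} ℚ F] (v : InfinitePlace F)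
    (k : 𝓞 F) (D : ℝ)
    (S : Finset (𝓞 F × 𝓞 F)), k ≠ 0 → 1 ≤ D → v (k : F) ≤ C₀ * D ^ (3 / 4 : ℝ) →
    (nsmulAddMonoidHom (α := (Ek (k : F)).Point) 3).range.index ≠ 0 →
    ((nsmulAddMonoidHom (α := (Ek (k : F)).Point) 3).range.index : ℝ) ≤ C₀ * D ^ C₀ →
    (∀ P ∈ S, P.2 ^ 2 = P.1 ^ 3 + k ∧ v (P.1 : F) ≤ C₀ * D ^ (1 / 4 : ℝ) ∧
      ∀ g : 𝓞 F, g ∣ P.1 ^ 3 → g ∣ k →
        D ^ (3 / 4 - θ / 4 : ℝ) * v (g : F) ≤ C₀ * v (P.1 : F) ^ 3) →
    (S.card : ℝ) ≤ C * D ^ (1 / 4 - θ / 2 : ℝ) := by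
  classical
  obtain ⟨Cp, hCp, hpar⟩ := parallelogram
  obtain ⟨Ce, hce⟩ := eis_count
  set c0 : ℝ := max C₀ 1 with hc0
  have hc01 : 1 ≤ c0 := le_max_right _ _
  have hC0 : C₀ ≤ c0 := le_max_left _ _
  have hlc : 0 ≤ Real.log c0 := Real.log_nonneg hc01
  obtain ⟨ε₀, hε₀, hnum⟩ := code_numeric (1 + Real.log c0 + c0)
  set θ : ℝ := min (1 / 256) (ε₀ / 4) with hθ
  have hθ0 : 0 < θ := lt_min (by norm_num) (by positivity)
  have hθ1 : θ ≤ 1 / 256 := min_le_left _ _
  have hθ2 : 4 * θ ≤ ε₀ := by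
    have := min_le_right (1 / 256) (ε₀ / 4)
    rw [← hθ] at this
    linarith
  obtain ⟨C2, hC2⟩ := hnum (4 * θ) (by positivity) hθ2
  set A1 : ℝ := Real.log c0 / 3 + Cp with hA1
  have hA10 : 0 ≤ A1 := by positivity
  set A2 : ℝ := Real.log 8 + 3 * Real.log c0 + Cp with hA2
  have hA20 : 0 ≤ A2 := by
    have : 0 ≤ Real.log 8 := Real.log_nonneg (by norm_num)
    positivity
  set L0 : ℝ := 26 * A1 + (A2 / 2 + A1) * 5 / θ + 1 with hL0
  set C3 : ℝ := 576 * |C2| + 2 * (|Ce| * (c0 * Real.exp (L0 / 4) + 1) ^ 2) with hC3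
  refine ⟨θ, hθ0, by linarith, C3, ?_⟩
  intro F _ _ _ _ v k D S hk0 hD hkD hidx hidx2 hS
  set L := Real.log D with hL
  have hL1 : 0 ≤ L := Real.log_nonneg hD
  have hD0 : 0 < D := by linarith
  have hv : ∀ w : InfinitePlace F, w = v := fun w => (eis_place F w v).1
  have hpid : IsPrincipalIdealRing (𝓞 F) := IsCyclotomicExtension.Rat.three_pid F
  have hkF : (k : F) ≠ 0 := fun h => hk0 (RingOfIntegers.ext h)
  have hDpow : ∀ a : ℝ, D ^ a = Real.exp (a * L) := by
    intro a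
    rw [Real.rpow_def_of_pos hD0, mul_comm]
  set R : ℝ := c0 * D ^ (1 / 4 : ℝ) with hR
  have hD4 : (1 : ℝ) ≤ D ^ (1 / 4 : ℝ) := Real.one_le_rpow hD (by norm_num)
  have hR1 : 1 ≤ R := by
    calc (1 : ℝ) = 1 * 1 := by ring
      _ ≤ c0 * D ^ (1 / 4 : ℝ) := mul_le_mul hc01 hD4 zero_le_one (by linarith)
  have hR0 : 0 < R := by linarith
  have hlogR : Real.log R = Real.log c0 + L / 4 := by
    rw [hR, Real.log_mul (by linarith) (by positivity), Real.log_rpow hD0]
    ring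
  have hR3 : R ^ 3 = c0 ^ 3 * D ^ (3 / 4 : ℝ) := by
    rw [hR, mul_pow, ← Real.rpow_natCast (D ^ (1 / 4 : ℝ)) 3, ← Real.rpow_mul hD0.le]
    norm_num
  have hkR : v (k : F) ≤ R ^ 3 := by
    rw [hR3]
    refine hkD.trans (mul_le_mul_of_nonneg_right ?_ (by positivity))
    calc C₀ ≤ c0 := hC0
      _ = c0 ^ 1 := (pow_one _).symm
      _ ≤ c0 ^ 3 := pow_le_pow_right₀ hc01 (by norm_num)
  have hSR : ∀ P ∈ S, v (P.1 : F) ≤ R := fun P hP =>
    (hS P hP).2.1.trans (mul_le_mul_of_nonneg_right hC0 (by positivity))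
  have hgoal : (1 : ℝ) ≤ D ^ (1 / 4 - θ / 2 : ℝ) := Real.one_le_rpow hD (by linarith)
  rcases lt_or_ge L L0 with hLs | hLl
  · -- small discriminant
    obtain ⟨hfin, hcard⟩ := hce F v R hR0.le
    have h1 := card_triv v k R _ hfin hcard S (fun P hP => ⟨(hS P hP).1, hSR P hP⟩)
    have h2 : R ≤ c0 * Real.exp (L0 / 4) := by
      rw [hR, hDpow]
      apply mul_le_mul_of_nonneg_left _ (by linarith)
      apply Real.exp_le_exp.mpr
      linarith
    have h3 : Ce * (R + 1) ^ 2 ≤ |Ce| * (c0 * Real.exp (L0 / 4) + 1) ^ 2 := by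
      apply mul_le_mul (le_abs_self _) _ (by positivity) (abs_nonneg _)
      apply pow_le_pow_left₀ (by linarith)
      linarith
    have h4 : (S.card : ℝ) ≤ C3 := by
      have : 0 ≤ 576 * |C2| := by positivity
      rw [hC3]
      linarith
    have h5 : 0 ≤ C3 := le_trans (Nat.cast_nonneg _) h4
    calc (S.card : ℝ) ≤ C3 * 1 := by rw [mul_one]; exact h4
      _ ≤ _ := mul_le_mul_of_nonneg_left hgoal h5
  -- large discriminant
  obtain ⟨M, _, _, _, κ, hκ⟩ := exists_cbrt (k : F)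
  set idx := (nsmulAddMonoidHom (α := (Ek (k : F)).Point) 3).range.index with hidxdef
  have hidx1 : 1 ≤ idx := Nat.one_le_iff_ne_zero.mpr hidx
  have hidxr : (1 : ℝ) ≤ idx := by exact_mod_cast hidx1
  have hidxlog : Real.log idx ≤ Real.log c0 + c0 * L := by
    have h1 : (idx : ℝ) ≤ c0 * D ^ c0 := by
      refine hidx2.trans ?_
      have hC00 : 0 ≤ C₀ := by
        by_contra hcon
        push Not at hcon
        have : C₀ * D ^ C₀ ≤ 0 := mul_nonpos_of_nonpos_of_nonneg hcon.le (by positivity)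
        linarith
      exact mul_le_mul hC0 (Real.rpow_le_rpow_of_exponent_le hD hC0) (by positivity) (by linarith)
    have h2 := Real.log_le_log (by linarith) h1
    rwa [Real.log_mul (by linarith) (by positivity), Real.log_rpow hD0] at h2
  have hr := clog_le c0 L hc01 hL1 idx hidx1 hidxlog
  obtain ⟨j, hj, hN, hN2⟩ := hC2 L (Nat.clog 3 idx) hL1 hr
  -- the prime
  set α : ℝ := 1 / 8 - θ / 2 with hα
  have hα0 : 0 < α := by rw [hα]; linarith
  have hDα : 1 ≤ D ^ α := Real.one_le_rpow hD hα0.le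
  set m : ℕ := max 4 ⌈D ^ α⌉₊ with hm
  obtain ⟨p, hpp, hmp, hp2m⟩ := Nat.exists_prime_lt_and_le_two_mul m (by
    have : 4 ≤ m := le_max_left _ _
    omega)
  have hp5 : 5 ≤ p := by
    have : 4 ≤ m := le_max_left _ _
    omega
  have hpl : D ^ α ≤ p := by
    calc D ^ α ≤ ⌈D ^ α⌉₊ := Nat.le_ceil _
      _ ≤ m := by exact_mod_cast le_max_right _ _
      _ ≤ p := by exact_mod_cast hmp.le
  have hpu : (p : ℝ) ≤ 12 * D ^ α := by
    have h1 : (m : ℝ) ≤ 4 + (D ^ α + 1) := by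
      have h2 : (m : ℝ) ≤ 4 + ⌈D ^ α⌉₊ := by
        have : m ≤ 4 + ⌈D ^ α⌉₊ := max_le (by omega) (by omega)
        exact_mod_cast this
      have h3 := (Nat.ceil_lt_add_one (show 0 ≤ D ^ α by positivity)).le
      linarith
    have h4 : (p : ℝ) ≤ 2 * m := by exact_mod_cast hp2m
    linarith
  have hp0 : (0 : ℝ) < p := by positivity
  have hlogp : α * L ≤ Real.log p := by
    have := Real.log_le_log (by positivity) hpl
    rwa [Real.log_rpow hD0] at this
  obtain ⟨c, hc⟩ := eis_residues F p hpp hp5 k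
  -- the size of one class
  have hθL : (A2 / 2 + A1) * 5 ≤ θ * L := by
    have h1 : (A2 / 2 + A1) * 5 / θ ≤ L := by
      have : 0 ≤ 26 * A1 := by positivity
      linarith
    rw [div_le_iff₀ hθ0] at h1
    linarith
  have h26 : 26 * A1 ≤ L := by
    have : 0 ≤ (A2 / 2 + A1) * 5 / θ := by positivity
    linarith
  have hLpos : 0 < L := by
    have : 0 ≤ (A2 / 2 + A1) * 5 / θ := by positivity
    have : 0 ≤ 26 * A1 := by positivity
    linarith
  have hclass : ∀ i, ((S.filter (fun x => c x = i)).card : ℝ) ≤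
      4 * Nat.multichoose (Nat.clog 3 idx) j := by
    intro i
    have hTeq : ∀ P ∈ S.filter (fun x => c x = i), (P.2 : F) ^ 2 = (P.1 : F) ^ 3 + k := by
      intro P hP
      have h1 := (hS P (Finset.mem_filter.mp hP).1).1
      have := congrArg (fun z : 𝓞 F => (z : F)) h1
      simpa using this
    refine class_card v hv hkF hκ Cp (hpar F M (k : F) κ hkF hκ) (Nat.clog 3 idx) hidx
      (Nat.le_pow_clog (by norm_num) idx) _ hTeq
      (((3 / 4 - θ / 4) * L - Real.log c0) / 3) R hR1 hkR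
      (fun P hP => hSR P (Finset.mem_filter.mp hP).1) ?_ p hpp.pos ?_ (4 * θ) (L / 5) j hj
      (by positivity) (by positivity) ?_ ?_ hN
    · intro P hP
      have h1 := ht_lower (F := F) (M := M) v hv hkF hκ (hTeq P hP) (D ^ (3 / 4 - θ / 4 : ℝ)) c0
        (by positivity) (by linarith) (by
          intro g hg1 hg2
          refine ((hS P (Finset.mem_filter.mp hP).1).2.2 g hg1 hg2).trans ?_
          exact mul_le_mul_of_nonneg_right hC0 (by positivity))
      rw [Real.log_rpow hD0] at h1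
      exact h1
    · intro P hP Q hQ
      rw [Finset.mem_filter] at hP hQ
      exact hc P Q (hS P hP.1).1 (hS Q hQ.1).1 (hP.2.trans hQ.2.symm)
    · -- L/5 ≤ low - Cp
      have : ((3 / 4 - θ / 4) * L - Real.log c0) / 3 - Cp = (1 / 4 - θ / 12) * L - A1 := by
        rw [hA1]; ring
      rw [this]
      nlinarith
    · have e1 : ((3 / 4 - θ / 4) * L - Real.log c0) / 3 - Cp = (1 / 4 - θ / 12) * L - A1 := by
        rw [hA1]; ring
      rw [e1]
      have h1 : max 0 (Real.log (8 * R ^ 3 / p ^ 2)) ≤ (1 / 2 + θ) * L + A2 - Cp := by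
        apply max_le
        · have : 0 ≤ (1 / 2 + θ) * L := by positivity
          have h8 : 0 ≤ Real.log 8 := Real.log_nonneg (by norm_num)
          rw [hA2]
          linarith
        · rw [Real.log_div (by positivity) (by positivity), Real.log_mul (by norm_num) (by positivity),
            Real.log_pow, Real.log_pow, hlogR]
          push_cast
          rw [hA2]
          have : 2 * (α * L) = (1 / 4 - θ) * L := by rw [hα]; ring
          linarith
      nlinarith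
  have hfinal := card_le_classes S (4 * p ^ 2) c _ hclass
  have hexp : Real.exp ((4 * θ) ^ (3 / 2 : ℝ) * L) ≤ D ^ (θ / 2) := by
    rw [hDpow]
    apply Real.exp_le_exp.mpr
    apply mul_le_mul_of_nonneg_right _ hL1
    have h1 : (4 * θ) ^ (3 / 2 : ℝ) = (4 * θ) * (4 * θ) ^ (1 / 2 : ℝ) := by
      rw [show (3 / 2 : ℝ) = 1 + 1 / 2 by norm_num, Real.rpow_add (by positivity), Real.rpow_one]
    have h2 : (4 * θ) ^ (1 / 2 : ℝ) ≤ 1 / 8 := by
      rw [← Real.sqrt_eq_rpow, Real.sqrt_le_left (by norm_num)]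
      linarith
    rw [h1]
    have h3 : (4 * θ) * (4 * θ) ^ (1 / 2 : ℝ) ≤ (4 * θ) * (1 / 8) :=
      mul_le_mul_of_nonneg_left h2 (by positivity)
    linarith
  have hN3 : 4 * (Nat.multichoose (Nat.clog 3 idx) j : ℝ) ≤ |C2| * D ^ (θ / 2) := by
    refine hN2.trans ?_
    exact mul_le_mul (le_abs_self _) hexp (Real.exp_pos _).le (abs_nonneg _)
  have hp2 : ((4 * p ^ 2 : ℕ) : ℝ) ≤ 576 * D ^ (1 / 4 - θ : ℝ) := by
    push_cast
    have h1 : (p : ℝ) ^ 2 ≤ (12 * D ^ α) ^ 2 := pow_le_pow_left₀ hp0.le hpu 2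
    have h2 : (D ^ α) ^ 2 = D ^ (1 / 4 - θ : ℝ) := by
      rw [← Real.rpow_natCast, ← Real.rpow_mul hD0.le]
      congr 1
      rw [hα]; push_cast; ring
    rw [mul_pow, h2] at h1
    linarith
  have h7 : (S.card : ℝ) ≤ (576 * D ^ (1 / 4 - θ : ℝ)) * (|C2| * D ^ (θ / 2)) :=
    hfinal.trans (mul_le_mul hp2 hN3 (by positivity) (by positivity))
  have h8 : (576 * D ^ (1 / 4 - θ : ℝ)) * (|C2| * D ^ (θ / 2)) =
      576 * |C2| * D ^ (1 / 4 - θ / 2 : ℝ) := by
    rw [show (1 / 4 - θ / 2 : ℝ) = (1 / 4 - θ) + θ / 2 by ring, Real.rpow_add hD0]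
    ring
  rw [h8] at h7
  refine h7.trans (mul_le_mul_of_nonneg_right ?_ (by positivity))
  have : 0 ≤ 2 * (|Ce| * (c0 * Real.exp (L0 / 4) + 1) ^ 2) := by positivity
  rw [hC3]
  linarith

end Pool.Agent.Lib.MP_695920_nt.Qt
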