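import Mathlib
import Pool.Agent.Lib.MP_695920_nt.Qt.Defs

/-! MP_695920_nt, pair (4,3), task T11 (helper39): the size of the group `Sel K a` modulo cubes. -/

set_option autoImplicit false

open NumberField Module IsDedekindDomain
open scoped nonZeroDivisors

namespace Pool.Agent.Lib.MP_695920_nt.Qt

/-- bounding an index by an invariant -/
theorem t11_index {G : Type*} [CommGroup G] {H L : Subgroup G} {β : Type*} [Finite β]
    (f : L → β) (hf : ∀ x y : L, f x = f y → (x : G)⁻¹ * y ∈ H) :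
    H.relIndex L ≠ 0 ∧ H.relIndex L ≤ Nat.card β := by
  have hinj : Function.Injective (fun c : L ⧸ H.subgroupOf L => f c.out) := by
    intro c c' hcc
    have h1 := hf _ _ hcc
    have h2 : (QuotientGroup.mk c.out : L ⧸ H.subgroupOf L) = QuotientGroup.mk c'.out := by
      rw [QuotientGroup.eq, Subgroup.mem_subgroupOf]
      simpa using h1
    rwa [QuotientGroup.out_eq', QuotientGroup.out_eq'] at h2
  have hfin : Finite (L ⧸ H.subgroupOf L) := Finite.of_injective _ hinj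
  constructor
  · rw [Subgroup.relIndex, Subgroup.index]
    exact Nat.card_pos.ne'
  · rw [Subgroup.relIndex, Subgroup.index]
    exact Nat.card_le_card_of_injective _ hinj

/-- units modulo cubes -/
theorem t11_units (K : Type) [Field K] [NumberField K] :
    ∃ f : (𝓞 K)ˣ → Fin 3 × (Fin (Units.rank K) → Fin 3), ∀ x y, f x = f y →
      ∃ w : (𝓞 K)ˣ, x = y * w ^ 3 := by
  obtain ⟨g, hg⟩ := IsCyclic.exists_generator (α := Units.torsion K)
  have h1 : ∀ x : (𝓞 K)ˣ, ∃ (t : ℤ) (e : Fin (Units.rank K) → ℤ),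
      x = (g : (𝓞 K)ˣ) ^ t * ∏ i, (Units.fundSystem K i) ^ (e i) := by
    intro x
    obtain ⟨⟨ζ, e⟩, hx, -⟩ := Units.exist_unique_eq_mul_prod K x
    obtain ⟨t, ht⟩ := Subgroup.mem_zpowers_iff.mp (hg ζ)
    refine ⟨t, e, ?_⟩
    rw [hx]
    dsimp only
    rw [← ht]
    simp
  choose t e hte using h1
  refine ⟨fun x => (Fin.ofNat 3 (t x % 3).toNat, fun i => Fin.ofNat 3 (e x i % 3).toNat), ?_⟩
  intro x y hxy
  have hmod : ∀ a b : ℤ, Fin.ofNat 3 (a % 3).toNat = Fin.ofNat 3 (b % 3).toNat →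
      ∃ c : ℤ, a = b + c * 3 := by
    intro a b hab
    have h2 := congrArg Fin.val hab
    simp only [Fin.ofNat, Fin.val_mk] at h2
    refine ⟨(a - b) / 3, ?_⟩
    omega
  rw [Prod.mk.injEq] at hxy
  obtain ⟨c0, hc0⟩ := hmod _ _ hxy.1
  have h3 : ∀ i, ∃ c : ℤ, e x i = e y i + c * 3 := fun i => hmod _ _ (congrFun hxy.2 i)
  choose c hc using h3
  refine ⟨(g : (𝓞 K)ˣ) ^ c0 * ∏ i, (Units.fundSystem K i) ^ (c i), ?_⟩
  rw [hte x, hte y]
  conv_lhs => rw [hc0]
  have h4 : ∏ i, (Units.fundSystem K i) ^ (e x i) =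
      (∏ i, (Units.fundSystem K i) ^ (e y i)) * (∏ i, (Units.fundSystem K i) ^ (c i)) ^ 3 := by
    rw [← Finset.prod_pow, ← Finset.prod_mul_distrib]
    apply Finset.prod_congr rfl
    intro i _
    rw [hc i, zpow_add, zpow_mul]
    norm_cast
  rw [h4, zpow_add, zpow_mul, mul_pow]
  have h5 : (((g : (𝓞 K)ˣ) ^ c0) ^ (3 : ℤ)) = ((g : (𝓞 K)ˣ) ^ c0) ^ 3 := by norm_cast
  rw [h5]
  simp only [mul_comm, mul_left_comm, mul_assoc]

theorem t11_rank (K : Type) [Field K] [NumberField K] : Units.rank K + 1 ≤ finrank ℚ K := by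
  have h1 := InfinitePlace.card_add_two_mul_card_eq_rank K
  have h2 := InfinitePlace.card_eq_nrRealPlaces_add_nrComplexPlaces K
  have h3 : 0 < Fintype.card (InfinitePlace K) := Fintype.card_pos
  unfold Units.rank
  omega

/-- an ideal all of whose exponents are divisible by `3` is a cube -/
theorem t11_cube {K : Type} [Field K] [NumberField K] {r : 𝓞 K} (hr : r ≠ 0)
    (h : ∀ v : HeightOneSpectrum (𝓞 K),
      3 ∣ (Associates.mk v.asIdeal).count (Associates.mk (Ideal.span {r})).factors) :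
    ∃ I : Ideal (𝓞 K), Ideal.span {r} = I ^ 3 := by
  have hr' : Ideal.span {r} ≠ 0 := by
    rw [Ideal.zero_eq_bot, Ne, Ideal.span_singleton_eq_bot]
    exact hr
  obtain ⟨b, hb⟩ := Associates.is_pow_of_dvd_count (a := Associates.mk (Ideal.span {r}))
    (Associates.mk_ne_zero.mpr hr') (k := 3) (by
      intro p hp
      obtain ⟨P, rfl⟩ := Associates.mk_surjective p
      have hP : Irreducible P := Associates.irreducible_mk.mp hp
      have hP' : Prime P := hP.prime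
      have := h ⟨P, Ideal.isPrime_of_prime hP', hP'.ne_zero⟩
      exact this)
  obtain ⟨I, rfl⟩ := Associates.mk_surjective b
  refine ⟨I, ?_⟩
  rw [← Associates.mk_pow, Associates.mk_eq_mk_iff_associated, associated_iff_eq] at hb
  exact hb

theorem t11_val {K : Type} [Field K] [NumberField K] (v : HeightOneSpectrum (𝓞 K)) {r : 𝓞 K}
    (hr : r ≠ 0) {z : Kˣ} (hz : (z : K) = algebraMap (𝓞 K) K r) :
    Multiplicative.toAdd (v.valuationOfNeZero z) =
      -((Associates.mk v.asIdeal).count (Associates.mk (Ideal.span {r})).factors : ℤ) := by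
  have h1 := v.valuationOfNeZero_eq (K := K) z
  rw [hz, HeightOneSpectrum.valuation_of_algebraMap, HeightOneSpectrum.intValuation_if_neg _ hr]
    at h1
  have h2 : (v.valuationOfNeZero z) = Multiplicative.ofAdd
      (-((Associates.mk v.asIdeal).count (Associates.mk (Ideal.span {r})).factors : ℤ)) := by
    exact WithZero.coe_inj.mp h1
  rw [h2]
  rfl

/-- elements with all exponents divisible by `3`: up to cubes, the cube of an ideal -/
theorem t11_ideal {K : Type} [Field K] [NumberField K] (z : Kˣ)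
    (hz : ∀ v : HeightOneSpectrum (𝓞 K), (3 : ℤ) ∣ Multiplicative.toAdd (v.valuationOfNeZero z)) :
    ∃ (r : 𝓞 K) (s : Kˣ) (I : (Ideal (𝓞 K))⁰), r ≠ 0 ∧ (z : K) = algebraMap (𝓞 K) K r * (s : K) ^ 3 ∧
      Ideal.span {r} = (I : Ideal (𝓞 K)) ^ 3 := by
  obtain ⟨a, b, hb, hab⟩ := IsFractionRing.div_surjective (A := 𝓞 K) (z : K)
  have hb0 : b ≠ 0 := nonZeroDivisors.ne_zero hb
  have hbK : algebraMap (𝓞 K) K b ≠ 0 := by
    rw [Ne, FaithfulSMul.algebraMap_eq_zero_iff]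
    exact hb0
  have ha0 : a ≠ 0 := by
    rintro rfl
    rw [map_zero, zero_div] at hab
    exact z.ne_zero hab.symm
  -- `r = a * b ^ 2`, `s = 1 / b`
  have hr0 : a * b ^ 2 ≠ 0 := mul_ne_zero ha0 (pow_ne_zero _ hb0)
  set s : Kˣ := (Units.mk0 _ hbK)⁻¹ with hs
  have hsv : (s : K) = (algebraMap (𝓞 K) K b)⁻¹ := by
    rw [hs]
    simp
  have hzr : (z : K) = algebraMap (𝓞 K) K (a * b ^ 2) * (s : K) ^ 3 := by
    rw [hsv, ← hab, map_mul, map_pow]
    field_simp
  have hr : ((z * s⁻¹ ^ 3 : Kˣ) : K) = algebraMap (𝓞 K) K (a * b ^ 2) := by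
    rw [Units.val_mul, Units.val_pow_eq_pow_val, Units.val_inv_eq_inv_val, hzr, inv_pow,
      mul_assoc, mul_inv_cancel₀ (pow_ne_zero 3 s.ne_zero), mul_one]
  have hI := t11_cube hr0 (by
    intro v
    have h1 := t11_val v hr0 hr
    have h2 : (3 : ℤ) ∣ Multiplicative.toAdd (v.valuationOfNeZero (z * s⁻¹ ^ 3)) := by
      rw [map_mul, map_pow, toAdd_mul, toAdd_pow]
      refine dvd_add (hz v) ?_
      rw [nsmul_eq_mul]
      exact dvd_mul_right _ _
    rw [h1] at h2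
    have h3 := (Int.dvd_neg).mp h2
    exact_mod_cast h3)
  obtain ⟨I, hI⟩ := hI
  have hI0 : I ≠ ⊥ := by
    rintro rfl
    rw [← Ideal.zero_eq_bot, zero_pow (by norm_num), Ideal.zero_eq_bot,
      Ideal.span_singleton_eq_bot] at hI
    exact hr0 hI
  exact ⟨a * b ^ 2, s, ⟨I, mem_nonZeroDivisors_iff_ne_zero.mpr hI0⟩, hr0, hzr, hI⟩

/-- units times cubes -/
def UCub (K : Type) [Field K] [NumberField K] : Subgroup Kˣ :=
  (Units.map (algebraMap (𝓞 K) K : 𝓞 K →* K)).range ⊔ Cub K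

theorem t11_mem_UCub {K : Type} [Field K] [NumberField K] {z : Kˣ} :
    z ∈ UCub K ↔ ∃ (u : (𝓞 K)ˣ) (s : Kˣ), z = Units.map (algebraMap (𝓞 K) K : 𝓞 K →* K) u * s ^ 3 := by
  unfold UCub
  rw [Subgroup.mem_sup]
  constructor
  · rintro ⟨x, ⟨u, rfl⟩, y, ⟨s, rfl⟩, rfl⟩
    exact ⟨u, s, rfl⟩
  · rintro ⟨u, s, rfl⟩
    exact ⟨_, ⟨u, rfl⟩, _, ⟨s, rfl⟩, rfl⟩

theorem t11_Cub_UCub (K : Type) [Field K] [NumberField K] :
    (Cub K).relIndex (UCub K) ≠ 0 ∧ (Cub K).relIndex (UCub K) ≤ 3 ^ finrank ℚ K := by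
  obtain ⟨f, hf⟩ := t11_units K
  have h1 : ∀ z : UCub K, ∃ (u : (𝓞 K)ˣ) (s : Kˣ),
      (z : Kˣ) = Units.map (algebraMap (𝓞 K) K : 𝓞 K →* K) u * s ^ 3 := fun z =>
    t11_mem_UCub.mp z.2
  choose u s hus using h1
  have h2 := t11_index (H := Cub K) (L := UCub K) (fun z => f (u z)) (by
    intro x y hxy
    obtain ⟨w, hw⟩ := hf _ _ hxy
    refine ⟨(s x)⁻¹ * s y * (Units.map (algebraMap (𝓞 K) K : 𝓞 K →* K) w)⁻¹, ?_⟩
    rw [hus x, hus y, hw]
    simp only [powMonoidHom_apply, map_mul, map_pow, mul_inv, mul_pow, inv_pow]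
    generalize (Units.map (algebraMap (𝓞 K) K : 𝓞 K →* K)) (u y) = A
    generalize (Units.map (algebraMap (𝓞 K) K : 𝓞 K →* K)) w = B
    generalize s x = x1
    generalize s y = y1
    have : A⁻¹ * (B ^ 3)⁻¹ * (x1 ^ 3)⁻¹ * (A * y1 ^ 3) =
        (A⁻¹ * A) * ((x1 ^ 3)⁻¹ * y1 ^ 3 * (B ^ 3)⁻¹) := by
      simp only [mul_comm, mul_left_comm, mul_assoc]
    rw [this, inv_mul_cancel, one_mul])
  refine ⟨h2.1, h2.2.trans ?_⟩
  rw [Nat.card_prod, Nat.card_fun, Nat.card_fin, Nat.card_fin, ← pow_succ']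
  exact Nat.pow_le_pow_right (by norm_num) (t11_rank K)

/-- the group of elements with all exponents divisible by `3` -/
noncomputable def Sel0 (K : Type) [Field K] [NumberField K] : Subgroup Kˣ := Sel K 1

theorem t11_mem_Sel0 {K : Type} [Field K] [NumberField K] {z : Kˣ} : z ∈ Sel0 K ↔
    ∀ v : HeightOneSpectrum (𝓞 K), (3 : ℤ) ∣ Multiplicative.toAdd (v.valuationOfNeZero z) := by
  constructor
  · intro h v
    exact h v (fun h1 => v.isPrime.ne_top ((Ideal.eq_top_iff_one _).mpr h1))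
  · intro h v _
    exact h v

theorem t11_UCub_Sel0 (K : Type) [Field K] [NumberField K] :
    (UCub K).relIndex (Sel0 K) ≠ 0 ∧
      (UCub K).relIndex (Sel0 K) ≤ Nat.card {c : ClassGroup (𝓞 K) // c ^ 3 = 1} := by
  have h1 : ∀ z : Sel0 K, ∃ (r : 𝓞 K) (s : Kˣ) (I : (Ideal (𝓞 K))⁰), r ≠ 0 ∧
      ((z : Kˣ) : K) = algebraMap (𝓞 K) K r * (s : K) ^ 3 ∧
      Ideal.span {r} = (I : Ideal (𝓞 K)) ^ 3 := by
    intro z
    have h2 := t11_mem_Sel0.mp z.2
    exact t11_ideal _ h2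
  choose r s I hr0 hz hrI using h1
  have h3 : ∀ z, (ClassGroup.mk0 (I z)) ^ 3 = 1 := by
    intro z
    rw [← map_pow, ClassGroup.mk0_eq_one_iff]
    rw [SubmonoidClass.coe_pow, ← hrI]
    exact ⟨r z, rfl⟩
  refine t11_index (H := UCub K) (L := Sel0 K)
    (fun z => (⟨ClassGroup.mk0 (I z), h3 z⟩ : {c : ClassGroup (𝓞 K) // c ^ 3 = 1})) ?_
  intro x y hxy
  rw [Subtype.mk.injEq, ClassGroup.mk0_eq_mk0_iff] at hxy
  obtain ⟨a, b, ha, hb, hab⟩ := hxy
  -- `a ^ 3 r x = unit * b ^ 3 r y`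
  have h4 : Ideal.span {a ^ 3 * r x} = Ideal.span {b ^ 3 * r y} := by
    rw [← Ideal.span_singleton_mul_span_singleton, ← Ideal.span_singleton_mul_span_singleton,
      ← Ideal.span_singleton_pow, ← Ideal.span_singleton_pow, hrI, hrI, ← mul_pow, ← mul_pow, hab]
  rw [Ideal.span_singleton_eq_span_singleton] at h4
  obtain ⟨u, hu⟩ := h4
  have haK : algebraMap (𝓞 K) K a ≠ 0 := by
    rw [Ne, FaithfulSMul.algebraMap_eq_zero_iff]
    exact ha
  have hbK : algebraMap (𝓞 K) K b ≠ 0 := by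
    rw [Ne, FaithfulSMul.algebraMap_eq_zero_iff]
    exact hb
  have hrxK : algebraMap (𝓞 K) K (r x) ≠ 0 := by
    rw [Ne, FaithfulSMul.algebraMap_eq_zero_iff]
    exact hr0 x
  rw [t11_mem_UCub]
  refine ⟨u, (s x)⁻¹ * s y * (Units.mk0 _ haK) * (Units.mk0 _ hbK)⁻¹, ?_⟩
  rw [← Units.val_inj]
  push_cast
  rw [hz x, hz y]
  have hu' : algebraMap (𝓞 K) K a ^ 3 * algebraMap (𝓞 K) K (r x) * algebraMap (𝓞 K) K (u : 𝓞 K) =
      algebraMap (𝓞 K) K b ^ 3 * algebraMap (𝓞 K) K (r y) := by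
    rw [← map_pow, ← map_pow, ← map_mul, ← map_mul, ← map_mul, hu]
  have hsx := (s x).ne_zero
  have hsy := (s y).ne_zero
  simp only [Units.coe_map, MonoidHom.coe_coe, Units.val_mk0]
  field_simp
  linear_combination -(hu')

/-- the number of primes containing `a` -/
theorem t11_primes {K : Type} [Field K] [NumberField K] {a : 𝓞 K} (ha : a ≠ 0) :
    ∃ T : Finset (HeightOneSpectrum (𝓞 K)), (∀ v, v ∈ T ↔ a ∈ v.asIdeal) ∧
      2 ^ T.card ≤ (Algebra.norm ℤ a).natAbs := by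
  have ha' : Ideal.span {a} ≠ 0 := by
    rw [Ideal.zero_eq_bot, Ne, Ideal.span_singleton_eq_bot]
    exact ha
  have hfin := Ideal.finite_factors ha'
  refine ⟨hfin.toFinset, ?_, ?_⟩
  · intro v
    rw [Set.Finite.mem_toFinset, Set.mem_ofPred_eq, Ideal.dvd_span_singleton]
  · have h1 : ∏ v ∈ hfin.toFinset, v.asIdeal ∣ Ideal.span {a} := by
      apply Finset.prod_dvd_of_coprime
      · intro v _ w _ hvw
        show IsCoprime v.asIdeal w.asIdeal
        rw [Ideal.isCoprime_iff_sup_eq]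
        have hv := v.isMaximal
        have hw := w.isMaximal
        exact hv.coprime_of_ne hw (fun h => hvw (HeightOneSpectrum.ext h))
      · intro v hv
        rw [Set.Finite.mem_toFinset] at hv
        exact hv
    have h2 := Ideal.absNorm_dvd_absNorm_of_le (Ideal.le_of_dvd h1)
    rw [Ideal.absNorm_span_singleton, map_prod] at h2
    have h3 : 2 ^ hfin.toFinset.card ≤ ∏ v ∈ hfin.toFinset, Ideal.absNorm v.asIdeal := by
      rw [← Finset.prod_const]
      apply Finset.prod_le_prod'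
      intro v _
      have h4 : Ideal.absNorm v.asIdeal ≠ 1 := by
        rw [Ne, Ideal.absNorm_eq_one_iff]
        exact v.isPrime.ne_top
      have h5 : Ideal.absNorm v.asIdeal ≠ 0 := by
        rw [Ne, Ideal.absNorm_eq_zero_iff]
        exact v.ne_bot
      omega
    refine h3.trans (Nat.le_of_dvd ?_ h2)
    rw [Int.natAbs_pos, Ne, Algebra.norm_eq_zero_iff]
    exact ha

theorem t11_Sel0_Sel {K : Type} [Field K] [NumberField K] {a : 𝓞 K} (ha : a ≠ 0) :
    (Sel0 K).relIndex (Sel K a) ≠ 0 ∧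
      (Sel0 K).relIndex (Sel K a) ≤ (Algebra.norm ℤ a).natAbs ^ 2 := by
  obtain ⟨T, hT, hcard⟩ := t11_primes ha
  have h2 := t11_index (H := Sel0 K) (L := Sel K a) (β := T → Fin 3)
    (fun z v => Fin.ofNat 3
      (Multiplicative.toAdd ((v : HeightOneSpectrum (𝓞 K)).valuationOfNeZero (z : Kˣ)) % 3).toNat)
    (by
      intro x y hxy
      rw [t11_mem_Sel0]
      intro v
      rw [map_mul, map_inv, toAdd_mul, toAdd_inv]
      by_cases hv : a ∈ v.asIdeal
      · have h1 := congrArg Fin.val (congrFun hxy ⟨v, (hT v).mpr hv⟩)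
        simp only [Fin.ofNat] at h1
        omega
      · exact dvd_add ((x.2 v hv).neg_right) (y.2 v hv))
  refine ⟨h2.1, h2.2.trans ?_⟩
  rw [Nat.card_fun, Nat.card_fin]
  have h3 : Nat.card T = T.card := by simp
  rw [h3]
  calc 3 ^ T.card ≤ 4 ^ T.card := Nat.pow_le_pow_left (by norm_num) _
    _ = (2 ^ T.card) ^ 2 := by
        rw [← pow_mul, mul_comm, pow_mul]
        norm_num
    _ ≤ _ := Nat.pow_le_pow_left hcard 2

/-! T11 -/
theorem relIndex_Sel (n : ℕ) : ∃ C : ℝ, ∀ (K : Type) [Field K] [NumberField K] (a : 𝓞 K),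
    finrank ℚ K = n → a ≠ 0 → (Cub K).relIndex (Sel K a) ≠ 0 ∧
      ((Cub K).relIndex (Sel K a) : ℝ) ≤
        C * (Algebra.norm ℤ a).natAbs ^ 2 * Nat.card {c : ClassGroup (𝓞 K) // c ^ 3 = 1} := by
  refine ⟨3 ^ n, ?_⟩
  intro K _ _ a hn ha
  have h1 := t11_Cub_UCub K
  have h2 := t11_UCub_Sel0 K
  have h3 := t11_Sel0_Sel ha
  have hle1 : Cub K ≤ UCub K := le_sup_right
  have hle2 : UCub K ≤ Sel0 K := by
    intro z hz
    rw [t11_mem_UCub] at hz
    obtain ⟨u, s, rfl⟩ := hz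
    rw [t11_mem_Sel0]
    intro v
    rw [map_mul, map_pow, toAdd_mul, toAdd_pow, nsmul_eq_mul]
    refine dvd_add ?_ (dvd_mul_right _ _)
    have h4 : v.valuationOfNeZero (Units.map (algebraMap (𝓞 K) K : 𝓞 K →* K) u) = 1 :=
      v.valuation_of_unit_eq u
    rw [h4]
    simp
  have hle3 : Sel0 K ≤ Sel K a := by
    intro z hz v _
    exact t11_mem_Sel0.mp hz v
  have e1 : (Cub K).relIndex (Sel K a) = (Cub K).relIndex (UCub K) *
      ((UCub K).relIndex (Sel0 K) * (Sel0 K).relIndex (Sel K a)) := by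
    rw [Subgroup.relIndex_mul_relIndex _ _ _ hle2 hle3,
      Subgroup.relIndex_mul_relIndex _ _ _ hle1 (hle2.trans hle3)]
  rw [e1]
  refine ⟨Nat.mul_ne_zero h1.1 (Nat.mul_ne_zero h2.1 h3.1), ?_⟩
  have h5 : (Cub K).relIndex (UCub K) * ((UCub K).relIndex (Sel0 K) *
      (Sel0 K).relIndex (Sel K a)) ≤ 3 ^ n * (Nat.card {c : ClassGroup (𝓞 K) // c ^ 3 = 1} *
        (Algebra.norm ℤ a).natAbs ^ 2) := by
    rw [← hn]
    exact Nat.mul_le_mul h1.2 (Nat.mul_le_mul h2.2 h3.2)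
  calc (((Cub K).relIndex (UCub K) * ((UCub K).relIndex (Sel0 K) *
      (Sel0 K).relIndex (Sel K a)) : ℕ) : ℝ)
      ≤ ((3 ^ n * (Nat.card {c : ClassGroup (𝓞 K) // c ^ 3 = 1} *
        (Algebra.norm ℤ a).natAbs ^ 2) : ℕ) : ℝ) := by exact_mod_cast h5
    _ = _ := by
        push_cast
        ring

end Pool.Agent.Lib.MP_695920_nt.Qt
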