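import Mathlib
import Pool.Agent.Lib.MP_695920_nt.Qt.Defs

set_option autoImplicit false

open NumberField Module IsDedekindDomain
open scoped nonZeroDivisors WithZero

namespace Pool.Agent.Lib.MP_695920_nt.Qt

/-- if a power of `z` prime to `3` has the valuation of a cube then `3` divides that of `z` -/
theorem t10_dvd {K : Type} [Field K] [NumberField K] (v : HeightOneSpectrum (𝓞 K)) (z : Kˣ)
    (x : K) (m : ℕ) (hm : IsCoprime (3 : ℤ) m)
    (h : v.valuation K (z : K) ^ m = v.valuation K x ^ 3) (hx : x ≠ 0) :
    (3 : ℤ) ∣ Multiplicative.toAdd (v.valuationOfNeZero z) := by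
  have h1 : (v.valuationOfNeZero z) ^ m = (v.valuationOfNeZero (Units.mk0 x hx)) ^ 3 := by
    rw [← WithZero.coe_inj, WithZero.coe_pow, WithZero.coe_pow,
      HeightOneSpectrum.valuationOfNeZero_eq, HeightOneSpectrum.valuationOfNeZero_eq]
    exact h
  have h2 : (m : ℤ) * Multiplicative.toAdd (v.valuationOfNeZero z) =
      3 * Multiplicative.toAdd (v.valuationOfNeZero (Units.mk0 x hx)) := by
    have := congrArg Multiplicative.toAdd h1
    rw [toAdd_pow, toAdd_pow] at this
    simpa [nsmul_eq_mul] using this
  exact hm.dvd_of_dvd_mul_left ⟨_, h2⟩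

theorem mem_Sel {F K : Type} [Field F] [NumberField F] [Field K] [NumberField K] [Algebra F K]
    {k : 𝓞 F} {s : 𝓞 K} (hs : (s : K) ^ 2 = algebraMap F K k) (x y : F)
    (h : y ^ 2 = x ^ 3 + k) (z : Kˣ) (hz : (z : K) = algebraMap F K y - s) :
    z ∈ Sel K (2 * s) := by
  intro v hv
  have hsv : v.valuation K (s : K) = 1 := by
    refine (HeightOneSpectrum.valuation_eq_one_iff_notMem (K := K) (v := v)).mpr ?_
    intro hcon
    exact hv (Ideal.mul_mem_left _ _ hcon)
  have h2sv : v.valuation K (2 * (s : K)) = 1 := by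
    have h1 := (HeightOneSpectrum.valuation_eq_one_iff_notMem (K := K) (v := v)).mpr hv
    have h2 : algebraMap (𝓞 K) K (2 * s) = 2 * (s : K) := by
      rw [map_mul, map_ofNat]
    rwa [h2] at h1
  set X : K := algebraMap F K x with hX
  set Y : K := algebraMap F K y with hY
  have hE : Y ^ 2 = X ^ 3 + (s : K) ^ 2 := by
    rw [hs, hX, hY, ← map_pow, h, map_add, map_pow]
  have hprod : (z : K) * (Y + s) = X ^ 3 := by
    rw [hz]; linear_combination hE
  rcases lt_or_ge 1 (v.valuation K X) with hx | hx
  · -- negative order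
    have hx3 : (1 : ℤᵐ⁰) < v.valuation K X ^ 3 := one_lt_pow₀ hx (by norm_num)
    have hy2 : v.valuation K Y ^ 2 = v.valuation K X ^ 3 := by
      rw [← map_pow, hE]
      rw [Valuation.map_add_eq_of_lt_left]
      · rw [map_pow]
      · rw [map_pow, map_pow, hsv, one_pow]; exact hx3
    have hy1 : 1 < v.valuation K Y := by
      by_contra hcon
      push Not at hcon
      have : v.valuation K Y ^ 2 ≤ 1 := pow_le_one₀ zero_le hcon
      rw [hy2] at this
      exact absurd hx3 (not_lt.mpr this)
    have hzy : v.valuation K (z : K) = v.valuation K Y := by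
      rw [hz]
      rw [Valuation.map_sub_eq_of_lt_left]
      rw [hsv]; exact hy1
    refine t10_dvd v z X 2 (by norm_num) ?_ ?_
    · rw [hzy, hy2]
    · intro h0
      rw [h0, map_zero] at hx
      exact absurd hx (by simp)
  · -- nonnegative order
    have hx3 : v.valuation K X ^ 3 ≤ 1 := pow_le_one₀ zero_le hx
    have hy1 : v.valuation K Y ≤ 1 := by
      by_contra hcon
      push Not at hcon
      have h1 : 1 < v.valuation K Y ^ 2 := one_lt_pow₀ hcon (by norm_num)
      rw [← map_pow, hE] at h1
      have h2 := (v.valuation K).map_add (X ^ 3) ((s : K) ^ 2)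
      rw [map_pow, map_pow, hsv, one_pow] at h2
      exact absurd (lt_of_lt_of_le h1 h2) (not_lt.mpr (max_le hx3 le_rfl))
    have ha1 : v.valuation K (z : K) ≤ 1 := by
      rw [hz]
      refine le_trans ((v.valuation K).map_sub _ _) ?_
      rw [hsv]; exact max_le hy1 le_rfl
    have hb1 : v.valuation K (Y + s) ≤ 1 := by
      refine le_trans ((v.valuation K).map_add _ _) ?_
      rw [hsv]; exact max_le hy1 le_rfl
    rcases ha1.lt_or_eq with ha | ha
    · -- then the other factor is a unit
      have hb : v.valuation K (Y + s) = 1 := by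
        have e : Y + (s : K) = (z : K) + 2 * s := by rw [hz]; ring
        rw [e, Valuation.map_add_eq_of_lt_right, h2sv]
        rw [h2sv]; exact ha
      have hzx : v.valuation K (z : K) = v.valuation K X ^ 3 := by
        rw [← map_pow, ← hprod, map_mul, hb, mul_one]
      refine t10_dvd v z X 1 (by norm_num) (by rw [pow_one, hzx]) ?_
      intro h0
      rw [h0] at hzx
      simp at hzx
    · refine t10_dvd v z 1 1 (by norm_num) ?_ one_ne_zero
      rw [ha]; simp

end Pool.Agent.Lib.MP_695920_nt.Qt
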