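import Mathlib
import Pool.Agent.Lib.MP_695920_nt.Qt.Defs

/-!
# Square roots generating a quadratic extension of the Eisenstein field
-/

set_option autoImplicit false

open NumberField Module Polynomial

namespace Pool.Agent.Lib.MP_695920_nt.Qt

/-- every nonzero element of a unique factorization domain is a square times a squarefree element -/
theorem t15_sq_mul_squarefree {R : Type} [CommRing R] [IsDomain R] [UniqueFactorizationMonoid R]
    (x : R) (hx : x ≠ 0) : ∃ s a : R, s ≠ 0 ∧ Squarefree a ∧ x = s ^ 2 * a := by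
  induction x using UniqueFactorizationMonoid.induction_on_prime with
  | h₁ => exact absurd rfl hx
  | h₂ x hu => exact ⟨1, x, one_ne_zero, hu.squarefree, by ring⟩
  | h₃ y p hy hp ih =>
    obtain ⟨s, a, hs, ha, h⟩ := ih hy
    by_cases hpa : p ∣ a
    · obtain ⟨b, hb⟩ := hpa
      refine ⟨p * s, b, mul_ne_zero hp.ne_zero hs, ?_, ?_⟩
      · rw [hb] at ha
        exact ha.of_mul_right
      · rw [h, hb]
        ring
    · refine ⟨s, p * a, hs, ?_, ?_⟩
      · rw [squarefree_mul_iff]
        exact ⟨(hp.irreducible.isRelPrime_iff_not_dvd).2 hpa, hp.irreducible.squarefree, ha⟩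
      · rw [h]
        ring

section Quad

variable {F K : Type} [Field F] [NumberField F] [IsCyclotomicExtension {3} ℚ F] [Field K]
  [NumberField K] [Algebra F K]

omit [IsCyclotomicExtension {3} ℚ F] in
theorem t15_exists_sq (hfin : finrank F K = 2) : ∃ (a : F) (b : K), b ^ 2 = algebraMap F K a ∧
    b ∉ Set.range (algebraMap F K) := by
  have h1 : ∃ g : K, g ∉ Set.range (algebraMap F K) := by
    by_contra hcon
    push Not at hcon
    have h2 : (⊥ : Subalgebra F K) = ⊤ := by
      rw [eq_top_iff]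
      intro x _
      exact Algebra.mem_bot.2 (hcon x)
    have h3 := Subalgebra.bot_eq_top_iff_finrank_eq_one.1 h2
    omega
  obtain ⟨g, hg⟩ := h1
  have hint : IsIntegral F g := Algebra.IsIntegral.isIntegral g
  have hdeg : (minpoly F g).natDegree ∣ 2 := hfin ▸ minpoly.degree_dvd hint
  have hdeg1 : (minpoly F g).natDegree ≠ 1 := by
    intro h
    exact hg (minpoly.natDegree_eq_one_iff.1 h)
  have hdeg2 : (minpoly F g).natDegree = 2 := by
    rcases (Nat.dvd_prime Nat.prime_two).1 hdeg with h | h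
    · exact absurd h hdeg1
    · exact h
  have hmon := minpoly.monic hint
  have hev := minpoly.aeval F g
  rw [Polynomial.aeval_eq_sum_range, hdeg2] at hev
  simp only [Finset.sum_range_succ, Finset.sum_range_zero, pow_zero, pow_one, zero_add] at hev
  have hlead : (minpoly F g).coeff 2 = 1 := by
    have := hmon.coeff_natDegree
    rwa [hdeg2] at this
  rw [hlead] at hev
  simp only [Algebra.smul_def, map_one, one_mul, mul_one] at hev
  set b := (minpoly F g).coeff 1
  set c := (minpoly F g).coeff 0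
  refine ⟨b ^ 2 - 4 * c, 2 * g + algebraMap F K b, ?_, ?_⟩
  · simp only [map_sub, map_mul, map_pow, map_ofNat]
    linear_combination 4 * hev
  · rintro ⟨d, hd⟩
    apply hg
    refine ⟨(d - b) / 2, ?_⟩
    rw [map_div₀, map_sub, hd, map_ofNat]
    have : (2 : K) ≠ 0 := two_ne_zero
    field_simp
    ring

theorem exists_sqrt (hfin : finrank F K = 2) : ∃ (α : 𝓞 F) (β : 𝓞 K), Squarefree α ∧
    β ^ 2 = algebraMap (𝓞 F) (𝓞 K) α ∧ (β : K) ∉ Set.range (algebraMap F K) := by
  obtain ⟨a, b, hb, hbF⟩ := t15_exists_sq (F := F) (K := K) hfin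
  have : IsPrincipalIdealRing (𝓞 F) := IsCyclotomicExtension.Rat.three_pid F
  obtain ⟨m, n, hn, rfl⟩ := IsFractionRing.div_surjective (A := 𝓞 F) a
  have hn0 : n ≠ 0 := nonZeroDivisors.ne_zero hn
  have hm0 : m ≠ 0 := by
    rintro rfl
    rw [map_zero, zero_div, map_zero] at hb
    apply hbF
    exact ⟨0, by rw [map_zero]; exact (pow_eq_zero_iff two_ne_zero).1 hb |>.symm⟩
  obtain ⟨s, α, hs, hα, hsα⟩ := t15_sq_mul_squarefree (m * n) (mul_ne_zero hm0 hn0)
  have hnK : algebraMap F K (algebraMap (𝓞 F) F n) ≠ 0 := by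
    rw [Ne, map_eq_zero, FaithfulSMul.algebraMap_eq_zero_iff]
    exact hn0
  have hsK : algebraMap F K (algebraMap (𝓞 F) F s) ≠ 0 := by
    rw [Ne, map_eq_zero, FaithfulSMul.algebraMap_eq_zero_iff]
    exact hs
  set c : K := b * algebraMap F K (algebraMap (𝓞 F) F n) / algebraMap F K (algebraMap (𝓞 F) F s)
    with hc
  have hc2 : c ^ 2 = algebraMap F K (algebraMap (𝓞 F) F α) := by
    have e := congrArg (fun z => algebraMap F K (algebraMap (𝓞 F) F z)) hsα
    simp only [map_mul, map_pow] at e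
    rw [map_div₀] at hb
    rw [hc, div_pow, mul_pow, hb]
    field_simp
    linear_combination e
  have hint : IsIntegral ℤ c := by
    apply IsIntegral.of_pow (n := 2) (by norm_num)
    rw [hc2, ← IsScalarTower.algebraMap_apply (𝓞 F) F K, IsScalarTower.algebraMap_apply (𝓞 F) (𝓞 K) K]
    exact RingOfIntegers.isIntegral_coe _
  refine ⟨α, ⟨c, hint⟩, hα, ?_, ?_⟩
  · apply RingOfIntegers.coe_injective
    rw [map_pow]
    change c ^ 2 = _
    rw [hc2, ← IsScalarTower.algebraMap_apply (𝓞 F) F K, IsScalarTower.algebraMap_apply (𝓞 F) (𝓞 K) K]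
  · rintro ⟨d, hd⟩
    change algebraMap F K d = c at hd
    apply hbF
    refine ⟨d * algebraMap (𝓞 F) F s / algebraMap (𝓞 F) F n, ?_⟩
    rw [map_div₀, map_mul, hd, hc]
    field_simp

theorem t15_place (v : InfinitePlace F) (x : F) : v x ^ 2 = |(Algebra.norm ℚ x : ℝ)| := by
  have hcomp : IsTotallyComplex F := IsCyclotomicExtension.Rat.isTotallyComplex (n := 3) F (by norm_num)
  have h1 : InfinitePlace.nrComplexPlaces F = 1 := by
    rw [IsCyclotomicExtension.Rat.nrComplexPlaces_eq_totient_div_two 3]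
    decide
  have h2 : InfinitePlace.nrRealPlaces F = 0 :=
    IsCyclotomicExtension.Rat.nrRealPlaces_eq_zero (n := 3) F (by norm_num)
  have h3 : Fintype.card (InfinitePlace F) = 1 := by
    rw [InfinitePlace.card_eq_nrRealPlaces_add_nrComplexPlaces, h1, h2]
  have h4 := InfinitePlace.prod_eq_abs_norm x
  have : Subsingleton (InfinitePlace F) := Fintype.card_le_one_iff_subsingleton.1 h3.le
  rw [Fintype.prod_subsingleton _ v] at h4
  have h5 : v.mult = 2 := InfinitePlace.mult_isComplex ⟨v, hcomp.isComplex v⟩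
  rw [h5] at h4
  rw [h4]
  push_cast
  rfl

omit [IsCyclotomicExtension {3} ℚ F] in
theorem t15_minpoly (α : F) (β : K) (hβ : β ^ 2 = algebraMap F K α)
    (hβF : β ∉ Set.range (algebraMap F K)) : minpoly F β = X ^ 2 - C α := by
  have hmon : (X ^ 2 - C α : F[X]).Monic := monic_X_pow_sub_C α two_ne_zero
  have hdvd : minpoly F β ∣ X ^ 2 - C α := by
    apply minpoly.dvd
    rw [map_sub, map_pow, aeval_X, aeval_C, hβ, sub_self]
  have hint : IsIntegral F β := Algebra.IsIntegral.isIntegral β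
  have h1 : (minpoly F β).natDegree ≠ 1 := fun h => hβF (minpoly.natDegree_eq_one_iff.1 h)
  have h2 := minpoly.natDegree_pos hint
  refine Polynomial.eq_of_monic_of_dvd_of_natDegree_le (minpoly.monic hint) hmon hdvd ?_ |>.symm
  rw [natDegree_X_pow_sub_C]
  omega

theorem discr_le_sqrt (hfin : finrank F K = 2) (α : 𝓞 F) (β : 𝓞 K)
    (hβ : β ^ 2 = algebraMap (𝓞 F) (𝓞 K) α) (hβF : (β : K) ∉ Set.range (algebraMap F K))
    (v : InfinitePlace F) : |(discr K : ℝ)| ≤ 144 * v (α : F) ^ 2 := by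
  have hβK : (β : K) ^ 2 = algebraMap F K (α : F) := by
    have := congrArg (algebraMap (𝓞 K) K) hβ
    rw [map_pow] at this
    rw [this, ← IsScalarTower.algebraMap_apply (𝓞 F) (𝓞 K) K,
      IsScalarTower.algebraMap_apply (𝓞 F) F K]
  have hmin := t15_minpoly (α : F) (β : K) hβK hβF
  have hintβ : IsIntegral (𝓞 F) β := Algebra.IsIntegral.isIntegral β
  have hmin2 : minpoly (𝓞 F) β = X ^ 2 - C α := by
    have h1 := minpoly.isIntegrallyClosed_eq_field_fractions F K hintβ
    have h2 : (minpoly (𝓞 F) β).map (algebraMap (𝓞 F) F) =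
        (X ^ 2 - C α : (𝓞 F)[X]).map (algebraMap (𝓞 F) F) := by
      rw [← h1, hmin]
      simp
    exact Polynomial.map_injective _ (FaithfulSMul.algebraMap_injective (𝓞 F) F) h2
  have hadj : Algebra.adjoin F {algebraMap (𝓞 K) K β} = ⊤ := by
    have h1 := (Field.primitive_element_iff_minpoly_natDegree_eq F (β : K)).2
      (by rw [hmin, natDegree_X_pow_sub_C, hfin])
    have h2 := IntermediateField.adjoin_simple_toSubalgebra_of_isAlgebraic
      (IsAlgebraic.of_finite F (β : K))
    rw [h1] at h2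
    exact h2.symm
  have hmem := aeval_derivative_mem_differentIdeal (𝓞 F) F K β hadj
  rw [hmin2] at hmem
  have hmem2 : 2 * β ∈ differentIdeal (𝓞 F) (𝓞 K) := by
    have e : (aeval β) (derivative (X ^ 2 - C α : (𝓞 F)[X])) = 2 * β := by
      simp only [derivative_sub, derivative_X_pow, derivative_C, sub_zero, map_mul, aeval_X,
        Nat.cast_ofNat, map_ofNat, Nat.add_one_sub_one, pow_one]
    rwa [e] at hmem
  have hle : Ideal.span {2 * β} ≤ differentIdeal (𝓞 F) (𝓞 K) := by
    rwa [Ideal.span_singleton_le_iff_mem]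
  have hdvd := Ideal.absNorm_dvd_absNorm_of_le hle
  rw [Ideal.absNorm_span_singleton] at hdvd
  have hβ0 : β ≠ 0 := by
    rintro rfl
    exact hβF ⟨0, by simp⟩
  have hnorm0 : (Algebra.norm ℤ (2 * β)).natAbs ≠ 0 := by
    rw [Ne, Int.natAbs_eq_zero, Algebra.norm_eq_zero_iff]
    exact mul_ne_zero two_ne_zero hβ0
  have hle2 := Nat.le_of_dvd (Nat.pos_of_ne_zero hnorm0) hdvd
  have hfin2 : finrank ℚ K = 4 := by
    have h1 := finrank_mul_finrank ℚ F K
    have h2 : finrank ℚ F = 2 := by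
      rw [IsCyclotomicExtension.finrank (n := 3) F (Polynomial.cyclotomic.irreducible_rat (by norm_num))]
      decide
    rw [← h1, h2, hfin]
  have hn1 : (Algebra.norm ℚ (β : K)) ^ 2 = (Algebra.norm ℚ (α : F)) ^ 2 := by
    rw [← map_pow, hβK, ← Algebra.norm_norm (S := F), Algebra.norm_algebraMap, hfin, map_pow]
  have hn2 : |Algebra.norm ℚ (β : K)| = |Algebra.norm ℚ (α : F)| := by
    rw [← sq_eq_sq_iff_abs_eq_abs]
    exact hn1
  have hn3 : ((Algebra.norm ℤ (2 * β)).natAbs : ℝ) = 16 * v (α : F) ^ 2 := by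
    have h1 : ((Algebra.norm ℤ (2 * β) : ℤ) : ℚ) = Algebra.norm ℚ ((2 * β : 𝓞 K) : K) :=
      Algebra.coe_norm_int (2 * β)
    have h2 : ((2 * β : 𝓞 K) : K) = algebraMap ℚ K 2 * (β : K) := by
      change algebraMap (𝓞 K) K (2 * β) = algebraMap ℚ K 2 * algebraMap (𝓞 K) K β
      rw [map_mul, map_ofNat, map_ofNat]
    have h2' : Algebra.norm ℚ ((2 * β : 𝓞 K) : K) = 2 ^ 4 * Algebra.norm ℚ (β : K) := by
      rw [h2, map_mul, Algebra.norm_algebraMap, hfin2]
    rw [h2'] at h1
    rw [t15_place v (α : F), Nat.cast_natAbs]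
    have h3 : |((Algebra.norm ℤ (2 * β) : ℤ) : ℚ)| = 16 * |Algebra.norm ℚ (α : F)| := by
      rw [h1, abs_mul, hn2]
      norm_num
    have h4 := congrArg (fun q : ℚ => (q : ℝ)) h3
    simp only [Rat.cast_abs, Rat.cast_mul, Rat.cast_intCast, Rat.cast_ofNat] at h4
    rw [← h4]
    push_cast
    rfl
  have hF : (discr F).natAbs = 3 := by
    have : Fact (Nat.Prime 3) := ⟨Nat.prime_three⟩
    have h1 := IsCyclotomicExtension.Rat.discr_prime 3 F
    rw [h1]
    norm_num
  have hmain := natAbs_discr_eq_absNorm_differentIdeal_mul_natAbs_discr_pow F (𝓞 F) K (𝓞 K)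
  rw [hF, hfin] at hmain
  have h5 : ((discr K).natAbs : ℝ) ≤ (Algebra.norm ℤ (2 * β)).natAbs * 9 := by
    have : (discr K).natAbs ≤ (Algebra.norm ℤ (2 * β)).natAbs * 9 := by
      rw [hmain]
      exact Nat.mul_le_mul_right _ hle2
    exact_mod_cast this
  rw [hn3, Nat.cast_natAbs, Int.cast_abs] at h5
  linarith

end Quad

end Pool.Agent.Lib.MP_695920_nt.Qt
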