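import Mathlib
import Pool.Agent.Lib.MP_695920_nt.Qt.Defs
import Pool.Agent.Lib.MP_695920_nt.Qt.Points
import Pool.Agent.Lib.MP_695920_nt.Qt.IdlCount
import Pool.Agent.Lib.MP_695920_nt.Qt.Desc
import Pool.Agent.Lib.MP_695920_nt.Qt.SelCard
import Pool.Agent.Lib.MP_695920_nt.Qt.SelLoc
import Pool.Agent.Lib.MP_695920_nt.Qt.MinkK
import Pool.Agent.Lib.MP_695920_nt.Qt.SqrtK
import Pool.Agent.Lib.MP_695920_nt.Qt.ClassPt

/-!
Preparations for the final count.
-/

set_option autoImplicit false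

open NumberField Module IsDedekindDomain
open scoped nonZeroDivisors

namespace Pool.Agent.Lib.MP_695920_nt.Qt

lemma cub_le_Sel (K : Type) [Field K] [NumberField K] (a : 𝓞 K) : Cub K ≤ Sel K a := by
  rintro _ ⟨z, rfl⟩
  intro v _
  rw [powMonoidHom_apply, map_pow, toAdd_pow]
  exact ⟨_, by rw [nsmul_eq_mul]; push_cast; rfl⟩

section Eis

variable {F K : Type} [Field F] [NumberField F] [IsCyclotomicExtension {3} ℚ F] [Field K]
  [NumberField K] [Algebra F K]

lemma eis_finrank : finrank ℚ F = 2 := by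
  rw [IsCyclotomicExtension.finrank (n := 3) F
    (Polynomial.cyclotomic.irreducible_rat (by norm_num))]
  rfl

lemma quad_finrank (hfin : finrank F K = 2) : finrank ℚ K = 4 := by
  rw [← finrank_mul_finrank ℚ F K, hfin, eis_finrank (F := F)]

include F in
omit [NumberField K] in
lemma all_complex (w : InfinitePlace K) : w.IsComplex := by
  rw [← InfinitePlace.not_isReal_iff_isComplex]
  intro hw
  have h1 := (eis_place F (w.comap (algebraMap F K)) (w.comap (algebraMap F K))).2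
  have h2 := hw.comap (algebraMap F K)
  rw [← InfinitePlace.not_isReal_iff_isComplex] at h1
  exact h1 h2

lemma exists_omega : ∃ ω : F, ω ^ 2 + ω + 1 = 0 := by
  obtain ⟨ζ, hζ⟩ := IsCyclotomicExtension.exists_isPrimitiveRoot (A := ℚ) (B := F) (n := 3)
    (Set.mem_singleton 3) (by norm_num)
  refine ⟨ζ, ?_⟩
  have h1 : ζ ≠ 1 := hζ.ne_one (by norm_num)
  have h2 : ζ ^ 3 = 1 := hζ.pow_eq_one
  have h3 : (ζ - 1) * (ζ ^ 2 + ζ + 1) = 0 := by linear_combination h2
  exact (mul_eq_zero.mp h3).resolve_left (sub_ne_zero.mpr h1)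

/-- the norm of an element of the base -/
lemma abs_norm_alg (hfin : finrank F K = 2) (v : InfinitePlace F) (z : F) :
    |(Algebra.norm ℚ (algebraMap F K z) : ℝ)| = v z ^ 4 := by
  have h1 : Algebra.norm ℚ (algebraMap F K z) = (Algebra.norm ℚ z) ^ 2 := by
    rw [← Algebra.norm_norm (S := F), Algebra.norm_algebraMap, hfin, map_pow]
  rw [h1]
  push_cast
  rw [abs_pow, eis_norm F v z]
  ring

lemma natAbs_norm_sq {s : 𝓞 K} {k : F} (hfin : finrank F K = 2) (v : InfinitePlace F)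
    (hs : (s : K) ^ 2 = algebraMap F K k) : ((Algebra.norm ℤ s).natAbs : ℝ) = v k ^ 2 := by
  have h1 := abs_norm_alg (K := K) hfin v k
  rw [← hs, map_pow] at h1
  push_cast at h1
  rw [abs_pow] at h1
  have h2 : |(Algebra.norm ℚ (s : K) : ℝ)| = ((Algebra.norm ℤ s).natAbs : ℝ) := by
    rw [← Algebra.coe_norm_int, Nat.cast_natAbs]
    push_cast
    rfl
  rw [h2] at h1
  have h3 : ((Algebra.norm ℤ s).natAbs : ℝ) ^ 2 = (v k ^ 2) ^ 2 := by rw [h1]; ring
  exact (pow_left_inj₀ (by positivity) (by positivity) (by norm_num)).mp h3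

end Eis

/-- the number of classes killed by three -/
noncomputable def h3 (K : Type) [Field K] [NumberField K] : ℝ :=
  (Nat.card {c : ClassGroup (𝓞 K) // c ^ 3 = 1} : ℝ)

/-- the index of the triples -/
theorem index_bound : ∃ C : ℝ, 0 ≤ C ∧ ∀ (F K : Type) [Field F] [NumberField F] [DecidableEq F]
    [IsCyclotomicExtension {3} ℚ F] [Field K] [NumberField K] [Algebra F K]
    (_ : finrank F K = 2) (α : 𝓞 F) (β : 𝓞 K) (_ : α ≠ 0)
    (_ : β ^ 2 = algebraMap (𝓞 F) (𝓞 K) α) (_ : (β : K) ∉ Set.range (algebraMap F K))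
    (v : InfinitePlace F) (Z k : 𝓞 F) (u : (𝓞 F)ˣ), Z ≠ 0 → k = 16 * (u : 𝓞 F) ^ 2 * α * Z ^ 2 →
    (nsmulAddMonoidHom (α := (Ek (k : F)).Point) 3).range.index ≠ 0 ∧
    ((nsmulAddMonoidHom (α := (Ek (k : F)).Point) 3).range.index : ℝ) ≤
      (C * (16 * v (k : F) ^ 2) ^ 2 * h3 K) ^ 2 := by
  obtain ⟨C, hC⟩ := relIndex_Sel 4
  refine ⟨|C|, abs_nonneg C, ?_⟩
  intro F K _ _ _ _ _ _ _ hfin α β hα hβ hβF v Z k u hZ hk
  have hk0 : k ≠ 0 := by
    rw [hk]
    have h16 : (16 : 𝓞 F) ≠ 0 := by norm_num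
    exact mul_ne_zero (mul_ne_zero (mul_ne_zero h16 (pow_ne_zero _ u.ne_zero)) hα)
      (pow_ne_zero _ hZ)
  have hkF : (k : F) ≠ 0 := fun h => hk0 (RingOfIntegers.ext h)
  set s : 𝓞 K := 4 * algebraMap (𝓞 F) (𝓞 K) (u * Z) * β with hs
  have hs2' : s ^ 2 = algebraMap (𝓞 F) (𝓞 K) k := by
    rw [hs, hk]
    simp only [map_mul, map_pow, map_ofNat, mul_pow, hβ]
    ring
  have hs2 : (s : K) ^ 2 = algebraMap F K (k : F) := by
    have h1 := congrArg (algebraMap (𝓞 K) K) hs2'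
    rw [map_pow, ← IsScalarTower.algebraMap_apply, IsScalarTower.algebraMap_apply (𝓞 F) F K] at h1
    exact h1
  have hsF : (s : K) ∉ Set.range (algebraMap F K) := by
    rintro ⟨x, hx⟩
    apply hβF
    have h4 : algebraMap F K (4 * (u : 𝓞 F) * Z : 𝓞 F) ≠ 0 := by
      rw [map_ne_zero_iff _ (algebraMap F K).injective]
      intro h
      have h5 : (4 * (u : 𝓞 F) * Z : 𝓞 F) = 0 := RingOfIntegers.ext h
      have h16 : (4 : 𝓞 F) ≠ 0 := by norm_num
      exact mul_ne_zero (mul_ne_zero h16 u.ne_zero) hZ h5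
    refine ⟨x / ((4 * (u : 𝓞 F) * Z : 𝓞 F) : F), ?_⟩
    rw [map_div₀, hx, div_eq_iff h4]
    have h6 : s = β * algebraMap (𝓞 F) (𝓞 K) (4 * (u : 𝓞 F) * Z) := by
      rw [hs]
      simp only [map_mul, map_ofNat]
      ring
    have h7 := congrArg (algebraMap (𝓞 K) K) h6
    rw [map_mul (algebraMap (𝓞 K) K) β, ← IsScalarTower.algebraMap_apply,
      IsScalarTower.algebraMap_apply (𝓞 F) F K] at h7
    exact h7
  obtain ⟨ω, hω⟩ := exists_omega (F := F)
  have hs0 : (2 * s : 𝓞 K) ≠ 0 := by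
    intro h
    have h1 : s = 0 := by
      have h2 : (2 : 𝓞 K) ≠ 0 := by norm_num
      exact (mul_eq_zero.mp h).resolve_left h2
    apply hkF
    rw [h1] at hs2
    have h3 : algebraMap F K (k : F) = 0 := by rw [← hs2]; simp
    exact (map_eq_zero _).mp h3
  obtain ⟨hr0, hr⟩ := hC K (2 * s) (quad_finrank hfin) hs0
  have hmw := mw_index hfin ω hω hkF (s : K) hs2 hsF (Sel K (2 * s))
    (fun x y h z hz => mem_Sel hs2 x y h z hz) (cub_le_Sel K _) hr0
  refine ⟨hmw.1, ?_⟩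
  have h1 : ((nsmulAddMonoidHom (α := (Ek (k : F)).Point) 3).range.index : ℝ) ≤
      ((Cub K).relIndex (Sel K (2 * s)) : ℝ) ^ 2 := by exact_mod_cast hmw.2
  refine h1.trans (pow_le_pow_left₀ (Nat.cast_nonneg _) ?_ 2)
  refine hr.trans ?_
  have h2 : ((Algebra.norm ℤ (2 * s)).natAbs : ℝ) = 16 * v (k : F) ^ 2 := by
    rw [natAbs_norm_sq (s := 2 * s) (k := 4 * (k : F)) hfin v (by
      rw [show ((2 * s : 𝓞 K) : K) = 2 * (s : K) from by
        change algebraMap (𝓞 K) K (2 * s) = 2 * algebraMap (𝓞 K) K s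
        rw [map_mul (algebraMap (𝓞 K) K), map_ofNat], mul_pow, hs2, map_mul, map_ofNat]
      norm_num), map_mul]
    have : v (4 : F) = 4 := by
      have := v.map_natCast 4
      simpa using this
    rw [this]
    ring
  rw [h2]
  unfold h3
  apply mul_le_mul_of_nonneg_right _ (Nat.cast_nonneg _)
  apply mul_le_mul_of_nonneg_right (le_abs_self _) (by positivity)

end Pool.Agent.Lib.MP_695920_nt.Qt
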