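import Mathlib
import Pool.Agent.Lib.MP_695920_nt.Qt.FinA

/-!
The data attached to a class killed by three, and its consequences.
-/

set_option autoImplicit false

open NumberField Module IsDedekindDomain
open scoped nonZeroDivisors

namespace Pool.Agent.Lib.MP_695920_nt.Qt

/-- the data attached to a class -/
structure CData (F K : Type) [Field F] [NumberField F] [Field K] [NumberField K] [Algebra F K]
    (α : 𝓞 F) (β : 𝓞 K) (v : InfinitePlace F) (B : ℝ) (c : ClassGroup (𝓞 K)) where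
  I : (Ideal (𝓞 K))⁰
  ξ : 𝓞 K
  Z : 𝓞 F
  X : 𝓞 F
  Y : 𝓞 F
  u : (𝓞 F)ˣ
  R : Ideal (𝓞 K)
  J : Ideal (𝓞 K)
  hI : ClassGroup.mk0 I = c
  hI3 : (I : Ideal (𝓞 K)) ^ 3 = Ideal.span {ξ}
  hY : Y ^ 2 = X ^ 3 + 16 * (u : 𝓞 F) ^ 2 * α * Z ^ 2
  hξ : algebraMap (𝓞 F) (𝓞 K) Y + 4 * algebraMap (𝓞 F) (𝓞 K) (u * Z) * β =
        8 * algebraMap (𝓞 F) (𝓞 K) u * ξ
  hX3 : v (X : F) ^ 3 ≤ 64 * B ^ 2
  hZα : v (Z : F) ^ 2 * v (α : F) ≤ 4 * B ^ 2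
  hX2 : v (X : F) ^ 2 = 16 * Ideal.absNorm (I : Ideal (𝓞 K))
  hZ0 : Z = 0 → (I : Ideal (𝓞 K)).IsPrincipal
  hRJ : (I : Ideal (𝓞 K)) = R * J
  hJ : ∃ a b : 𝓞 K, a ≠ 0 ∧ b ≠ 0 ∧
          Ideal.span {a} * J ^ 4 = Ideal.span {b} * (I : Ideal (𝓞 K)) ^ 4
  hg : ∀ g : 𝓞 F, g ∣ X ^ 3 → g ∣ 16 * (u : 𝓞 F) ^ 2 * α * Z ^ 2 →
          v (g : F) ^ 2 ≤ 64 ^ 2 * (Ideal.absNorm R : ℝ) ^ 3

section data

variable {F K : Type} [Field F] [NumberField F] [Field K] [NumberField K] [Algebra F K]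
  {α : 𝓞 F} {β : 𝓞 K} {v : InfinitePlace F} {B : ℝ} {c c' : ClassGroup (𝓞 K)}

lemma CData.I_ne (d : CData F K α β v B c) : (d.I : Ideal (𝓞 K)) ≠ ⊥ := nonZeroDivisors.coe_ne_zero d.I

lemma CData.R_ne (d : CData F K α β v B c) : d.R ≠ ⊥ := by
  intro h
  apply d.I_ne
  rw [d.hRJ, h, Ideal.bot_mul]

lemma CData.J_ne (d : CData F K α β v B c) : d.J ≠ ⊥ := by
  intro h
  apply d.I_ne
  rw [d.hRJ, h, Ideal.mul_bot]

/-- the class is determined by the ideal `J` -/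
lemma CData.class_J (d : CData F K α β v B c) (hc : c ^ 3 = 1) :
    ClassGroup.mk0 ⟨d.J, mem_nonZeroDivisors_of_ne_zero d.J_ne⟩ ^ 4 = c := by
  obtain ⟨a, b, ha, hb, h⟩ := d.hJ
  have h1 : ClassGroup.mk0 ((⟨d.J, mem_nonZeroDivisors_of_ne_zero d.J_ne⟩ : (Ideal (𝓞 K))⁰) ^ 4) =
      ClassGroup.mk0 (d.I ^ 4) := by
    rw [ClassGroup.mk0_eq_mk0_iff]
    refine ⟨a, b, ha, hb, ?_⟩
    simpa using h
  rw [← map_pow, h1, map_pow, d.hI, pow_succ, hc, one_mul]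

lemma CData.eq_of_J (d : CData F K α β v B c) (d' : CData F K α β v B c') (hc : c ^ 3 = 1)
    (hc' : c' ^ 3 = 1) (h : d.J = d'.J) : c = c' := by
  rw [← d.class_J hc, ← d'.class_J hc']
  congr 2
  exact Subtype.ext h

lemma CData.eq_of_I (d : CData F K α β v B c) (d' : CData F K α β v B c')
    (h : (d.I : Ideal (𝓞 K)) = d'.I) : c = c' := by
  rw [← d.hI, ← d'.hI]
  congr 1
  exact Subtype.ext h

/-- the class is determined by the point -/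
lemma CData.eq_of_pt (d : CData F K α β v B c) (d' : CData F K α β v B c') (hZ : d.Z = d'.Z)
    (hu : d.u = d'.u) (hY : d.Y = d'.Y) : c = c' := by
  have h1 := d.hξ
  rw [hZ, hu, hY, d'.hξ] at h1
  have h8 : (8 : 𝓞 K) * algebraMap (𝓞 F) (𝓞 K) d'.u ≠ 0 := by
    apply mul_ne_zero (by norm_num)
    intro h
    have h2 : IsUnit (algebraMap (𝓞 F) (𝓞 K) (d'.u : 𝓞 F)) := d'.u.isUnit.map _
    exact h2.ne_zero h
  have h2 : d'.ξ = d.ξ := mul_left_cancel₀ h8 h1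
  apply d.eq_of_I d'
  have h3 : (d.I : Ideal (𝓞 K)) ^ 3 = (d'.I : Ideal (𝓞 K)) ^ 3 := by
    rw [d.hI3, d'.hI3, h2]
  exact t16_ideal_pow_inj (by norm_num) h3

lemma CData.norm_I (d : CData F K α β v B c) :
    ((Ideal.absNorm (d.I : Ideal (𝓞 K)) : ℝ)) ^ 3 ≤ B ^ 4 := by
  have h1 := d.hX3
  have h2 := d.hX2
  have h3 : (v (d.X : F) ^ 3) ^ 2 ≤ (64 * B ^ 2) ^ 2 := pow_le_pow_left₀ (by positivity) h1 2
  have h4 : (v (d.X : F) ^ 3) ^ 2 = (v (d.X : F) ^ 2) ^ 3 := by ring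
  rw [h4, h2] at h3
  nlinarith [h3]

end data

theorem exists_cdata {F K : Type} [Field F] [NumberField F] [IsCyclotomicExtension {3} ℚ F]
    [Field K] [NumberField K] [Algebra F K] (hfin : finrank F K = 2) (α : 𝓞 F) (β : 𝓞 K)
    (hα : Squarefree α)
    (hβ : β ^ 2 = algebraMap (𝓞 F) (𝓞 K) α) (hβF : (β : K) ∉ Set.range (algebraMap F K))
    (v : InfinitePlace F) (C : ℝ)
    (hmink : ∀ c : ClassGroup (𝓞 K), c ^ 3 = 1 → ∃ (I : (Ideal (𝓞 K))⁰) (ξ : 𝓞 K),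
      ClassGroup.mk0 I = c ∧ (I : Ideal (𝓞 K)) ^ 3 = Ideal.span {ξ} ∧ ξ ≠ 0 ∧
      ∀ w : InfinitePlace K, w (ξ : K) ≤ C * |(discr K : ℝ)| ^ (3 / 8 : ℝ))
    (c : ClassGroup (𝓞 K)) (hc : c ^ 3 = 1) :
    Nonempty (CData F K α β v (C * |(discr K : ℝ)| ^ (3 / 8 : ℝ)) c) := by
  obtain ⟨I, ξ, h1, h2, h3, h4⟩ := hmink c hc
  obtain ⟨Z, X, Y, u, a1, a2, a3, a4, a5, a6, R, J, a7, a8, a9⟩ :=
    class_point hfin α β hα hβ hβF v I ξ h3 h2 _ h4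
  exact ⟨⟨I, ξ, Z, X, Y, u, R, J, h1, h2, a1, a2, a3, a4, a5, a6, a7, a8, a9⟩⟩

end Pool.Agent.Lib.MP_695920_nt.Qt
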