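import Mathlib
import Pool.Agent.Lib.MP_695920_nt.Qt.FinB

/-!
The bound for the three torsion of quadratic extensions of the Eisenstein field.
-/

set_option autoImplicit false

open NumberField Module IsDedekindDomain
open scoped nonZeroDivisors

namespace Pool.Agent.Lib.MP_695920_nt.Qt

/-- the norm of the ideal of a class is small -/
lemma norm_I_le {N Cm D : ℝ} (hN : 0 ≤ N) (hCm : 1 ≤ Cm) (hD : 1 ≤ D)
    (h : N ^ 3 ≤ (Cm * D ^ (3 / 8 : ℝ)) ^ 4) : N ≤ Cm ^ 2 * D ^ (1 / 2 : ℝ) := by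
  have hD0 : 0 < D := by linarith
  have h1 : (Cm * D ^ (3 / 8 : ℝ)) ^ 4 ≤ (Cm ^ 2 * D ^ (1 / 2 : ℝ)) ^ 3 := by
    have e1 : (D ^ (3 / 8 : ℝ)) ^ 4 = D ^ (3 / 2 : ℝ) := by
      rw [← Real.rpow_natCast, ← Real.rpow_mul hD0.le]; norm_num
    have e2 : (D ^ (1 / 2 : ℝ)) ^ 3 = D ^ (3 / 2 : ℝ) := by
      rw [← Real.rpow_natCast, ← Real.rpow_mul hD0.le]; norm_num
    rw [mul_pow, mul_pow, e1, e2, ← pow_mul]
    have : Cm ^ 4 ≤ Cm ^ (2 * 3) := pow_le_pow_right₀ hCm (by norm_num)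
    exact mul_le_mul_of_nonneg_right this (by positivity)
  exact le_of_pow_le_pow_left₀ (by norm_num) (by positivity) (h.trans h1)

lemma X_le {x Cm D : ℝ} (hx : 0 ≤ x) (hCm : 1 ≤ Cm) (hD : 1 ≤ D)
    (h : x ^ 3 ≤ 64 * (Cm * D ^ (3 / 8 : ℝ)) ^ 2) : x ≤ 4 * Cm * D ^ (1 / 4 : ℝ) := by
  have hD0 : 0 < D := by linarith
  have h1 : 64 * (Cm * D ^ (3 / 8 : ℝ)) ^ 2 ≤ (4 * Cm * D ^ (1 / 4 : ℝ)) ^ 3 := by
    have e1 : (D ^ (3 / 8 : ℝ)) ^ 2 = D ^ (3 / 4 : ℝ) := by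
      rw [← Real.rpow_natCast, ← Real.rpow_mul hD0.le]; norm_num
    have e2 : (D ^ (1 / 4 : ℝ)) ^ 3 = D ^ (3 / 4 : ℝ) := by
      rw [← Real.rpow_natCast, ← Real.rpow_mul hD0.le]; norm_num
    rw [mul_pow, mul_pow, e1, e2, mul_pow, ← mul_assoc]
    have : Cm ^ 2 ≤ Cm ^ 3 := pow_le_pow_right₀ hCm (by norm_num)
    apply mul_le_mul_of_nonneg_right _ (by positivity)
    nlinarith
  exact le_of_pow_le_pow_left₀ (by norm_num) (by positivity) (h.trans h1)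

lemma Z_le {z a Cm D : ℝ} (hz : 0 ≤ z) (ha : 0 ≤ a) (hCm : 1 ≤ Cm) (hD : 1 ≤ D)
    (h : z ^ 2 * a ≤ 4 * (Cm * D ^ (3 / 8 : ℝ)) ^ 2) (hDa : D ≤ 144 * a ^ 2) :
    z ≤ 7 * Cm * D ^ (1 / 8 : ℝ) := by
  have hD0 : 0 < D := by linarith
  have e1 : (D ^ (3 / 8 : ℝ)) ^ 2 = D ^ (3 / 4 : ℝ) := by
    rw [← Real.rpow_natCast, ← Real.rpow_mul hD0.le]; norm_num
  have e2 : (D ^ (1 / 8 : ℝ)) ^ 2 = D ^ (1 / 4 : ℝ) := by
    rw [← Real.rpow_natCast, ← Real.rpow_mul hD0.le]; norm_num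
  have e3 : D ^ (3 / 4 : ℝ) = D ^ (1 / 4 : ℝ) * D ^ (1 / 2 : ℝ) := by
    rw [← Real.rpow_add hD0]; norm_num
  have e4 : (D ^ (1 / 2 : ℝ)) ^ 2 = D := by
    rw [← Real.rpow_natCast, ← Real.rpow_mul hD0.le]; norm_num
  have h12 : D ^ (1 / 2 : ℝ) ≤ 12 * a := by
    apply le_of_pow_le_pow_left₀ (n := 2) (by norm_num) (by positivity)
    rw [e4]
    nlinarith
  have hs : 0 < D ^ (1 / 2 : ℝ) := by positivity
  rw [mul_pow, e1, e3] at h
  have h1 : z ^ 2 * D ^ (1 / 2 : ℝ) ≤ (48 * Cm ^ 2 * D ^ (1 / 4 : ℝ)) * D ^ (1 / 2 : ℝ) := by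
    calc z ^ 2 * D ^ (1 / 2 : ℝ) ≤ z ^ 2 * (12 * a) := mul_le_mul_of_nonneg_left h12 (by positivity)
      _ = 12 * (z ^ 2 * a) := by ring
      _ ≤ 12 * (4 * (Cm ^ 2 * (D ^ (1 / 4 : ℝ) * D ^ (1 / 2 : ℝ)))) := by linarith
      _ = (48 * Cm ^ 2 * D ^ (1 / 4 : ℝ)) * D ^ (1 / 2 : ℝ) := by ring
  have h2 : z ^ 2 ≤ 48 * Cm ^ 2 * D ^ (1 / 4 : ℝ) := le_of_mul_le_mul_right h1 hs
  apply le_of_pow_le_pow_left₀ (n := 2) (by norm_num) (by positivity)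
  rw [mul_pow, mul_pow, e2]
  have : 0 ≤ Cm ^ 2 * D ^ (1 / 4 : ℝ) := by positivity
  nlinarith

lemma gcd_le {g x NR NI D κ θ : ℝ} (hg0 : 0 ≤ g) (hx0 : 0 ≤ x) (hNR : 0 ≤ NR) (hD : 1 ≤ D)
    (hκ : κ = θ / 12) (hg : g ^ 2 ≤ 64 ^ 2 * NR ^ 3) (hR : NR ≤ D ^ κ)
    (hx : x ^ 2 = 16 * NI) (hI : D ^ (1 / 2 - κ) ≤ NI) :
    D ^ (3 / 4 - θ / 4 : ℝ) * g ≤ x ^ 3 := by
  have hD0 : 0 < D := by linarith
  have h1 : g ≤ 64 * D ^ (3 * κ / 2) := by
    apply le_of_pow_le_pow_left₀ (n := 2) (by norm_num) (by positivity)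
    have e1 : (D ^ (3 * κ / 2)) ^ 2 = (D ^ κ) ^ 3 := by
      rw [← Real.rpow_natCast, ← Real.rpow_mul hD0.le, ← Real.rpow_natCast,
        ← Real.rpow_mul hD0.le]
      congr 1; push_cast; ring
    rw [mul_pow, e1]
    calc g ^ 2 ≤ 64 ^ 2 * NR ^ 3 := hg
      _ ≤ 64 ^ 2 * (D ^ κ) ^ 3 := by
          apply mul_le_mul_of_nonneg_left _ (by norm_num)
          exact pow_le_pow_left₀ hNR hR 3
  have h2 : 4 * D ^ (1 / 4 - κ / 2) ≤ x := by
    apply le_of_pow_le_pow_left₀ (n := 2) (by norm_num) hx0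
    have e1 : (D ^ (1 / 4 - κ / 2)) ^ 2 = D ^ (1 / 2 - κ) := by
      rw [← Real.rpow_natCast, ← Real.rpow_mul hD0.le]
      congr 1; push_cast; ring
    rw [mul_pow, e1, hx]
    linarith
  have h3 : (4 * D ^ (1 / 4 - κ / 2)) ^ 3 ≤ x ^ 3 := pow_le_pow_left₀ (by positivity) h2 3
  have e2 : (4 * D ^ (1 / 4 - κ / 2)) ^ 3 = 64 * D ^ (3 / 4 - 3 * κ / 2) := by
    rw [mul_pow, ← Real.rpow_natCast (D ^ (1 / 4 - κ / 2)), ← Real.rpow_mul hD0.le]
    norm_num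
    ring_nf
  rw [e2] at h3
  calc D ^ (3 / 4 - θ / 4 : ℝ) * g ≤ D ^ (3 / 4 - θ / 4 : ℝ) * (64 * D ^ (3 * κ / 2)) :=
        mul_le_mul_of_nonneg_left h1 (by positivity)
    _ = 64 * (D ^ (3 / 4 - θ / 4 : ℝ) * D ^ (3 * κ / 2)) := by ring
    _ = 64 * D ^ (3 / 4 - 3 * κ / 2) := by
        rw [← Real.rpow_add hD0]
        congr 2
        rw [hκ]; ring
    _ ≤ x ^ 3 := h3

section count

variable {F K : Type} [Field F] [NumberField F] [Field K] [NumberField K] [Algebra F K]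
  {α : 𝓞 F} {β : 𝓞 K} {v : InfinitePlace F} {B : ℝ}

/-- a set of classes with ideals `I` of small norm is small -/
lemma card_by_I [DecidableEq {c : ClassGroup (𝓞 K) // c ^ 3 = 1}]
    (d : ∀ c : {c : ClassGroup (𝓞 K) // c ^ 3 = 1}, CData F K α β v B c)
    (S : Finset {c : ClassGroup (𝓞 K) // c ^ 3 = 1}) (x : ℝ)
    (hS : ∀ c ∈ S, (Ideal.absNorm ((d c).I : Ideal (𝓞 K)) : ℝ) ≤ x) :
    S.card ≤ (idl K ⌊x⌋₊).card := by
  classical
  apply Finset.card_le_card_of_injOn (fun c => ((d c).I : Ideal (𝓞 K)))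
  · intro c hc
    rw [Finset.mem_coe, mem_idl]
    exact ⟨(d c).I_ne, Nat.le_floor (hS c hc)⟩
  · intro c _ c' _ h
    exact Subtype.ext ((d c).eq_of_I (d c') h)

/-- a set of classes with ideals `J` of small norm is small -/
lemma card_by_J [DecidableEq {c : ClassGroup (𝓞 K) // c ^ 3 = 1}]
    (d : ∀ c : {c : ClassGroup (𝓞 K) // c ^ 3 = 1}, CData F K α β v B c)
    (S : Finset {c : ClassGroup (𝓞 K) // c ^ 3 = 1}) (x : ℝ)
    (hS : ∀ c ∈ S, (Ideal.absNorm (d c).J : ℝ) ≤ x) :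
    S.card ≤ (idl K ⌊x⌋₊).card := by
  classical
  apply Finset.card_le_card_of_injOn (fun c => (d c).J)
  · intro c hc
    rw [Finset.mem_coe, mem_idl]
    exact ⟨(d c).J_ne, Nat.le_floor (hS c hc)⟩
  · intro c _ c' _ h
    exact Subtype.ext ((d c).eq_of_J (d c') c.2 c'.2 h)

/-- the classes over a pair `(Z, u)` are counted by the points -/
lemma card_by_pt [DecidableEq {c : ClassGroup (𝓞 K) // c ^ 3 = 1}] [DecidableEq F]
    [DecidableEq (𝓞 F × 𝓞 F)]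
    (d : ∀ c : {c : ClassGroup (𝓞 K) // c ^ 3 = 1}, CData F K α β v B c)
    (S : Finset {c : ClassGroup (𝓞 K) // c ^ 3 = 1}) (Z : 𝓞 F) (u : (𝓞 F)ˣ)
    (hS : ∀ c ∈ S, (d c).Z = Z ∧ (d c).u = u) :
    S.card = (S.image (fun c => ((d c).X, (d c).Y))).card := by
  symm
  apply Finset.card_image_of_injOn
  intro c hc c' hc' h
  have h1 := hS c hc
  have h2 := hS c' hc'
  exact Subtype.ext ((d c).eq_of_pt (d c') (h1.1.trans h2.1.symm) (h1.2.trans h2.2.symm)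
    (Prod.ext_iff.mp h).2)

end count

theorem three_torsion_eis : ∃ δ : ℝ, 0 < δ ∧ ∃ C : ℝ, ∀ (F K : Type) [Field F] [NumberField F]
    [IsCyclotomicExtension {3} ℚ F] [Field K] [NumberField K] [Algebra F K],
    finrank F K = 2 → h3 K ≤ C * |(discr K : ℝ)| ^ (1 / 2 - δ) := by
  classical
  obtain ⟨Cm, hCm, hmink⟩ := mink_class
  obtain ⟨Ci, hCi, hidx⟩ := index_bound
  obtain ⟨Ce', hce'⟩ := eis_count
  obtain ⟨Ca, hCa, hcount1⟩ := ideal_count 4 1 one_pos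
  set Ch : ℝ := Ca * Cm ^ 4 with hCh
  have hCh0 : 0 ≤ Ch := by positivity
  set Cx : ℝ := (Ci * (256 * (64 * Cm ^ 2) ^ 4) * Ch) ^ 2 with hCx
  have hCx0 : 0 ≤ Cx := by positivity
  set C₀ : ℝ := 64 * Cm ^ 2 + 4 * Cm + 1 + 8 + Cx with hC₀
  obtain ⟨θ, hθ, hθ8, Cp', hpts⟩ := points_bound C₀
  set κ : ℝ := θ / 12 with hκ
  have hκ0 : 0 < κ := by positivity
  obtain ⟨Cb, hCb, hcount2⟩ := ideal_count 4 κ hκ0
  set Ce : ℝ := max Ce' 0 with hCe
  have hCe0 : 0 ≤ Ce := le_max_right _ _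
  set Cp : ℝ := max Cp' 0 with hCp
  have hCp0 : 0 ≤ Cp := le_max_right _ _
  refine ⟨κ / 2, by positivity, Cb + Cb * Cm ^ 4 + 1 + 256 * Ce ^ 2 * Cm ^ 2 * Cp, ?_⟩
  intro F K _ _ _ _ _ _ hfin
  obtain ⟨α, β, hα, hβ, hβF⟩ := exists_sqrt (F := F) (K := K) hfin
  obtain ⟨v⟩ : Nonempty (InfinitePlace F) := inferInstance
  have hn : finrank ℚ K = 4 := quad_finrank (F := F) hfin
  have hcx : ∀ w : InfinitePlace K, w.IsComplex := fun w => all_complex (F := F) w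
  set D : ℝ := |(discr K : ℝ)| with hD
  have hD1 : 1 ≤ D := by
    rw [hD, ← Int.cast_abs]
    exact_mod_cast Int.one_le_abs (discr_ne_zero K)
  have hD0 : 0 < D := by linarith
  have hex := fun c : {c : ClassGroup (𝓞 K) // c ^ 3 = 1} =>
    exists_cdata hfin α β hα hβ hβF v Cm (hmink K hn hcx) c c.2
  rw [← hD] at hex
  set d : ∀ c : {c : ClassGroup (𝓞 K) // c ^ 3 = 1},
    CData F K α β v (Cm * D ^ (3 / 8 : ℝ)) (c : ClassGroup (𝓞 K)) :=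
    fun c => (hex c).some with hd
  -- norms of the ideals
  have hNI : ∀ c, (Ideal.absNorm ((d c).I : Ideal (𝓞 K)) : ℝ) ≤ Cm ^ 2 * D ^ (1 / 2 : ℝ) :=
    fun c => norm_I_le (Nat.cast_nonneg _) hCm hD1 (d c).norm_I
  -- the trivial bound for the number of classes
  have hh3 : h3 K = (Finset.univ : Finset {c : ClassGroup (𝓞 K) // c ^ 3 = 1}).card := by
    rw [h3, Nat.card_eq_fintype_card, Finset.card_univ]
  have hCmD : 1 ≤ Cm ^ 2 * D ^ (1 / 2 : ℝ) :=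
    one_le_mul_of_one_le_of_one_le (one_le_pow₀ hCm) (Real.one_le_rpow hD1 (by norm_num))
  have htriv : h3 K ≤ Ch * D := by
    rw [hh3]
    have h1 := card_by_I d Finset.univ (Cm ^ 2 * D ^ (1 / 2 : ℝ)) (fun c _ => hNI c)
    have h2 := hcount1 K hn (Cm ^ 2 * D ^ (1 / 2 : ℝ)) hCmD
    have h3 : (Cm ^ 2 * D ^ (1 / 2 : ℝ)) ^ (1 + 1 : ℝ) = Cm ^ 4 * D := by
      rw [show (1 + 1 : ℝ) = ((2 : ℕ) : ℝ) by norm_num, Real.rpow_natCast, mul_pow, ← pow_mul,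
        ← Real.rpow_natCast (D ^ (1 / 2 : ℝ)), ← Real.rpow_mul hD0.le]
      norm_num
    rw [h3] at h2
    calc ((Finset.univ : Finset {c : ClassGroup (𝓞 K) // c ^ 3 = 1}).card : ℝ) ≤
        (idl K ⌊Cm ^ 2 * D ^ (1 / 2 : ℝ)⌋₊).card := by exact_mod_cast h1
      _ ≤ Ca * (Cm ^ 4 * D) := h2
      _ = Ch * D := by rw [hCh]; ring
  -- the four parts
  set T1 := (Finset.univ : Finset {c : ClassGroup (𝓞 K) // c ^ 3 = 1}).filter
    (fun c => (Ideal.absNorm ((d c).I : Ideal (𝓞 K)) : ℝ) ≤ D ^ (1 / 2 - κ)) with hT1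
  set T2 := (Finset.univ : Finset {c : ClassGroup (𝓞 K) // c ^ 3 = 1}).filter
    (fun c => D ^ κ < (Ideal.absNorm (d c).R : ℝ)) with hT2
  set T3 := (Finset.univ : Finset {c : ClassGroup (𝓞 K) // c ^ 3 = 1}).filter
    (fun c : {c : ClassGroup (𝓞 K) // c ^ 3 = 1} => (c : ClassGroup (𝓞 K)) = 1) with hT3
  set T4 := (Finset.univ : Finset {c : ClassGroup (𝓞 K) // c ^ 3 = 1}).filter
    (fun c => D ^ (1 / 2 - κ) < (Ideal.absNorm ((d c).I : Ideal (𝓞 K)) : ℝ) ∧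
      (Ideal.absNorm (d c).R : ℝ) ≤ D ^ κ ∧ (c : ClassGroup (𝓞 K)) ≠ 1) with hT4
  have hcover : (Finset.univ : Finset {c : ClassGroup (𝓞 K) // c ^ 3 = 1}) ⊆
      ((T1 ∪ T2) ∪ T3) ∪ T4 := by
    intro c _
    simp only [hT1, hT2, hT3, hT4, Finset.mem_union, Finset.mem_filter, Finset.mem_univ, true_and]
    by_cases a1 : (Ideal.absNorm ((d c).I : Ideal (𝓞 K)) : ℝ) ≤ D ^ (1 / 2 - κ)
    · exact Or.inl (Or.inl (Or.inl a1))
    by_cases a2 : D ^ κ < (Ideal.absNorm (d c).R : ℝ)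
    · exact Or.inl (Or.inl (Or.inr a2))
    by_cases a3 : (c : ClassGroup (𝓞 K)) = 1
    · exact Or.inl (Or.inr a3)
    · exact Or.inr ⟨not_le.mp a1, not_lt.mp a2, a3⟩
  have hexp : (1 / 2 - κ) * (1 + κ) ≤ 1 / 2 - κ / 2 := by nlinarith
  have hκ2 : κ < 1 / 2 := by rw [hκ]; linarith
  -- part one
  have h1 : (T1.card : ℝ) ≤ Cb * D ^ (1 / 2 - κ / 2) := by
    have h1 := card_by_I d T1 (D ^ (1 / 2 - κ)) (fun c hc => (Finset.mem_filter.mp hc).2)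
    have h2 := hcount2 K hn (D ^ (1 / 2 - κ)) (Real.one_le_rpow hD1 (by linarith))
    rw [← Real.rpow_mul hD0.le] at h2
    calc (T1.card : ℝ) ≤ (idl K ⌊D ^ (1 / 2 - κ)⌋₊).card := by exact_mod_cast h1
      _ ≤ Cb * D ^ ((1 / 2 - κ) * (1 + κ)) := h2
      _ ≤ Cb * D ^ (1 / 2 - κ / 2) := by
          apply mul_le_mul_of_nonneg_left _ hCb
          exact Real.rpow_le_rpow_of_exponent_le hD1 hexp
  -- part two
  have h2 : (T2.card : ℝ) ≤ Cb * Cm ^ 4 * D ^ (1 / 2 - κ / 2) := by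
    have h1 := card_by_J d T2 (Cm ^ 2 * D ^ (1 / 2 - κ)) (fun c hc => by
      have a1 := (Finset.mem_filter.mp hc).2
      have a2 := hNI c
      have a3 : (Ideal.absNorm ((d c).I : Ideal (𝓞 K)) : ℝ) =
          (Ideal.absNorm (d c).R : ℝ) * (Ideal.absNorm (d c).J : ℝ) := by
        rw [(d c).hRJ, map_mul, Nat.cast_mul]
      rw [a3] at a2
      have hJ0 : (0 : ℝ) ≤ (Ideal.absNorm (d c).J : ℝ) := Nat.cast_nonneg _
      have hDk : 0 < D ^ κ := by positivity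
      have a4 : D ^ κ * (Ideal.absNorm (d c).J : ℝ) ≤ D ^ κ * (Cm ^ 2 * D ^ (1 / 2 - κ)) := by
        calc D ^ κ * (Ideal.absNorm (d c).J : ℝ) ≤
            (Ideal.absNorm (d c).R : ℝ) * (Ideal.absNorm (d c).J : ℝ) :=
              mul_le_mul_of_nonneg_right a1.le hJ0
          _ ≤ Cm ^ 2 * D ^ (1 / 2 : ℝ) := a2
          _ = D ^ κ * (Cm ^ 2 * D ^ (1 / 2 - κ)) := by
              rw [show (1 / 2 : ℝ) = κ + (1 / 2 - κ) by ring, Real.rpow_add hD0]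
              ring_nf
      exact le_of_mul_le_mul_left a4 hDk)
    have hx1 : 1 ≤ Cm ^ 2 * D ^ (1 / 2 - κ) :=
      one_le_mul_of_one_le_of_one_le (one_le_pow₀ hCm) (Real.one_le_rpow hD1 (by linarith))
    have h2 := hcount2 K hn (Cm ^ 2 * D ^ (1 / 2 - κ)) hx1
    rw [Real.mul_rpow (by positivity) (by positivity), ← Real.rpow_mul hD0.le] at h2
    have h3 : (Cm ^ 2 : ℝ) ^ (1 + κ) ≤ Cm ^ 4 := by
      calc (Cm ^ 2 : ℝ) ^ (1 + κ) ≤ (Cm ^ 2 : ℝ) ^ (2 : ℝ) :=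
            Real.rpow_le_rpow_of_exponent_le (one_le_pow₀ hCm) (by linarith)
        _ = Cm ^ 4 := by
            rw [show (2 : ℝ) = ((2 : ℕ) : ℝ) by norm_num, Real.rpow_natCast, ← pow_mul]
    calc (T2.card : ℝ) ≤ (idl K ⌊Cm ^ 2 * D ^ (1 / 2 - κ)⌋₊).card := by exact_mod_cast h1
      _ ≤ Cb * ((Cm ^ 2) ^ (1 + κ) * D ^ ((1 / 2 - κ) * (1 + κ))) := h2
      _ ≤ Cb * (Cm ^ 4 * D ^ (1 / 2 - κ / 2)) := by
          apply mul_le_mul_of_nonneg_left _ hCb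
          exact mul_le_mul h3 (Real.rpow_le_rpow_of_exponent_le hD1 hexp) (by positivity)
            (by positivity)
      _ = Cb * Cm ^ 4 * D ^ (1 / 2 - κ / 2) := by ring
  -- part three
  have h3' : (T3.card : ℝ) ≤ 1 * D ^ (1 / 2 - κ / 2) := by
    have a1 : T3.card ≤ 1 := by
      rw [Finset.card_le_one]
      intro a ha b hb
      have ha' := (Finset.mem_filter.mp ha).2
      have hb' := (Finset.mem_filter.mp hb).2
      exact Subtype.ext (ha'.trans hb'.symm)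
    have a2 : (1 : ℝ) ≤ D ^ (1 / 2 - κ / 2) := Real.one_le_rpow hD1 (by linarith)
    have a3 : (T3.card : ℝ) ≤ 1 := by exact_mod_cast a1
    linarith
  -- part four
  have hα0 : α ≠ 0 := hα.ne_zero
  have hvα : (0 : ℝ) ≤ v (α : F) := apply_nonneg _ _
  have hdisc : D ≤ 144 * v (α : F) ^ 2 := discr_le_sqrt hfin α β hβ hβF v
  have hfib : ∀ (Z : 𝓞 F) (u : (𝓞 F)ˣ),
      ((T4.filter (fun c => (d c).Z = Z ∧ (d c).u = u)).card : ℝ) ≤
        Cp * D ^ (1 / 4 - θ / 2) := by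
    intro Z u
    set S := T4.filter (fun c => (d c).Z = Z ∧ (d c).u = u) with hS
    rcases S.eq_empty_or_nonempty with h0 | ⟨c0, hc0⟩
    · rw [h0, Finset.card_empty, Nat.cast_zero]
      positivity
    have hSm : ∀ c ∈ S, (d c).Z = Z ∧ (d c).u = u := fun c hc => (Finset.mem_filter.mp hc).2
    have hST : ∀ c ∈ S, D ^ (1 / 2 - κ) < (Ideal.absNorm ((d c).I : Ideal (𝓞 K)) : ℝ) ∧
        (Ideal.absNorm (d c).R : ℝ) ≤ D ^ κ ∧ (c : ClassGroup (𝓞 K)) ≠ 1 := fun c hc =>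
      (Finset.mem_filter.mp (Finset.mem_filter.mp hc).1).2
    have hZ0 : Z ≠ 0 := by
      rintro rfl
      have a1 := (d c0).hZ0 (hSm c0 hc0).1
      apply (hST c0 hc0).2.2
      rw [← (d c0).hI]
      exact ClassGroup.mk0_eq_one_iff (d c0).I.2 |>.mpr a1
    set k : 𝓞 F := 16 * (u : 𝓞 F) ^ 2 * α * Z ^ 2 with hk
    have hk0 : k ≠ 0 := by
      have h16 : (16 : 𝓞 F) ≠ 0 := by norm_num
      exact mul_ne_zero (mul_ne_zero (mul_ne_zero h16 (pow_ne_zero _ u.ne_zero)) hα0)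
        (pow_ne_zero _ hZ0)
    have hvk : v (k : F) = 16 * (v (Z : F) ^ 2 * v (α : F)) := by
      have e1 : (k : F) = 16 * ((u : 𝓞 F) : F) ^ 2 * (α : F) * (Z : F) ^ 2 := by
        rw [hk]
        simp only [map_mul, map_pow, map_ofNat]
      rw [e1, map_mul, map_mul, map_mul, map_pow, map_pow, t16_place_unit v u, one_pow, mul_one]
      have e2 : v (16 : F) = 16 := by
        rw [← InfinitePlace.norm_embedding_eq, map_ofNat]
        norm_num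
      rw [e2]
      ring
    have hvk1 : v (k : F) ≤ 64 * Cm ^ 2 * D ^ (3 / 4 : ℝ) := by
      have a1 := (d c0).hZα
      rw [(hSm c0 hc0).1, mul_pow] at a1
      have e1 : (D ^ (3 / 8 : ℝ)) ^ 2 = D ^ (3 / 4 : ℝ) := by
        rw [← Real.rpow_natCast, ← Real.rpow_mul hD0.le]; norm_num
      rw [e1] at a1
      rw [hvk]
      linarith
    have hCm2 : 0 ≤ Cm ^ 2 := sq_nonneg Cm
    have hC0a : 64 * Cm ^ 2 ≤ C₀ := by rw [hC₀]; linarith
    have hC0b : 4 * Cm ≤ C₀ := by rw [hC₀]; linarith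
    have hC0c : 8 ≤ C₀ := by rw [hC₀]; linarith
    have hC0d : Cx ≤ C₀ := by rw [hC₀]; linarith
    have hC0e : 1 ≤ C₀ := by linarith
    obtain ⟨hi1, hi2⟩ := hidx F K hfin α β hα0 hβ hβF v Z k u hZ0 hk
    have hi3 : ((nsmulAddMonoidHom (α := (Ek (k : F)).Point) 3).range.index : ℝ) ≤
        C₀ * D ^ C₀ := by
      refine hi2.trans ?_
      have hvk0 : (0 : ℝ) ≤ v (k : F) := apply_nonneg _ _
      have a1 : (16 * v (k : F) ^ 2) ^ 2 ≤ 256 * (64 * Cm ^ 2) ^ 4 * D ^ 3 := by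
        have a2 : v (k : F) ^ 4 ≤ (64 * Cm ^ 2 * D ^ (3 / 4 : ℝ)) ^ 4 :=
          pow_le_pow_left₀ hvk0 hvk1 4
        have e1 : (D ^ (3 / 4 : ℝ)) ^ 4 = D ^ 3 := by
          rw [← Real.rpow_natCast, ← Real.rpow_mul hD0.le, ← Real.rpow_natCast]; norm_num
        rw [mul_pow (64 * Cm ^ 2), e1] at a2
        have e2 : (16 * v (k : F) ^ 2) ^ 2 = 256 * v (k : F) ^ 4 := by ring
        rw [e2, mul_assoc]
        exact mul_le_mul_of_nonneg_left a2 (by norm_num)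
      have hh0 : 0 ≤ h3 K := by rw [h3]; positivity
      have a3 : Ci * (16 * v (k : F) ^ 2) ^ 2 * h3 K ≤
          (Ci * (256 * (64 * Cm ^ 2) ^ 4) * Ch) * D ^ 4 := by
        calc Ci * (16 * v (k : F) ^ 2) ^ 2 * h3 K ≤
            Ci * (256 * (64 * Cm ^ 2) ^ 4 * D ^ 3) * (Ch * D) := by
              apply mul_le_mul _ htriv hh0 (by positivity)
              exact mul_le_mul_of_nonneg_left a1 hCi
          _ = (Ci * (256 * (64 * Cm ^ 2) ^ 4) * Ch) * D ^ 4 := by ring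
      calc (Ci * (16 * v (k : F) ^ 2) ^ 2 * h3 K) ^ 2 ≤
          ((Ci * (256 * (64 * Cm ^ 2) ^ 4) * Ch) * D ^ 4) ^ 2 :=
            pow_le_pow_left₀ (by positivity) a3 2
        _ = Cx * D ^ 8 := by rw [hCx]; ring
        _ ≤ C₀ * D ^ C₀ := by
            apply mul_le_mul hC0d _ (by positivity) (by positivity)
            rw [← Real.rpow_natCast]
            exact Real.rpow_le_rpow_of_exponent_le hD1 (by exact_mod_cast hC0c)
    rw [card_by_pt d S Z u hSm]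
    have hmain := hpts F v k D (S.image (fun c => ((d c).X, (d c).Y))) hk0 hD1
      (hvk1.trans (mul_le_mul_of_nonneg_right hC0a (by positivity))) hi1 hi3 (by
        intro P hP
        obtain ⟨c, hc, rfl⟩ := Finset.mem_image.mp hP
        obtain ⟨hcZ, hcu⟩ := hSm c hc
        obtain ⟨b1, b2, b3⟩ := hST c hc
        have hX0 : (0 : ℝ) ≤ v ((d c).X : F) := apply_nonneg _ _
        refine ⟨?_, ?_, ?_⟩
        · have := (d c).hY
          rw [hcZ, hcu] at this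
          exact this
        · have := X_le hX0 hCm hD1 (d c).hX3
          exact this.trans (mul_le_mul_of_nonneg_right hC0b (by positivity))
        · intro g hg1 hg2
          have hgn := (d c).hg g hg1 (by rw [hcZ, hcu]; exact hg2)
          have := gcd_le (apply_nonneg _ _) hX0 (Nat.cast_nonneg _) hD1 hκ hgn b2 (d c).hX2 b1.le
          refine this.trans ?_
          exact le_mul_of_one_le_left (by positivity) hC0e)
    refine hmain.trans ?_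
    exact mul_le_mul_of_nonneg_right (le_max_left _ _) (by positivity)
  have hpairs : ((T4.image (fun c => ((d c).Z, (((d c).u : (𝓞 F)ˣ) : 𝓞 F)))).card : ℝ) ≤
      256 * Ce ^ 2 * Cm ^ 2 * D ^ (1 / 4 : ℝ) := by
    obtain ⟨f1, f2⟩ := hce' F v (7 * Cm * D ^ (1 / 8 : ℝ)) (by positivity)
    obtain ⟨f3, f4⟩ := hce' F v 1 zero_le_one
    have hsub : T4.image (fun c => ((d c).Z, (((d c).u : (𝓞 F)ˣ) : 𝓞 F))) ⊆
        f1.toFinset ×ˢ f3.toFinset := by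
      intro P hP
      obtain ⟨c, hc, rfl⟩ := Finset.mem_image.mp hP
      rw [Finset.mem_product, Set.Finite.mem_toFinset, Set.Finite.mem_toFinset]
      refine ⟨?_, ?_⟩
      · exact Z_le (apply_nonneg _ _) hvα hCm hD1 (d c).hZα hdisc
      · exact (t16_place_unit v (d c).u).le
    have g1 := Finset.card_le_card hsub
    rw [Finset.card_product, ← Set.ncard_eq_toFinset_card _ f1, ← Set.ncard_eq_toFinset_card _ f3] at g1
    have g2 : ({z : 𝓞 F | v (z : F) ≤ 7 * Cm * D ^ (1 / 8 : ℝ)}.ncard : ℝ) ≤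
        Ce * (8 * Cm * D ^ (1 / 8 : ℝ)) ^ 2 := by
      refine f2.trans ?_
      have hD8 : 1 ≤ D ^ (1 / 8 : ℝ) := Real.one_le_rpow hD1 (by norm_num)
      have hCD : 1 ≤ Cm * D ^ (1 / 8 : ℝ) := one_le_mul_of_one_le_of_one_le hCm hD8
      apply mul_le_mul (le_max_left _ _) _ (by positivity) hCe0
      apply pow_le_pow_left₀ (by positivity)
      rw [mul_assoc, mul_assoc]
      linarith
    have g3 : ({z : 𝓞 F | v (z : F) ≤ 1}.ncard : ℝ) ≤ Ce * 4 := by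
      refine f4.trans ?_
      have : Ce' ≤ Ce := le_max_left _ _
      norm_num
      linarith
    have e2 : (D ^ (1 / 8 : ℝ)) ^ 2 = D ^ (1 / 4 : ℝ) := by
      rw [← Real.rpow_natCast, ← Real.rpow_mul hD0.le]; norm_num
    calc ((T4.image (fun c => ((d c).Z, (((d c).u : (𝓞 F)ˣ) : 𝓞 F)))).card : ℝ) ≤
        ({z : 𝓞 F | v (z : F) ≤ 7 * Cm * D ^ (1 / 8 : ℝ)}.ncard : ℝ) *
          ({z : 𝓞 F | v (z : F) ≤ 1}.ncard : ℝ) := by exact_mod_cast g1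
      _ ≤ (Ce * (8 * Cm * D ^ (1 / 8 : ℝ)) ^ 2) * (Ce * 4) :=
          mul_le_mul g2 g3 (Nat.cast_nonneg _) (by positivity)
      _ = 256 * Ce ^ 2 * Cm ^ 2 * D ^ (1 / 4 : ℝ) := by
          rw [mul_pow, e2]; ring
  have h4 : (T4.card : ℝ) ≤ 256 * Ce ^ 2 * Cm ^ 2 * Cp * D ^ (1 / 2 - κ / 2) := by
    have a1 := Finset.card_eq_sum_card_image
      (fun c => ((d c).Z, (((d c).u : (𝓞 F)ˣ) : 𝓞 F))) T4
    rw [a1, Nat.cast_sum]
    have a2 : ∀ P ∈ T4.image (fun c => ((d c).Z, (((d c).u : (𝓞 F)ˣ) : 𝓞 F))),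
        ((T4.filter (fun c => ((d c).Z, (((d c).u : (𝓞 F)ˣ) : 𝓞 F)) = P)).card : ℝ) ≤
          Cp * D ^ (1 / 4 - θ / 2) := by
      intro P hP
      obtain ⟨c0, hc0, rfl⟩ := Finset.mem_image.mp hP
      refine le_trans ?_ (hfib (d c0).Z (d c0).u)
      have : T4.filter (fun c => ((d c).Z, (((d c).u : (𝓞 F)ˣ) : 𝓞 F)) =
          ((d c0).Z, (((d c0).u : (𝓞 F)ˣ) : 𝓞 F))) ⊆
          T4.filter (fun c => (d c).Z = (d c0).Z ∧ (d c).u = (d c0).u) := by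
        intro c hc
        rw [Finset.mem_filter] at hc ⊢
        refine ⟨hc.1, (Prod.ext_iff.mp hc.2).1, ?_⟩
        exact Units.ext (Prod.ext_iff.mp hc.2).2
      exact_mod_cast Finset.card_le_card this
    refine (Finset.sum_le_card_nsmul _ _ _ a2).trans ?_
    rw [nsmul_eq_mul]
    calc _ ≤ (256 * Ce ^ 2 * Cm ^ 2 * D ^ (1 / 4 : ℝ)) * (Cp * D ^ (1 / 4 - θ / 2)) :=
          mul_le_mul_of_nonneg_right hpairs (by positivity)
      _ = 256 * Ce ^ 2 * Cm ^ 2 * Cp * (D ^ (1 / 4 : ℝ) * D ^ (1 / 4 - θ / 2)) := by ring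
      _ ≤ 256 * Ce ^ 2 * Cm ^ 2 * Cp * D ^ (1 / 2 - κ / 2) := by
          apply mul_le_mul_of_nonneg_left _ (by positivity)
          rw [← Real.rpow_add hD0]
          apply Real.rpow_le_rpow_of_exponent_le hD1
          rw [hκ]; linarith
  rw [hh3]
  have h5 : (Finset.univ : Finset {c : ClassGroup (𝓞 K) // c ^ 3 = 1}).card ≤
      T1.card + T2.card + T3.card + T4.card := by
    calc (Finset.univ : Finset {c : ClassGroup (𝓞 K) // c ^ 3 = 1}).card ≤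
        (((T1 ∪ T2) ∪ T3) ∪ T4).card := Finset.card_le_card hcover
      _ ≤ ((T1 ∪ T2) ∪ T3).card + T4.card := Finset.card_union_le _ _
      _ ≤ (T1 ∪ T2).card + T3.card + T4.card := by
          have := Finset.card_union_le (T1 ∪ T2) T3
          omega
      _ ≤ T1.card + T2.card + T3.card + T4.card := by
          have := Finset.card_union_le T1 T2
          omega
  have h6 : ((Finset.univ : Finset {c : ClassGroup (𝓞 K) // c ^ 3 = 1}).card : ℝ) ≤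
      T1.card + T2.card + T3.card + T4.card := by exact_mod_cast h5
  calc ((Finset.univ : Finset {c : ClassGroup (𝓞 K) // c ^ 3 = 1}).card : ℝ) ≤
      T1.card + T2.card + T3.card + T4.card := h6
    _ ≤ Cb * D ^ (1 / 2 - κ / 2) + Cb * Cm ^ 4 * D ^ (1 / 2 - κ / 2) + 1 * D ^ (1 / 2 - κ / 2) +
        256 * Ce ^ 2 * Cm ^ 2 * Cp * D ^ (1 / 2 - κ / 2) := by linarith
    _ = (Cb + Cb * Cm ^ 4 + 1 + 256 * Ce ^ 2 * Cm ^ 2 * Cp) * D ^ (1 / 2 - κ / 2) := by ring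

end Pool.Agent.Lib.MP_695920_nt.Qt
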