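import Mathlib
import Pool.Agent.Lib.MP_695920_nt.Qt.FinC

/-!
Quartic fields containing the third roots of unity.
-/

set_option autoImplicit false

open NumberField Module IsDedekindDomain
open scoped nonZeroDivisors

namespace Pool.Agent.Lib.MP_695920_nt.Qt

theorem three_torsion_quartic : ∃ δ : ℝ, 0 < δ ∧ ∃ C : ℝ, ∀ (K : Type) [Field K] [NumberField K],
    finrank ℚ K = 4 → (∃ x : K, x ^ 2 = -3) → h3 K ≤ C * |(discr K : ℝ)| ^ (1 / 2 - δ) := by
  obtain ⟨δ, hδ, C, hC⟩ := three_torsion_eis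
  refine ⟨δ, hδ, C, ?_⟩
  intro K _ _ hn hx
  obtain ⟨x, hx⟩ := hx
  set ω : K := (-1 + x) / 2 with hω
  have hω1 : ω ^ 2 + ω + 1 = 0 := by
    rw [hω]
    linear_combination (1 / 4 : K) * hx
  have hprim : IsPrimitiveRoot ω 3 := by
    rw [← Polynomial.isRoot_cyclotomic_iff]
    rw [Polynomial.IsRoot.def, Polynomial.cyclotomic_three]
    simp [hω1]
  have hint : Algebra.IsIntegral ℚ K := inferInstance
  have hcyc : IsCyclotomicExtension {3} ℚ (IntermediateField.adjoin ℚ {ω}) :=
    hprim.intermediateField_adjoin_isCyclotomicExtension ℚ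
  have hfin : finrank (IntermediateField.adjoin ℚ {ω}) K = 2 := by
    have h1 := finrank_mul_finrank ℚ (IntermediateField.adjoin ℚ {ω}) K
    rw [eis_finrank, hn] at h1
    omega
  exact hC (IntermediateField.adjoin ℚ {ω}) K hfin

end Pool.Agent.Lib.MP_695920_nt.Qt
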